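import Mathlib
import Pool.Agent.N780.Arith

set_option autoImplicit false

/-!
Denominators of products of `j` solutions: at the primes of an exceptional set `S` a power of `p` which is
logarithmic in the order, at the other primes the exponents of the level.
-/

namespace Pool.Agent.Run7.h143.PC

open PowerSeries Matrix Pool.Agent.N780

/-- the number of `v ≤ s` counted with `min j [s/p^v]` -/
def lo (j p s : ℕ) : ℕ := ∑ v ∈ Finset.Ico 1 (s + 1), min j (s / p ^ v)

theorem lo_eq (j : ℕ) {p : ℕ} (hp : p.Prime) {s B : ℕ} (hB : s + 1 ≤ B) :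
    lo j p s = ∑ v ∈ Finset.Ico 1 B, min j (s / p ^ v) := by
  unfold lo
  refine Finset.sum_subset (Finset.Ico_subset_Ico le_rfl hB) fun v hv hv' => ?_
  rw [Finset.mem_Ico] at hv hv'
  push Not at hv'
  have h1 : s < v := by have := hv' hv.1; omega
  rw [Nat.div_eq_of_lt (h1.trans (Nat.lt_pow_self hp.one_lt)), Nat.min_zero]

theorem lo_add (i j : ℕ) {p : ℕ} (hp : p.Prime) (a b : ℕ) :
    lo i p a + lo j p b ≤ lo (i + j) p (a + b) := by
  rw [lo_eq i hp (show a + 1 ≤ a + b + 1 by omega), lo_eq j hp (show b + 1 ≤ a + b + 1 by omega),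
    lo_eq (i + j) hp le_rfl, ← Finset.sum_add_distrib]
  refine Finset.sum_le_sum fun v _ => ?_
  have h1 : a / p ^ v + b / p ^ v ≤ (a + b) / p ^ v := Nat.div_add_div_le_add_div
  omega

theorem lo_zero_of_lt (j : ℕ) {p s : ℕ} (hs : s < p) : lo j p s = 0 := by
  unfold lo
  refine Finset.sum_eq_zero fun v hv => ?_
  rw [Finset.mem_Ico] at hv
  rw [Nat.div_eq_of_lt (lt_of_lt_of_le hs (Nat.le_self_pow (by omega) p)), Nat.min_zero]

theorem lo_le (j : ℕ) {p : ℕ} (hp : p.Prime) (s : ℕ) : lo j p s ≤ j * Nat.log p s := by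
  rcases Nat.eq_zero_or_pos s with h0 | h0
  · subst h0; simp [lo]
  have h1 : lo j p s ≤ ∑ v ∈ Finset.Ico 1 (s + 1), if v ≤ Nat.log p s then j else 0 := by
    unfold lo
    refine Finset.sum_le_sum fun v hv => ?_
    split_ifs with h
    · exact Nat.min_le_left _ _
    · rw [Nat.div_eq_of_lt, Nat.min_zero]
      exact Nat.lt_pow_of_log_lt hp.one_lt (by omega)
  refine h1.trans ?_
  rw [← Finset.sum_filter, Finset.sum_const, smul_eq_mul, mul_comm]
  refine Nat.mul_le_mul_left _ ?_
  calc ((Finset.Ico 1 (s + 1)).filter fun v => v ≤ Nat.log p s).card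
      ≤ (Finset.Ico 1 (Nat.log p s + 1)).card := by
        refine Finset.card_le_card fun v hv => ?_
        rw [Finset.mem_filter, Finset.mem_Ico] at hv
        rw [Finset.mem_Ico]; omega
    _ = Nat.log p s := by simp

theorem lo_one {p : ℕ} (hp : p.Prime) (s : ℕ) : Nat.log p s ≤ lo 1 p s := by
  rcases Nat.eq_zero_or_pos s with h0 | h0
  · subst h0; simp
  have h2 : Nat.log p s ≤ s := Nat.log_le_self p s
  calc Nat.log p s = (Finset.Ico 1 (Nat.log p s + 1)).card := by simp
    _ = ∑ v ∈ Finset.Ico 1 (Nat.log p s + 1), 1 := by rw [Finset.card_eq_sum_ones]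
    _ ≤ ∑ v ∈ Finset.Ico 1 (Nat.log p s + 1), min 1 (s / p ^ v) := by
        refine Finset.sum_le_sum fun v hv => ?_
        rw [Finset.mem_Ico] at hv
        have h3 : p ^ v ≤ s := Nat.pow_le_of_le_log h0.ne' (by omega)
        have h4 : 1 ≤ s / p ^ v := (Nat.one_le_div_iff (pow_pos hp.pos v)).2 h3
        omega
    _ ≤ lo 1 p s := Finset.sum_le_sum_of_subset (Finset.Ico_subset_Ico le_rfl (by omega))

open Classical in
/-- the exponent of `p` for products of `j` functions -/
noncomputable def exJ (h : ℕ → ℕ) (S : Set ℕ) (r j p s : ℕ) : ℕ :=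
  if p ∈ S then r * lo j p s else ex h p s

/-- the denominator for products of `j` functions -/
noncomputable def denJ (h : ℕ → ℕ) (S : Set ℕ) (r j s : ℕ) : ℕ :=
  ∏ p ∈ (Finset.range (s + 1)).filter Nat.Prime, p ^ exJ h S r j p s

variable (h : ℕ → ℕ) (S : Set ℕ) (r : ℕ)

theorem exJ_add (i j : ℕ) {p : ℕ} (hp : p.Prime) (a b : ℕ) :
    exJ h S r i p a + exJ h S r j p b ≤ exJ h S r (i + j) p (a + b) := by
  unfold exJ
  split_ifs
  · rw [← Nat.mul_add]
    exact Nat.mul_le_mul_left _ (lo_add i j hp a b)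
  · exact ex_add h hp a b

theorem exJ_zero_of_lt (j : ℕ) {p s : ℕ} (hs : s < p) : exJ h S r j p s = 0 := by
  unfold exJ
  split_ifs
  · rw [lo_zero_of_lt j hs, Nat.mul_zero]
  · exact ex_zero_of_lt h hs

theorem denJ_ne_zero (j s : ℕ) : denJ h S r j s ≠ 0 := by
  unfold denJ
  refine Finset.prod_ne_zero_iff.2 fun p hp => ?_
  exact pow_ne_zero _ (Finset.mem_filter.1 hp).2.ne_zero

theorem denJ_eq (j : ℕ) {s B : ℕ} (hB : s ≤ B) :
    denJ h S r j s = ∏ p ∈ (Finset.range (B + 1)).filter Nat.Prime, p ^ exJ h S r j p s := by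
  unfold denJ
  refine Finset.prod_subset ?_ fun p hp hp' => ?_
  · exact Finset.filter_subset_filter _ (Finset.range_mono (by omega))
  · rw [Finset.mem_filter] at hp hp'
    have h1 : ¬ p ∈ Finset.range (s + 1) := fun h => hp' ⟨h, hp.2⟩
    rw [Finset.mem_range] at h1
    rw [exJ_zero_of_lt h S r j (by omega), pow_zero]

theorem denJ_mul (i j a b : ℕ) : denJ h S r i a * denJ h S r j b ∣ denJ h S r (i + j) (a + b) := by
  rw [denJ_eq h S r i (show a ≤ a + b by omega), denJ_eq h S r j (show b ≤ a + b by omega), denJ,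
    ← Finset.prod_mul_distrib]
  refine Finset.prod_dvd_prod_of_dvd _ _ fun p hp => ?_
  rw [← pow_add]
  exact pow_dvd_pow p (exJ_add h S r i j (Finset.mem_filter.1 hp).2 a b)

theorem denJ_mono (j : ℕ) {s t : ℕ} (hst : s ≤ t) : denJ h S r j s ∣ denJ h S r j t := by
  obtain ⟨k, rfl⟩ := Nat.exists_eq_add_of_le hst
  exact (dvd_mul_right _ _).trans (denJ_mul h S r j 0 s k)

open Classical in
/-- the growth of the denominators -/
theorem log_denJ_le {T : ℝ} (hT : ∀ F : Finset ℕ, (∀ p ∈ F, p.Prime) → ∑ p ∈ F, wt h p ≤ T)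
    (j s : ℕ) : Real.log (denJ h S r j s) ≤ T * s + (r * j * Real.log s) *
      ((Finset.range (s + 1)).filter fun p => p.Prime ∧ p ∈ S).card := by
  rcases Nat.eq_zero_or_pos s with h0 | h0
  · subst h0
    have e : denJ h S r j 0 = 1 := by
      unfold denJ
      refine Finset.prod_eq_one fun p hp => ?_
      rw [Finset.mem_filter, Finset.mem_range] at hp
      exact absurd hp.2 (by have : p = 0 := by omega
                            rw [this]; exact Nat.not_prime_zero)
    rw [e]; simp
  have hs1 : (1 : ℝ) ≤ s := by exact_mod_cast h0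
  have hterm : ∀ p ∈ (Finset.range (s + 1)).filter Nat.Prime,
      Real.log ((p : ℝ) ^ exJ h S r j p s) ≤ wt h p * s +
        if p ∈ S then r * j * Real.log s else 0 := by
    intro p hp
    have hpp := (Finset.mem_filter.1 hp).2
    have hp1 : (1 : ℝ) < p := by exact_mod_cast hpp.one_lt
    have hlp : 0 ≤ Real.log p := Real.log_nonneg hp1.le
    rw [Real.log_pow]
    unfold exJ
    split_ifs with hS
    · have h1 : ((r * lo j p s : ℕ) : ℝ) ≤ r * j * Nat.log p s := by
        have := Nat.mul_le_mul_left r (lo_le j hpp s)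
        rw [← Nat.mul_assoc] at this
        exact_mod_cast this
      have h2 : (Nat.log p s : ℝ) * Real.log p ≤ Real.log s := by
        rw [← Real.log_pow]
        refine Real.log_le_log (by positivity) ?_
        exact_mod_cast Nat.pow_log_le_self p h0.ne'
      have h3 := wt_nonneg h hpp
      calc ((r * lo j p s : ℕ) : ℝ) * Real.log p ≤ (r * j * Nat.log p s) * Real.log p := by gcongr
        _ = r * j * (Nat.log p s * Real.log p) := by ring
        _ ≤ r * j * Real.log s := by gcongr
        _ ≤ wt h p * s + r * j * Real.log s := by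
            have : 0 ≤ wt h p * s := by positivity
            linarith
    · rw [add_zero]
      exact ex_le h hpp s
  unfold denJ
  push_cast
  rw [Real.log_prod fun p hp => ?_]
  · calc (∑ p ∈ (Finset.range (s + 1)).filter Nat.Prime, Real.log ((p : ℝ) ^ exJ h S r j p s))
        ≤ ∑ p ∈ (Finset.range (s + 1)).filter Nat.Prime, (wt h p * s +
            if p ∈ S then r * j * Real.log s else 0) := Finset.sum_le_sum hterm
      _ = (∑ p ∈ (Finset.range (s + 1)).filter Nat.Prime, wt h p) * s +
          (r * j * Real.log s) *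
            ((Finset.range (s + 1)).filter fun p => p.Prime ∧ p ∈ S).card := by
          rw [Finset.sum_add_distrib, Finset.sum_mul, ← Finset.sum_filter, Finset.filter_filter,
            Finset.sum_const, nsmul_eq_mul, mul_comm ((_ : ℕ) : ℝ)]
      _ ≤ _ := by
          have := hT ((Finset.range (s + 1)).filter Nat.Prime) fun p hp =>
            (Finset.mem_filter.1 hp).2
          gcongr
  · have h1 := (Finset.mem_filter.1 hp).2.pos
    have : (p : ℝ) ≠ 0 := by exact_mod_cast h1.ne'
    exact pow_ne_zero _ this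

open Classical in
/-- the known divisors -/
noncomputable def kn (p s : ℕ) : ℕ := if p ∈ S then vf p s - r * Nat.log p s else lv p (h p) s

/-- the factorial divides the product of the denominator and the known divisors -/
theorem factorial_dvdJ (s : ℕ) : s.factorial ∣ denJ h S r 1 s *
    ∏ p ∈ (Finset.range (s + 1)).filter Nat.Prime, p ^ kn h S r p s := by
  have h1 : s.factorial = ∏ p ∈ (Finset.range (s + 1)).filter Nat.Prime,
      p ^ s.factorial.factorization p := by
    conv_lhs => rw [← Nat.prod_factorization_pow_eq_self s.factorial_ne_zero]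
    refine Finsupp.prod_of_support_subset _ ?_ _ fun p _ => pow_zero p
    intro p hp
    rw [Nat.support_factorization, Nat.mem_primeFactors] at hp
    rw [Finset.mem_filter, Finset.mem_range]
    have := (hp.1.dvd_factorial).1 hp.2.1
    exact ⟨by omega, hp.1⟩
  rw [h1, denJ, ← Finset.prod_mul_distrib]
  refine Finset.prod_dvd_prod_of_dvd _ _ fun p hp => ?_
  have hpp := (Finset.mem_filter.1 hp).2
  have := Fact.mk hpp
  rw [← pow_add]
  refine pow_dvd_pow p ?_
  unfold exJ kn
  split_ifs with hS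
  · have h5 := Nat.mul_le_mul_left r (lo_one hpp s)
    have h6 : s.factorial.factorization p = vf p s := by
      rw [Nat.factorization_def _ hpp]; rfl
    rw [h6]
    omega
  have h2 : s.factorial.factorization p = ∑ j ∈ Finset.Ico 1 (s + 1), s / p ^ j := by
    rw [Nat.factorization_def _ hpp]
    refine padicValNat_factorial ?_
    have := Nat.log_le_self p s
    omega
  rw [h2]
  unfold ex lv
  rcases le_or_gt (h p + 1) (s + 1) with h3 | h3
  · exact (Finset.sum_Ico_consecutive (fun j => s / p ^ j) (show 1 ≤ h p + 1 by omega)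
      h3).symm.le.trans (Nat.add_comm _ _).le
  · refine le_trans ?_ (Nat.le_add_left _ _)
    exact Finset.sum_le_sum_of_subset (Finset.Ico_subset_Ico le_rfl (by omega))

/-- the denominators of the fundamental matrix up to the order `T₀` -/
theorem den_fundJ {ι : Type*} [Fintype ι] [DecidableEq ι] {O : Subring ℂ} {G : Matrix ι ι ℂ⟦X⟧}
    (hG : Mv O 1 G) {T₀ : ℕ}
    (hh : ∀ p : ℕ, p.Prime → p ≤ T₀ → p ∉ S → ∀ s ≤ p ^ h p, Mv O ((p ^ vf p s : ℕ) : ℂ) (gs G s))
    (hl : ∀ p : ℕ, p.Prime → p ≤ T₀ → p ∈ S → ∀ s ≤ T₀,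
      Mv O ((p ^ (vf p s - r * Nat.log p s) : ℕ) : ℂ) (gs G s))
    (i j : ι) (s : ℕ) (hs : s ≤ T₀) :
    (denJ h S r 1 s : ℂ) * coeff s (fund G i j) ∈ O := by
  set α : ℂ := coeff 0 (gs G s i j) with hα
  have hαO : α ∈ O := by
    obtain ⟨a, ha, h⟩ := mv_gs hG s i j 0
    rw [hα, h, one_mul]; exact ha
  obtain ⟨a, ha, h1⟩ := crt_prod hαO (fun p => kn h S r p s)
    ((Finset.range (s + 1)).filter Nat.Prime) (fun p hp => (Finset.mem_filter.1 hp).2)
    (fun p hp => by
      have hpp := (Finset.mem_filter.1 hp).2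
      have hps := Finset.mem_range.1 (Finset.mem_filter.1 hp).1
      have hpT : p ≤ T₀ := by omega
      by_cases hS : p ∈ S
      · have := hl p hpp hpT hS s hs i j 0
        unfold kn
        rw [if_pos hS]
        exact this
      · have := mv_gs_pow hpp (hh p hpp hpT hS) s i j 0
        unfold kn
        rw [if_neg hS]
        exact this)
  obtain ⟨l, hl⟩ := factorial_dvdJ h S r s
  have h2 : (denJ h S r 1 s : ℂ) * ((∏ p ∈ (Finset.range (s + 1)).filter Nat.Prime,
      p ^ kn h S r p s : ℕ) : ℂ) = (s.factorial : ℂ) * l := by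
    exact_mod_cast hl
  have hs : (s.factorial : ℂ) ≠ 0 := by exact_mod_cast s.factorial_ne_zero
  have e : (denJ h S r 1 s : ℂ) * coeff s (fund G i j) = l * a := by
    rw [coeff_fund, ← hα, mul_div_assoc', div_eq_iff hs, h1, ← mul_assoc, h2]
    ring
  rw [e]
  exact O.mul_mem (natCast_mem O l) ha

end Pool.Agent.Run7.h143.PC
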