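import Mathlib
import Pool.Agent.N780.Eff
import Pool.Agent.Run7.h143.PC.Den
import Pool.Agent.Run7.h143.PC.CoreD

set_option autoImplicit false

/-!
Systems with level `h` at the primes outside `S` and logarithmic growth at the primes in `S`.
-/

namespace Pool.Agent.Run7.h143.PC

open PowerSeries Pool.Agent.N780
open scoped RatFunc

/-- logarithmic growth of order `r` at `p`: the matrices of the divided derivatives have denominators
at most `p^(r log_p s)` -/
def LogGr {R : Type*} [CommRing R] {ι : Type*} [Fintype ι] [DecidableEq ι]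
    (q : Polynomial R) (A : Matrix ι ι (Polynomial R)) (p r : ℕ) : Prop :=
  ∀ s i j, ((p ^ (padicValNat p s.factorial - r * Nat.log p s) : ℕ) : Polynomial R) ∣
    N780.der q A s i j

/-- the order up to which everything has to be controlled -/
def ord (n m K₀ a' w : ℕ) : ℕ :=
  (n * n + 1) ^ m * (K₀ * (w + 1) + (n * n + 1) ^ m * a') + (n * n + 1) ^ m

/-- **the effective form** -/
theorem effD (E : Datum) {T' : ℝ} (hT' : 0 ≤ T') (hφ' : Real.exp T' < ‖coeff 1 E.φ‖) :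
    ∃ m K₀ N₁ : ℕ, 1 ≤ m ∧ 1 ≤ N₁ ∧ 1 ≤ K₀ ∧ ∀ (c : ℂ), c ∈ E.O → ∀ (q₁ : Polynomial ℤ),
      (∃ u ∈ E.O, u * coeff 0 (sh c q₁) = 1) → (∃ ψ, Conv ψ ∧ sh c q₁ * ψ = 1) →
      (∃ ψ, Conv ψ ∧ E.σ (sh c q₁) * ψ = 1) →
      ∀ (ι : Type) [Fintype ι] [DecidableEq ι] (k a : ℕ), ∃ K : ℕ,
      ∀ (H : ℕ) (A : Matrix ι ι (Polynomial ℤ)), (∀ i j, (A i j).natDegree ≤ a) →
        (∀ i j l, |(A i j).coeff l| ≤ (H : ℤ)) →
        ∀ w : ℕ, K * (H + 1) ≤ w → ∀ (h : ℕ → ℕ) (S : Set ℕ) (rr : ℕ),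
        (∀ p : ℕ, p.Prime → p ≤ ord (Fintype.card ι) m K₀ (max a (q₁ ^ k).natDegree) w →
          p ∉ S → Level (q₁ ^ k) A p (h p)) →
        (∀ p : ℕ, p.Prime → p ≤ ord (Fintype.card ι) m K₀ (max a (q₁ ^ k).natDegree) w →
          p ∈ S → LogGr (q₁ ^ k) A p rr) →
        (∀ s ≤ ord (Fintype.card ι) m K₀ (max a (q₁ ^ k).natDegree) w,
          (denJ h S rr m s : ℝ) ≤ Real.exp (T' * ((max s (N₁ * (w + 1)) : ℕ) : ℝ))) →
        ∃ L : IntermediateField (RatFunc ℂ) (LaurentSeries ℂ), FiniteDimensional (RatFunc ℂ) L ∧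
          Module.finrank (RatFunc ℂ) L ≤ m ∧
          ∀ y : ι → ℂ⟦X⟧,
            (∀ i, sh c (q₁ ^ k) * d⁄dX ℂ (y i) = ∑ j, sh c (A i j) * y j) →
            ∀ i, toL (y i) ∈ L := by
  classical
  obtain ⟨r, hr0, hr1, hκ⟩ : ∃ r : ℝ, 0 < r ∧ r < 1 ∧ 0 < Real.log (‖coeff 1 E.φ‖ * r) - T' := by
    have h0 : 0 < ‖coeff 1 E.φ‖ := (Real.exp_pos _).trans hφ'
    obtain ⟨r, h1, h2⟩ := exists_between ((div_lt_one h0).2 hφ')
    have hr : 0 < r := lt_trans (by positivity) h1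
    refine ⟨r, hr, h2, ?_⟩
    rw [sub_pos, Real.lt_log_iff_exp_lt (by positivity)]
    rw [div_lt_iff₀ h0] at h1
    linarith
  obtain ⟨m, K₀, N₁, hm, hN₁, hK₀, hcore⟩ := coreD E hT' hr0 hr1 hκ
  refine ⟨m, K₀, N₁, hm, hN₁, hK₀, fun c hc q₁ hu h₀ h₁ ι _ _ k a => ?_⟩
  obtain ⟨w, hw1, hw2⟩ := dv_inv (dv_sh hc q₁) hu
  obtain ⟨ψ₀, hψ₀, hψ₀'⟩ := h₀
  obtain ⟨ψ, hψ, hψ'⟩ := h₁
  have hwψ : w = ψ₀ := by
    calc w = w * (sh c q₁ * ψ₀) := by rw [hψ₀', mul_one]
      _ = (sh c q₁ * w) * ψ₀ := by ring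
      _ = ψ₀ := by rw [hw2, one_mul]
  have hσw : E.σ w = ψ := by
    have h2 : E.σ (sh c q₁) * E.σ w = 1 := by rw [← map_mul, hw2, map_one]
    calc E.σ w = E.σ w * (E.σ (sh c q₁) * ψ) := by rw [hψ', mul_one]
      _ = (E.σ (sh c q₁) * E.σ w) * ψ := by ring
      _ = ψ := by rw [h2, one_mul]
  have hwc : Conv w := hwψ ▸ hψ₀
  have hqw : sh c (q₁ ^ k) * w ^ k = 1 := by rw [map_pow, ← mul_pow, hw2, one_pow]
  -- the constants
  set r1 : ℝ := (1 + r) / 2 with hr1d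
  have hrr1 : r < r1 := by rw [hr1d]; linarith
  have hr11 : r1 < 1 := by rw [hr1d]; linarith
  have hr10 : 0 ≤ r1 := hr0.le.trans hrr1.le
  have hSX : Conv (sh c Polynomial.X) := by rw [sh_X]; exact conv_X.add (conv_C _)
  set Sσ : Polynomial ℤ →+* ℂ⟦X⟧ := (E.σ : ℂ⟦X⟧ →+* ℂ⟦X⟧).comp (sh c) with hSσ
  have hSσX : Conv (Sσ Polynomial.X) := by
    rw [hSσ, RingHom.comp_apply, sh_X]
    have : (E.σ : ℂ⟦X⟧ →+* ℂ⟦X⟧) (X + C c) = E.φ + C c := by
      rw [map_add]
      exact congrArg₂ (· + ·) E.σ_X (E.σ_C c)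
    rw [this]
    exact E.hφ.add (conv_C _)
  set c1 : ℝ := nrm (3 / 4) w ^ k * ((a + 1) * (max 1 (nrm (3 / 4) (sh c Polynomial.X))) ^ a)
    with hc1
  set c2 : ℝ := nrm r1 ψ ^ k * ((a + 1) * (max 1 (nrm r1 (Sσ Polynomial.X))) ^ a) *
    nrm r1 (d⁄dX ℂ E.φ) with hc2
  set n := Fintype.card ι with hn
  obtain ⟨K₁, hK₁⟩ := exists_nat_gt (max ((n : ℝ) * (n * c1)) ((n : ℝ) * (n * c2)))
  obtain ⟨lam, hlam⟩ := exists_nat_gt (max (Real.log 3) (Real.log (1 - r / r1)⁻¹))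
  set Mb : ℕ := (n * n + 1) ^ m with hMb
  set a' : ℕ := max a (q₁ ^ k).natDegree with ha'
  refine ⟨m * (lam * (K₁ + 1)), fun H A hAd hAH w₀ hw₀' h S rr hlev hlog hden => ?_⟩
  set T₀ : ℕ := ord n m K₀ a' w₀ with hT₀'
  have hT₀ : T₀ = Mb * (K₀ * (w₀ + 1) + Mb * a') + Mb := rfl
  have hw₀ : m * (lam * (K₁ * H + 1)) ≤ w₀ := by
    refine le_trans ?_ hw₀'
    calc m * (lam * (K₁ * H + 1)) ≤ m * (lam * ((K₁ + 1) * (H + 1))) := by
          gcongr
          nlinarith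
      _ = _ := by ring
  have hMb1 : 1 ≤ Mb := Nat.one_le_pow _ _ (by omega)
  have hDT : K₀ * (w₀ + 1) ≤ T₀ := by
    rw [hT₀]
    have : K₀ * (w₀ + 1) + Mb * a' ≤ Mb * (K₀ * (w₀ + 1) + Mb * a') :=
      Nat.le_mul_of_pos_left _ (by omega)
    omega
  -- the matrix
  set G : Matrix ι ι ℂ⟦X⟧ := fun i j => w ^ k * sh c (A i j) with hG
  have hGq : ∀ i j, sh c (q₁ ^ k) * G i j = sh c (A i j) := by
    intro i j
    calc sh c (q₁ ^ k) * (w ^ k * sh c (A i j)) = (sh c (q₁ ^ k) * w ^ k) * sh c (A i j) := by ring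
      _ = _ := by rw [hqw, one_mul]
  have hGv : Mv E.O 1 G := by
    intro i j
    have := (hw1.pow_one k).mul (dv_sh hc (A i j))
    rwa [mul_one] at this
  have hGN : ∀ (N s : ℕ), (∀ i j, ((N : ℕ) : Polynomial ℤ) ∣ N780.der (q₁ ^ k) A s i j) →
      Mv E.O (N : ℂ) (gs G s) := by
    intro N s hdv i j
    obtain ⟨R, hR⟩ := hdv i j
    have h3 := sh_der c (q₁ ^ k) A G hGq s i j
    have h4 : gs G s i j = (w ^ k) ^ s * sh c (N780.der (q₁ ^ k) A s i j) := by
      rw [← h3, ← mul_assoc, ← mul_pow, mul_comm (w ^ k), hqw, one_pow, one_mul]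
    have h5 : Dv E.O (N : ℂ) (sh c (N780.der (q₁ ^ k) A s i j)) := by
      rw [hR, map_mul, map_natCast]
      have h6 : ∀ N : ℕ, Dv E.O (N : ℂ) ((N : ℕ) : ℂ⟦X⟧) := by
        intro N u
        have e : ((N : ℕ) : ℂ⟦X⟧) = C (N : ℂ) := by simp
        rw [e, coeff_C]
        split_ifs
        · exact ⟨1, E.O.one_mem, by simp⟩
        · exact ⟨0, E.O.zero_mem, by simp⟩
      have := (h6 N).mul (dv_sh hc R)
      rwa [mul_one] at this
    rw [h4]
    have := ((hw1.pow_one k).pow_one s).mul h5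
    rwa [one_mul] at this
  have hGp : ∀ p : ℕ, p.Prime → p ≤ T₀ → p ∉ S → ∀ s ≤ p ^ h p,
      Mv E.O ((p ^ vf p s : ℕ) : ℂ) (gs G s) := fun p hpp hpT hpS s hs =>
    hGN _ s fun i j => hlev p hpp hpT hpS s hs i j
  have hGl : ∀ p : ℕ, p.Prime → p ≤ T₀ → p ∈ S → ∀ s ≤ T₀,
      Mv E.O ((p ^ (vf p s - rr * Nat.log p s) : ℕ) : ℂ) (gs G s) := fun p hpp hpT hpS s _ =>
    hGN _ s fun i j => hlog p hpp hpT hpS s i j
  -- convergence and sizes
  have hGc : ∀ i j, Conv (G i j) := fun i j => (hwc.pow k).mul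
    (nrm_hom (sh c) hSX (by norm_num : (0 : ℝ) ≤ 3 / 4) (by norm_num) (hAd i j) (hAH i j)).1
  have hGn : ∀ i j, nrm (3 / 4) (G i j) ≤ c1 * H := by
    intro i j
    have h2 := nrm_hom (sh c) hSX (by norm_num : (0 : ℝ) ≤ 3 / 4) (by norm_num) (hAd i j) (hAH i j)
    refine (nrm_mul (by norm_num) (by norm_num) (hwc.pow k) h2.1).trans ?_
    have h3 := nrm_pow (r := 3 / 4) (by norm_num) (by norm_num) hwc k
    calc nrm (3 / 4) (w ^ k) * nrm (3 / 4) (sh c (A i j))
        ≤ nrm (3 / 4) w ^ k * ((a + 1) * (max 1 (nrm (3 / 4) (sh c Polynomial.X))) ^ a * H) := by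
          refine mul_le_mul h3 h2.2 (nrm_nonneg (by norm_num) _) ?_
          exact pow_nonneg (nrm_nonneg (by norm_num) _) _
      _ = c1 * H := by rw [hc1]; ring
  set Bm : Matrix ι ι ℂ⟦X⟧ := fun i j => E.σ (G i j) * d⁄dX ℂ E.φ with hBm
  have hBeq : ∀ i j, Bm i j = (ψ ^ k * Sσ (A i j)) * d⁄dX ℂ E.φ := by
    intro i j
    simp only [hBm, hG, map_mul, map_pow, hσw]
    rfl
  have hBc : ∀ i j, Conv (Bm i j) := fun i j => by
    rw [hBeq]
    exact ((hψ.pow k).mul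
      (nrm_hom Sσ hSσX hr10 hr11 (hAd i j) (hAH i j)).1).mul E.hφ.derivative
  have hBn : ∀ i j, nrm r1 (Bm i j) ≤ c2 * H := by
    intro i j
    rw [hBeq]
    have h2 := nrm_hom Sσ hSσX hr10 hr11 (hAd i j) (hAH i j)
    refine (nrm_mul hr10 hr11 ((hψ.pow k).mul h2.1) E.hφ.derivative).trans ?_
    have h3 := nrm_pow hr10 hr11 hψ k
    have h4 := nrm_mul hr10 hr11 (hψ.pow k) h2.1
    calc nrm r1 (ψ ^ k * Sσ (A i j)) * nrm r1 (d⁄dX ℂ E.φ)
        ≤ (nrm r1 ψ ^ k * ((a + 1) * (max 1 (nrm r1 (Sσ Polynomial.X))) ^ a * H)) *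
          nrm r1 (d⁄dX ℂ E.φ) := by
          refine mul_le_mul_of_nonneg_right (h4.trans ?_) (nrm_nonneg hr10 _)
          refine mul_le_mul h3 h2.2 (nrm_nonneg hr10 _) ?_
          exact pow_nonneg (nrm_nonneg hr10 _) _
      _ = c2 * H := by rw [hc2]; ring
  have hsumb : ∀ (Y : Matrix ι ι ℂ⟦X⟧) (ρ cc : ℝ), (∀ i j, nrm ρ (Y i j) ≤ cc * H) →
      (n : ℝ) * (n * cc) ≤ K₁ → ∑ i, ∑ j, nrm ρ (Y i j) ≤ ((K₁ * H : ℕ) : ℝ) := by
    intro Y ρ cc hY hcc
    calc ∑ i, ∑ j, nrm ρ (Y i j) ≤ ∑ _i : ι, ∑ _j : ι, cc * H :=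
          Finset.sum_le_sum fun i _ => Finset.sum_le_sum fun j _ => hY i j
      _ = ((n : ℝ) * (n * cc)) * H := by
          simp only [Finset.sum_const, Finset.card_univ, nsmul_eq_mul]
          ring
      _ ≤ K₁ * H := by gcongr
      _ = _ := by push_cast; ring
  have hlam0 : (3 : ℝ) ≤ Real.exp lam := by
    rw [← Real.log_le_iff_le_exp (by norm_num)]
    exact (le_max_left _ _).trans hlam.le
  have hθ : 0 < 1 - r / r1 := by
    rw [sub_pos, div_lt_one (lt_trans hr0 hrr1)]; exact hrr1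
  have hlam1 : (1 - r / r1)⁻¹ ≤ Real.exp lam := by
    rw [← Real.log_le_iff_le_exp (by positivity)]
    exact (le_max_right _ _).trans hlam.le
  have hfode : ∀ i j, d⁄dX ℂ (fund G i j) = ∑ l, G i l * fund G l j := by
    intro i j
    have h7 := congrFun (congrFun (fund_ode G) i) j
    rwa [mD_apply, Matrix.mul_apply] at h7
  have hc0 : ∀ j, ∑ i, ‖coeff 0 (fund G i j)‖ = 1 := by
    intro j
    have : ∀ i, ‖coeff 0 (fund G i j)‖ = if i = j then (1 : ℝ) else 0 := by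
      intro i
      rw [fund_zero, Matrix.one_apply]
      split_ifs <;> simp
    rw [Finset.sum_congr rfl fun i _ => this i]
    simp
  have hfc : ∀ i j, Conv (fund G i j) := conv_fund G hGc
  have hσode : ∀ i j, d⁄dX ℂ (E.σ (fund G i j)) = ∑ l, Bm i l * E.σ (fund G l j) := by
    intro i j
    rw [E.σ_deriv, hfode, map_sum, Finset.sum_mul]
    refine Finset.sum_congr rfl fun l _ => ?_
    rw [map_mul, hBm]; ring
  have hσc : ∀ i j, Conv (E.σ (fund G i j)) := fun i j =>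
    conv_of_ode Bm hBc (fun i => E.σ (fund G i j)) (fun i => hσode i j) i
  have hfn : ∀ i j, nrm (1 / 2) (fund G i j) ≤ Real.exp (lam * (K₁ * H + 1)) := by
    intro i j
    have h2 := nrm_of_ode G hGc (fun i => fund G i j) (fun i => hfode i j)
      (r := 1 / 2) (r1 := 3 / 4) (by norm_num) (by norm_num) (by norm_num)
      (hsumb G (3 / 4) c1 hGn ((le_max_left _ _).trans hK₁.le)) i
    refine h2.trans ?_
    rw [hc0, one_mul]
    have e : (1 - (1 : ℝ) / 2 / (3 / 4))⁻¹ = 3 := by norm_num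
    rw [e]
    calc (3 : ℝ) ^ (K₁ * H + 1) ≤ Real.exp lam ^ (K₁ * H + 1) := by gcongr
      _ = _ := by rw [← Real.exp_nat_mul]; push_cast; congr 1; ring
  have hσn : ∀ i j, nrm r (E.σ (fund G i j)) ≤ Real.exp (lam * (K₁ * H + 1)) := by
    intro i j
    have h2 := nrm_of_ode Bm hBc (fun i => E.σ (fund G i j)) (fun i => hσode i j)
      hr0.le hrr1 hr11 (hsumb Bm r1 c2 hBn ((le_max_right _ _).trans hK₁.le)) i
    refine h2.trans ?_
    have e0 : ∑ i, ‖coeff 0 (E.σ (fund G i j))‖ = 1 := by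
      rw [← hc0 j]
      exact Finset.sum_congr rfl fun i _ => by rw [E.coeff_zero_σ]
    rw [e0, one_mul]
    calc ((1 - r / r1)⁻¹) ^ (K₁ * H + 1) ≤ Real.exp lam ^ (K₁ * H + 1) := by
          have := hθ.le
          gcongr
      _ = _ := by rw [← Real.exp_nat_mul]; push_cast; congr 1; ring
  have hgoodf : ∀ i j, GoodD E (denJ h S rr 1) T₀ (fund G i j) := by
    intro i j
    refine ⟨fun s hs => ?_, hfc i j, hσc i j⟩
    exact den_fundJ h S rr hGv hGp hGl i j s hs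
  -- the generators
  set u : Option (ι × ι) → ℂ⟦X⟧ := fun g => g.elim 1 fun x => fund G x.1 x.2 with hud
  have hexp1 : (1 : ℝ) ≤ Real.exp (lam * (K₁ * H + 1)) := Real.one_le_exp (by positivity)
  have hug : ∀ g, GoodD E (denJ h S rr 1) T₀ (u g) := by
    intro g
    cases g with
    | none => exact goodD_one E _ T₀
    | some x => exact hgoodf x.1 x.2
  have hun : ∀ g, nrm (1 / 2) (u g) ≤ Real.exp (lam * (K₁ * H + 1)) := by
    intro g
    cases g with
    | none => exact (nrm_one).le.trans hexp1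
    | some x => exact hfn x.1 x.2
  have huσ : ∀ g, nrm r (E.σ (u g)) ≤ Real.exp (lam * (K₁ * H + 1)) := by
    intro g
    cases g with
    | none =>
      have : E.σ (u none) = 1 := map_one E.σ
      rw [this]
      exact (nrm_one).le.trans hexp1
    | some x => exact hσn x.1 x.2
  -- the differential system of the generators
  set Bp : Matrix (Option (ι × ι)) (Option (ι × ι)) (Polynomial ℂ) := fun x y =>
    x.elim 0 fun x' => y.elim 0 fun y' => if x'.2 = y'.2 then shpH c (A x'.1 y'.1) else 0 with hBp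
  have hBpd : ∀ x y, (Bp x y).natDegree ≤ a' := by
    intro x y
    cases x with
    | none => simp [hBp]
    | some x =>
      cases y with
      | none => simp [hBp]
      | some y =>
        simp only [hBp, Option.elim_some]
        split_ifs
        · exact (shp_deg c _).trans ((hAd _ _).trans (le_max_left _ _))
        · simp
  have hode : ∀ g, ((shpH c (q₁ ^ k) : Polynomial ℂ) : ℂ⟦X⟧) * d⁄dX ℂ (u g) =
      ∑ g', (Bp g g' : ℂ⟦X⟧) * u g' := by
    intro g
    rw [Fintype.sum_option]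
    cases g with
    | none =>
      have e1 : d⁄dX ℂ (u none) = 0 := by
        change d⁄dX ℂ (1 : ℂ⟦X⟧) = 0
        simp
      rw [e1, mul_zero]
      simp [hBp]
    | some x =>
      have e1 : d⁄dX ℂ (u (some x)) = ∑ l, G x.1 l * fund G l x.2 := hfode x.1 x.2
      rw [e1, coe_shp, Fintype.sum_prod_type, Finset.mul_sum]
      simp only [hBp, hud, Option.elim_some, Option.elim_none, Polynomial.coe_zero, zero_mul,
        zero_add]
      refine Finset.sum_congr rfl fun l _ => ?_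
      rw [Finset.sum_eq_single x.2]
      · rw [if_pos rfl, coe_shp, ← mul_assoc, hGq]
      · intro b _ hb
        rw [if_neg (Ne.symm hb)]
        simp
      · intro hb; exact absurd (Finset.mem_univ _) hb
  have hQ0 : (shpH c (q₁ ^ k)).coeff 0 ≠ 0 := by
    rw [← Polynomial.coeff_coe, coe_shp]
    intro h0
    have h2 := congrArg (coeff 0) hqw
    rw [c0_mul, h0, zero_mul] at h2
    simp at h2
  have hQd : (shpH c (q₁ ^ k)).natDegree ≤ a' := (shp_deg c _).trans (le_max_right _ _)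
  have hcardγ : Fintype.card (Option (ι × ι)) = n * n + 1 := by
    rw [Fintype.card_option, Fintype.card_prod]
  -- the dependence
  have hdep : ∀ f : Fin m → (Fin m → Option (ι × ι)),
      ¬ LinearIndependent (RatFunc ℂ) (fun i => ∏ l, toL (u (f i l))) := by
    intro f
    have hexpw : Real.exp ((m : ℝ) * (lam * (K₁ * H + 1))) ≤ Real.exp w₀ := by
      refine Real.exp_le_exp.2 ?_
      exact_mod_cast hw₀
    obtain ⟨P, hP0, hP⟩ := hcore (denJ h S rr m) w₀ T₀ hDT (denJ_ne_zero h S rr m)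
      (fun s t hst => denJ_mono h S rr m hst) hden (fun i => ∏ l, u (f i l))
      (fun i => goodD_prod E (denJ_mul h S rr) m _ fun l => hug _)
      (fun i => by
        refine (nrm_prod (by norm_num) (by norm_num) _ (fun l _ => (hug (f i l)).2.1)
          fun l _ => hun (f i l)).trans (le_trans (le_of_eq ?_) hexpw)
        rw [Finset.card_univ, Fintype.card_fin, ← Real.exp_nat_mul])
      (fun i => by
        rw [map_prod]
        refine (nrm_prod hr0.le hr1 _ (fun l _ => (hug (f i l)).2.2)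
          fun l _ => huσ (f i l)).trans (le_trans (le_of_eq ?_) hexpw)
        rw [Finset.card_univ, Fintype.card_fin, ← Real.exp_nat_mul])
      (fun P hPd hPne => by
        have h2 := zero_family hQ0 hQd hBpd hode f P hPd hPne
        rw [hcardγ] at h2
        exact h2)
    intro hli
    rw [Fintype.linearIndependent_iff] at hli
    have h0 := hli (fun i => toR (P i)) (by
      have h1 := congrArg toL hP
      rw [map_sum, map_zero] at h1
      rw [← h1]
      refine Finset.sum_congr rfl fun i _ => ?_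
      rw [toR_smul, map_mul, map_prod])
    exact hP0 (funext fun i => toR_eq_zero (h0 i))
  obtain ⟨hfd, hfr⟩ := adjoin_small (F := RatFunc ℂ) (fun g => toL (u g)) none (map_one toL) m hdep
  refine ⟨_, hfd, hfr, fun y hy i => ?_⟩
  have hysol : ∀ i, d⁄dX ℂ (y i) = ∑ j, G i j * y j := by
    intro i
    calc d⁄dX ℂ (y i) = w ^ k * (sh c (q₁ ^ k) * d⁄dX ℂ (y i)) := by
          rw [← mul_assoc, mul_comm (w ^ k), hqw, one_mul]
      _ = _ := by
          rw [hy i, Finset.mul_sum]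
          refine Finset.sum_congr rfl fun j _ => ?_
          rw [hG]; ring
  rw [sol_eq G y hysol i, map_sum]
  refine IntermediateField.sum_mem _ fun j _ => toL_C_mul_mem _ _ ?_
  exact IntermediateField.subset_adjoin _ _ ⟨some (i, j), rfl⟩


end Pool.Agent.Run7.h143.PC
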