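import Mathlib
import Pool.Agent.N780.R.E4
import Pool.Agent.Run7.h143.PC.Curve

set_option autoImplicit false

/-!
The two forms of the density theorem for integer matrices.
-/

namespace Pool.Agent.Run7.h143.PC

open PowerSeries Pool.Agent.N780
open scoped RatFunc

open Classical in
/-- the number of primes up to `x` in the set `S` -/
noncomputable def cnt (S : Set ℕ) (x : ℕ) : ℕ :=
  ((Finset.range (x + 1)).filter fun p => p.Prime ∧ p ∈ S).card

theorem cnt_mono (S : Set ℕ) {x y : ℕ} (h : x ≤ y) : cnt S x ≤ cnt S y := by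
  classical
  unfold cnt
  exact Finset.card_le_card (Finset.filter_subset_filter _ (Finset.range_mono (by omega)))

/-- the sum of the contributions of the levels is at most `τ` -/
def Bud (h : ℕ → ℕ) (τ : ℝ) : Prop := ∀ F : Finset ℕ, (∀ p ∈ F, p.Prime) → ∑ p ∈ F, wt h p ≤ τ

theorem denJ_bound {h : ℕ → ℕ} {τ : ℝ} (hB : Bud h τ) (S : Set ℕ) (r j s : ℕ) {Y : ℝ}
    (hY : (cnt S s : ℝ) * Real.log s ≤ Y) :
    (denJ h S r j s : ℝ) ≤ Real.exp (τ * s + r * j * Y) := by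
  classical
  have h0 : (0 : ℝ) < denJ h S r j s := by
    exact_mod_cast Nat.pos_of_ne_zero (denJ_ne_zero h S r j s)
  rw [← Real.log_le_iff_le_exp h0]
  refine (log_denJ_le h S r hB j s).trans ?_
  have e : (r * j * Real.log s) *
      ((Finset.range (s + 1)).filter fun p => p.Prime ∧ p ∈ S).card =
      r * j * ((cnt S s : ℝ) * Real.log s) := by
    unfold cnt
    ring
  have h2 : (r : ℝ) * j * ((cnt S s : ℝ) * Real.log s) ≤ r * j * Y := by gcongr
  linarith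

/-- **positive lower density, effective form** -/
theorem lower {c : ℂ} {q₁ : Polynomial ℤ} {β : ℝ} (hC : Curve c q₁ β) {τ : ℝ} (hτ0 : 0 ≤ τ)
    (hτ : τ < β) (r n : ℕ) :
    ∃ N : ℕ, ∃ δ : ℝ, 0 < δ ∧ ∀ (ι : Type) [Fintype ι] [DecidableEq ι], Fintype.card ι = n →
      ∀ (k a : ℕ), ∃ K : ℕ,
      ∀ (H : ℕ) (A : Matrix ι ι (Polynomial ℤ)), (∀ i j, (A i j).natDegree ≤ a) →
        (∀ i j l, |(A i j).coeff l| ≤ (H : ℤ)) →
        ∀ x : ℕ, K * (H + 1) ≤ x → ∀ h : ℕ → ℕ, Bud h τ → ∀ S : Set ℕ,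
        (∀ p : ℕ, p.Prime → p ≤ x → p ∉ S → Level (q₁ ^ k) A p (h p)) →
        (∀ p : ℕ, p.Prime → p ≤ x → p ∈ S → LogGr (q₁ ^ k) A p r) →
        (cnt S x : ℝ) * Real.log x ≤ δ * x →
        ∃ L : IntermediateField (RatFunc ℂ) (LaurentSeries ℂ), FiniteDimensional (RatFunc ℂ) L ∧
          Module.finrank (RatFunc ℂ) L ≤ N ∧
          ∀ y : ι → ℂ⟦X⟧,
            (∀ i, sh c (q₁ ^ k) * d⁄dX ℂ (y i) = ∑ j, sh c (A i j) * y j) →
            ∀ i, toL (y i) ∈ L := by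
  obtain ⟨T', hT1, hT2⟩ := exists_between hτ
  have hT0 : 0 ≤ T' := hτ0.trans hT1.le
  obtain ⟨E, hE1, hE2, hE3, hE4, hE5⟩ := hC T' hT0 hT2
  obtain ⟨m, K₀, N₁, hm, hN₁, hK₀, hmain⟩ := effD E hT0 hE1
  set Mb := (n * n + 1) ^ m with hMb
  have hMb1 : 1 ≤ Mb := Nat.one_le_pow _ _ (by omega)
  set Ac := Mb * K₀ with hAc
  have hAc1 : 1 ≤ Ac := Nat.mul_pos hMb1 hK₀
  have hAcr : (1 : ℝ) ≤ Ac := by exact_mod_cast hAc1
  have hN₁r : (1 : ℝ) ≤ N₁ := by exact_mod_cast hN₁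
  have hsl : 0 < T' - τ := by linarith
  set δ : ℝ := (T' - τ) * N₁ / (3 * Ac * (r * m + 1)) with hδ
  have hδ0 : 0 < δ := by positivity
  refine ⟨m, δ, hδ0, fun ι _ _ hι k a => ?_⟩
  obtain ⟨K, hK⟩ := hmain c hE2 q₁ hE3 hE4 hE5 ι k a
  rw [hι] at hK
  set a' := max a (q₁ ^ k).natDegree with ha'
  set c₀ := Mb * Mb * a' + Mb with hc₀
  refine ⟨c₀ + Ac * (c₀ + K + 1), fun H A hAd hAH x hx h hB S hlev hlog hcnt => ?_⟩
  -- the choice of `w`
  set v := (x - c₀) / Ac with hv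
  have hx1 : c₀ + Ac * (c₀ + K * (H + 1) + 1) ≤ x := by
    refine le_trans ?_ hx
    have e : (c₀ + Ac * (c₀ + K + 1)) * (H + 1) = c₀ + Ac * (c₀ + K * (H + 1) + 1) +
        (c₀ * H + Ac * (c₀ * H + H)) := by ring
    rw [e]
    exact Nat.le_add_right _ _
  have hv1 : c₀ + K * (H + 1) + 1 ≤ v := by
    rw [hv, Nat.le_div_iff_mul_le hAc1, Nat.mul_comm]
    exact Nat.le_sub_of_add_le (by omega)
  obtain ⟨w, hw⟩ : ∃ w, v = w + 1 := ⟨v - 1, by omega⟩
  have hv2 : Ac * v ≤ x - c₀ := by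
    rw [hv, Nat.mul_comm]; exact Nat.div_mul_le_self _ _
  have hv3 : x - c₀ < Ac * (v + 1) := by
    rw [hv]
    exact Nat.lt_mul_div_succ _ hAc1
  have hcx : c₀ ≤ x := le_trans (Nat.le_add_right _ _) hx1
  have hord : ord n m K₀ a' w ≤ x := by
    have e : ord n m K₀ a' w = Ac * (w + 1) + c₀ := by
      unfold ord
      rw [← hMb, hAc, hc₀]; ring
    rw [e, ← hw]
    omega
  have hx3 : x ≤ 3 * Ac * (w + 1) := by
    rw [← hw]
    have h1 : c₀ ≤ Ac * v := le_trans (by omega : c₀ ≤ v) (Nat.le_mul_of_pos_left _ hAc1)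
    have h2 : Ac * (v + 1) = Ac * v + Ac := by ring
    have h3 : Ac ≤ Ac * v := Nat.le_mul_of_pos_right _ (by omega)
    have h4 : 3 * Ac * v = Ac * v + Ac * v + Ac * v := by ring
    omega
  refine hK H A hAd hAH w (by omega) h S r (fun p hp hpT hpS => hlev p hp (hpT.trans hord) hpS)
    (fun p hp hpT hpS => hlog p hp (hpT.trans hord) hpS) fun s hs => ?_
  have hsx : s ≤ x := hs.trans hord
  have hxpos : 0 < x := by omega
  have hcs : (cnt S s : ℝ) * Real.log s ≤ δ * x := by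
    refine le_trans ?_ hcnt
    rcases Nat.eq_zero_or_pos s with h0 | h0
    · subst h0
      have : 0 ≤ Real.log x := Real.log_natCast_nonneg x
      simp only [Nat.cast_zero, Real.log_zero, mul_zero]
      positivity
    · have h1 : Real.log s ≤ Real.log x := Real.log_le_log (by exact_mod_cast h0) (by exact_mod_cast hsx)
      have h2 : (cnt S s : ℝ) ≤ cnt S x := by exact_mod_cast cnt_mono S hsx
      have h3 : 0 ≤ Real.log s := Real.log_natCast_nonneg s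
      gcongr
  refine (denJ_bound hB S r m s hcs).trans (Real.exp_le_exp.2 ?_)
  have hxr : (x : ℝ) ≤ 3 * Ac * (w + 1) := by exact_mod_cast hx3
  have h1 : (r : ℝ) * m * (δ * x) ≤ (T' - τ) * (N₁ * (w + 1)) := by
    have h2 : (r : ℝ) * m * (δ * x) ≤ (r * m + 1) * (δ * (3 * Ac * (w + 1))) := by
      have : (0 : ℝ) ≤ r * m := by positivity
      gcongr
      linarith
    refine h2.trans (le_of_eq ?_)
    rw [hδ]
    have : (r : ℝ) * m + 1 ≠ 0 := by positivity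
    field_simp
  have h2 : (s : ℝ) ≤ ((max s (N₁ * (w + 1)) : ℕ) : ℝ) := by exact_mod_cast le_max_left _ _
  have h3 : (N₁ : ℝ) * (w + 1) ≤ ((max s (N₁ * (w + 1)) : ℕ) : ℝ) := by
    exact_mod_cast le_max_right s (N₁ * (w + 1))
  calc τ * s + r * m * (δ * x) ≤ τ * ((max s (N₁ * (w + 1)) : ℕ) : ℝ) +
        (T' - τ) * ((max s (N₁ * (w + 1)) : ℕ) : ℝ) := by
        refine add_le_add (by gcongr) (h1.trans (by gcongr))
    _ = _ := by ring

/-- **positive upper density, uniform in the rank** -/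
theorem upper {c : ℂ} {q₁ : Polynomial ℤ} {β : ℝ} (hC : Curve c q₁ β) {τ : ℝ} (hτ0 : 0 ≤ τ)
    (hτ : τ < β) (r : ℕ) :
    ∃ N : ℕ, ∃ δ : ℝ, 0 < δ ∧ ∀ (ι : Type) [Fintype ι] [DecidableEq ι] (k : ℕ)
      (A : Matrix ι ι (Polynomial ℤ)) (h : ℕ → ℕ), Bud h τ → ∀ S : Set ℕ,
        (∀ p : ℕ, p.Prime → p ∉ S → Level (q₁ ^ k) A p (h p)) →
        (∀ p : ℕ, p.Prime → p ∈ S → LogGr (q₁ ^ k) A p r) →
        (∃ x₀ : ℕ, ∀ x ≥ x₀, (cnt S x : ℝ) * Real.log x ≤ δ * x) →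
        ∃ L : IntermediateField (RatFunc ℂ) (LaurentSeries ℂ), FiniteDimensional (RatFunc ℂ) L ∧
          Module.finrank (RatFunc ℂ) L ≤ N ∧
          ∀ y : ι → ℂ⟦X⟧,
            (∀ i, sh c (q₁ ^ k) * d⁄dX ℂ (y i) = ∑ j, sh c (A i j) * y j) →
            ∀ i, toL (y i) ∈ L := by
  obtain ⟨T', hT1, hT2⟩ := exists_between hτ
  have hT0 : 0 ≤ T' := hτ0.trans hT1.le
  obtain ⟨E, hE1, hE2, hE3, hE4, hE5⟩ := hC T' hT0 hT2
  obtain ⟨m, K₀, N₁, hm, hN₁, hK₀, hmain⟩ := effD E hT0 hE1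
  have hN₁r : (1 : ℝ) ≤ N₁ := by exact_mod_cast hN₁
  have hsl : 0 < T' - τ := by linarith
  set δ : ℝ := (T' - τ) / (r * m + 1) with hδ
  have hδ0 : 0 < δ := by positivity
  refine ⟨m, δ, hδ0, fun ι _ _ k A h hB S hlev hlog ⟨x₀, hx₀⟩ => ?_⟩
  -- degrees and coefficients
  obtain ⟨a, ha⟩ : ∃ a : ℕ, ∀ i j, (A i j).natDegree ≤ a := by
    refine ⟨∑ i, ∑ j, (A i j).natDegree, fun i j => ?_⟩
    exact (Finset.single_le_sum (f := fun j => (A i j).natDegree) (fun _ _ => Nat.zero_le _)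
      (Finset.mem_univ j)).trans (Finset.single_le_sum (f := fun i => ∑ j, (A i j).natDegree)
        (fun _ _ => Nat.zero_le _) (Finset.mem_univ i))
  obtain ⟨H, hH⟩ : ∃ H : ℕ, ∀ i j l, |(A i j).coeff l| ≤ (H : ℤ) := by
    refine ⟨∑ i, ∑ j, ∑ l ∈ Finset.range (a + 1), ((A i j).coeff l).natAbs, fun i j l => ?_⟩
    rcases Nat.lt_or_ge l (a + 1) with hl | hl
    · have h1 : ((A i j).coeff l).natAbs ≤ ∑ i, ∑ j, ∑ l ∈ Finset.range (a + 1),
          ((A i j).coeff l).natAbs := by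
        calc ((A i j).coeff l).natAbs ≤ ∑ l ∈ Finset.range (a + 1), ((A i j).coeff l).natAbs :=
              Finset.single_le_sum (f := fun l => ((A i j).coeff l).natAbs)
                (fun _ _ => Nat.zero_le _) (Finset.mem_range.2 hl)
          _ ≤ ∑ j, ∑ l ∈ Finset.range (a + 1), ((A i j).coeff l).natAbs :=
              Finset.single_le_sum (f := fun j => ∑ l ∈ Finset.range (a + 1),
                ((A i j).coeff l).natAbs) (fun _ _ => Nat.zero_le _) (Finset.mem_univ j)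
          _ ≤ _ := Finset.single_le_sum (f := fun i => ∑ j, ∑ l ∈ Finset.range (a + 1),
                ((A i j).coeff l).natAbs) (fun _ _ => Nat.zero_le _) (Finset.mem_univ i)
      rw [← Int.natCast_natAbs]
      exact_mod_cast h1
    · rw [Polynomial.coeff_eq_zero_of_natDegree_lt (by have := ha i j; omega), abs_zero]
      exact Int.natCast_nonneg _
  obtain ⟨K, hK⟩ := hmain c hE2 q₁ hE3 hE4 hE5 ι k a
  refine hK H A ha hH (K * (H + 1) + x₀) (Nat.le_add_right _ _) h S r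
    (fun p hp _ hpS => hlev p hp hpS) (fun p hp _ hpS => hlog p hp hpS) fun s _ => ?_
  set w := K * (H + 1) + x₀ with hw
  have key : ∀ t : ℕ, x₀ ≤ t → (denJ h S r m t : ℝ) ≤ Real.exp (T' * t) := by
    intro t ht
    refine (denJ_bound hB S r m t (hx₀ t ht)).trans (Real.exp_le_exp.2 ?_)
    have h1 : (r : ℝ) * m * (δ * t) ≤ (T' - τ) * t := by
      have h2 : (r : ℝ) * m * (δ * t) ≤ (r * m + 1) * (δ * t) := by
        gcongr
        linarith
      refine h2.trans (le_of_eq ?_)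
      rw [hδ]
      have : (r : ℝ) * m + 1 ≠ 0 := by positivity
      field_simp
    calc τ * t + r * m * (δ * t) ≤ τ * t + (T' - τ) * t := by linarith
      _ = _ := by ring
  rcases Nat.lt_or_ge s x₀ with hs | hs
  · have h1 : (denJ h S r m s : ℝ) ≤ denJ h S r m x₀ := by
      exact_mod_cast Nat.le_of_dvd (Nat.pos_of_ne_zero (denJ_ne_zero h S r m x₀))
        (denJ_mono h S r m hs.le)
    refine (h1.trans (key x₀ le_rfl)).trans (Real.exp_le_exp.2 ?_)
    have h2 : (x₀ : ℝ) ≤ ((max s (N₁ * (w + 1)) : ℕ) : ℝ) := by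
      have h3 : x₀ ≤ N₁ * (w + 1) := by
        calc x₀ ≤ 1 * (w + 1) := by omega
          _ ≤ N₁ * (w + 1) := Nat.mul_le_mul_right _ hN₁
      exact_mod_cast h3.trans (le_max_right _ _)
    gcongr
  · refine (key s hs).trans (Real.exp_le_exp.2 ?_)
    have h2 : (s : ℝ) ≤ ((max s (N₁ * (w + 1)) : ℕ) : ℝ) := by exact_mod_cast le_max_left _ _
    gcongr

end Pool.Agent.Run7.h143.PC
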