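import Mathlib

set_option autoImplicit false

/-!
The inductive step of the Dwork-Robba theorem on effective bounds, in abstract form: a field with a
non-archimedean valuation and divided derivatives which are bounded by `B^s`, and a norm on a space of row
vectors for which the first derivative is bounded by `B`.
-/

namespace Pool.Agent.Run7.h143.PC.DR

open PowerSeries
open scoped NNReal

variable {F : Type*} [Field F] {ι : Type*}

/-- the divided derivatives of a row vector -/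
noncomputable def Ds (T : F →+* F⟦X⟧) (s : ℕ) (w : ι → F) : ι → F := fun i => coeff s (T (w i))

theorem Ds_add (T : F →+* F⟦X⟧) (s : ℕ) (w w' : ι → F) : Ds T s (w + w') = Ds T s w + Ds T s w' := by
  funext i
  simp [Ds]

theorem Ds_zero (T : F →+* F⟦X⟧) (s : ℕ) : Ds T s (0 : ι → F) = 0 := by
  funext i
  simp [Ds]

theorem Ds_smul (T : F →+* F⟦X⟧) (s : ℕ) (c : F) (w : ι → F) :
    Ds T s (c • w) = ∑ ab ∈ Finset.HasAntidiagonal.antidiagonal s, coeff ab.1 (T c) • Ds T ab.2 w := by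
  funext i
  simp only [Ds, Pi.smul_apply, smul_eq_mul, map_mul, coeff_mul, Finset.sum_apply]

theorem Ds_succ (T : F →+* F⟦X⟧) (Td : ∀ f, d⁄dX F (T f) = T (coeff 1 (T f))) (s : ℕ)
    (w : ι → F) : ((s + 1 : ℕ) : F) • Ds T (s + 1) w = Ds T s (Ds T 1 w) := by
  funext i
  have h := congrArg (coeff s) (Td (w i))
  rw [coeff_derivative] at h
  simp only [Ds, Pi.smul_apply, smul_eq_mul]
  rw [← h]
  push_cast
  ring

theorem le_of_theta {x y : ℝ≥0} (h : ∀ θ : ℝ≥0, 1 < θ → x ≤ θ * y) : x ≤ y := by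
  rcases eq_or_ne y 0 with hy | hy
  · have := h 2 (by norm_num)
    rw [hy, mul_zero] at this
    rw [hy]; exact this
  by_contra hcon
  push Not at hcon
  have hy0 : 0 < y := pos_iff_ne_zero.2 hy
  obtain ⟨z, hz1, hz2⟩ := exists_between hcon
  have h1 : 1 < z / y := by rwa [one_lt_div hy0]
  have h2 := h _ h1
  rw [div_mul_cancel₀ _ hy] at h2
  exact absurd hz2 (not_lt.2 h2)

section

variable [Fintype ι] [DecidableEq ι] (v : Valuation F ℝ≥0)
  {N : (ι → F) → ℝ≥0} (hN0 : N 0 = 0) (hNadd : ∀ w w', N (w + w') ≤ max (N w) (N w'))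
  (hNsmul : ∀ (c : F) w, N (c • w) = v c * N w) {Cst : ℝ≥0} (hNC : ∀ w i, v (w i) ≤ Cst * N w)

include hN0 hNadd in
theorem N_sum {α : Type*} (t : Finset α) (f : α → ι → F) {c : ℝ≥0} (h : ∀ a ∈ t, N (f a) ≤ c) :
    N (∑ a ∈ t, f a) ≤ c := by
  classical
  induction t using Finset.induction_on with
  | empty => rw [Finset.sum_empty, hN0]; exact zero_le
  | insert a t ha ih =>
    rw [Finset.sum_insert ha]
    refine (hNadd _ _).trans (max_le (h a (Finset.mem_insert_self _ _)) ?_)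
    exact ih fun b hb => h b (Finset.mem_insert_of_mem hb)

include hNsmul hNC in
/-- a nearly optimal vector -/
theorem exists_near (S : Finset ι) {i₀ : ι} (hi : i₀ ∉ S) {θ : ℝ≥0} (hθ : 1 < θ) :
    ∃ w₀ : ι → F, (∀ i ∈ S, w₀ i = 0) ∧ w₀ i₀ = 1 ∧
      ∀ w : ι → F, (∀ i ∈ S, w i = 0) → v (w i₀) * N w₀ ≤ θ * N w := by
  set Y : Set ℝ≥0 := {t | ∃ w : ι → F, (∀ i ∈ S, w i = 0) ∧ w i₀ = 1 ∧ N w = t} with hY
  have hne : Y.Nonempty := by
    refine ⟨_, Pi.single i₀ 1, fun i hiS => ?_, by simp, rfl⟩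
    rw [Pi.single_apply, if_neg]
    rintro rfl
    exact hi hiS
  have hlow : ∀ t ∈ Y, 1 ≤ Cst * t := by
    rintro t ⟨w, _, hw, rfl⟩
    have := hNC w i₀
    rwa [hw, map_one] at this
  have hC0 : 0 < Cst := by
    obtain ⟨t, ht⟩ := hne
    have := hlow t ht
    rw [pos_iff_ne_zero]
    rintro rfl
    rw [zero_mul] at this
    exact absurd this (by norm_num)
  set μ := sInf Y with hμ
  have hμ0 : Cst⁻¹ ≤ μ := by
    refine le_csInf hne fun t ht => ?_
    rw [inv_le_iff_one_le_mul₀' hC0]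
    exact hlow t ht
  have hμpos : 0 < μ := lt_of_lt_of_le (inv_pos.2 hC0) hμ0
  have hlt : μ < θ * μ := by
    calc μ = 1 * μ := (one_mul μ).symm
      _ < θ * μ := by gcongr
  obtain ⟨t, ⟨w₀, h1, h2, rfl⟩, h4⟩ := exists_lt_of_csInf_lt hne hlt
  refine ⟨w₀, h1, h2, fun w hw => ?_⟩
  rcases eq_or_ne (w i₀) 0 with h0 | h0
  · rw [h0, map_zero, zero_mul]; exact zero_le
  have hv0 : v (w i₀) ≠ 0 := (Valuation.ne_zero_iff v).2 h0
  have h5 : N ((w i₀)⁻¹ • w) ∈ Y := by
    refine ⟨_, fun i hiS => ?_, ?_, rfl⟩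
    · rw [Pi.smul_apply, hw i hiS, smul_zero]
    · rw [Pi.smul_apply, smul_eq_mul, inv_mul_cancel₀ h0]
  have h6 : μ ≤ N ((w i₀)⁻¹ • w) := csInf_le (OrderBot.bddBelow _) h5
  rw [hNsmul, map_inv₀] at h6
  have h7 : v (w i₀) * μ ≤ N w := by
    calc v (w i₀) * μ ≤ v (w i₀) * ((v (w i₀))⁻¹ * N w) := by gcongr
      _ = N w := by rw [← mul_assoc, mul_inv_cancel₀ hv0, one_mul]
  calc v (w i₀) * N w₀ ≤ v (w i₀) * (θ * μ) := by gcongr
    _ = θ * (v (w i₀) * μ) := by ring
    _ ≤ θ * N w := by gcongr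

include hN0 hNadd hNsmul hNC in
/-- the abstract form of the theorem -/
theorem abstract_bound [CharZero F] (T : F →+* F⟦X⟧) (T0 : ∀ f, coeff 0 (T f) = f)
    (Td : ∀ f, d⁄dX F (T f) = T (coeff 1 (T f))) {B : ℝ≥0} (hB : 1 ≤ B)
    (Tv : ∀ f s, v (coeff s (T f)) ≤ B ^ s * v f) {Lb : ℕ → ℝ≥0} (hL1 : ∀ s, 1 ≤ Lb s)
    (hLm : Monotone Lb) (hL : ∀ s : ℕ, (v ((s + 1 : ℕ) : F))⁻¹ ≤ Lb (s + 1))
    (hND : ∀ w, N (Ds T 1 w) ≤ B * N w) :
    ∀ (m : ℕ) (S : Finset ι), Sᶜ.card = m → ∀ w : ι → F, (∀ i ∈ S, w i = 0) → ∀ s,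
      N (Ds T s w) ≤ Lb s ^ (m - 1) * B ^ s * N w := by
  intro m
  induction m with
  | zero =>
    intro S hS w hw s
    have hall : ∀ i, i ∈ S := by
      intro i
      by_contra h
      have h1 : i ∈ Sᶜ := Finset.mem_compl.2 h
      rw [Finset.card_eq_zero] at hS
      rw [hS] at h1
      exact absurd h1 (Finset.notMem_empty i)
    have h0 : w = 0 := funext fun i => hw i (hall i)
    rw [h0, Ds_zero, hN0]
    exact zero_le
  | succ m ih =>
    intro S hS w hw s
    obtain ⟨i₀, hi₀⟩ : ∃ i₀, i₀ ∈ Sᶜ := by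
      have : Sᶜ.Nonempty := by rw [← Finset.card_pos, hS]; omega
      exact this
    have hiS : i₀ ∉ S := Finset.mem_compl.1 hi₀
    have hS' : (insert i₀ S)ᶜ.card = m := by
      rw [Finset.compl_insert, Finset.card_erase_of_mem hi₀, hS]; omega
    rw [Nat.add_sub_cancel]
    refine le_of_theta fun θ hθ => ?_
    obtain ⟨w₀, h1, h2, h3⟩ := exists_near v hNsmul hNC S hiS hθ
    -- the derivatives of `w₀`
    have hD1 : ∀ i ∈ insert i₀ S, Ds T 1 w₀ i = 0 := by
      intro i hi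
      rw [Finset.mem_insert] at hi
      rcases hi with rfl | hi
      · simp [Ds, h2, coeff_one]
      · simp [Ds, h1 i hi]
    have hb : ∀ b, N (Ds T b w₀) ≤ Lb b ^ m * B ^ b * N w₀ := by
      intro b
      cases b with
      | zero =>
        have e : Ds T 0 w₀ = w₀ := funext fun i => T0 _
        rw [e, pow_zero, mul_one]
        calc N w₀ = 1 * N w₀ := (one_mul _).symm
          _ ≤ Lb 0 ^ m * N w₀ := by
              have := one_le_pow₀ (hL1 0) (n := m)
              gcongr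
      | succ b =>
        have hb0 : ((b + 1 : ℕ) : F) ≠ 0 := by exact_mod_cast Nat.succ_ne_zero b
        have e1 : Ds T (b + 1) w₀ = ((b + 1 : ℕ) : F)⁻¹ • Ds T b (Ds T 1 w₀) := by
          rw [← Ds_succ T Td b w₀, smul_smul, inv_mul_cancel₀ hb0, one_smul]
        rw [e1, hNsmul, map_inv₀]
        rcases Nat.eq_zero_or_pos m with hm | hm
        · have hz : Ds T 1 w₀ = 0 := by
            funext i
            refine hD1 i ?_
            by_contra h
            have h5 : i ∈ (insert i₀ S)ᶜ := Finset.mem_compl.2 h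
            rw [hm, Finset.card_eq_zero] at hS'
            rw [hS'] at h5
            exact absurd h5 (Finset.notMem_empty i)
          rw [hz, Ds_zero, hN0, mul_zero]
          exact zero_le
        · have h4 := ih (insert i₀ S) hS' (Ds T 1 w₀) hD1 b
          have h5 := hND w₀
          have h6 := hL b
          have h7 : Lb b ≤ Lb (b + 1) := hLm (Nat.le_succ b)
          obtain ⟨m', rfl⟩ : ∃ m', m = m' + 1 := ⟨m - 1, by omega⟩
          rw [Nat.add_sub_cancel] at h4
          calc (v ((b + 1 : ℕ) : F))⁻¹ * N (Ds T b (Ds T 1 w₀))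
              ≤ Lb (b + 1) * (Lb (b + 1) ^ m' * B ^ b * (B * N w₀)) := by
                refine mul_le_mul' h6 (h4.trans ?_)
                gcongr
            _ = Lb (b + 1) ^ (m' + 1) * B ^ (b + 1) * N w₀ := by ring
    -- the decomposition
    set w' : ι → F := w - w i₀ • w₀ with hw'
    have hw'0 : ∀ i ∈ insert i₀ S, w' i = 0 := by
      intro i hi
      rw [Finset.mem_insert] at hi
      rcases hi with rfl | hi
      · simp [hw', h2]
      · simp [hw', h1 i hi, hw i hi]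
    have hNw0 : N (w i₀ • w₀) ≤ θ * N w := by
      rw [hNsmul]; exact h3 w hw
    have hNw' : N w' ≤ θ * N w := by
      have e : w' = w + (-1 : F) • (w i₀ • w₀) := by
        rw [hw', neg_one_smul, sub_eq_add_neg]
      rw [e]
      refine (hNadd _ _).trans (max_le ?_ ?_)
      · calc N w = 1 * N w := (one_mul _).symm
          _ ≤ θ * N w := by gcongr
      · rw [hNsmul, Valuation.map_neg, map_one, one_mul]; exact hNw0
    have e : w = w i₀ • w₀ + w' := by rw [hw']; abel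
    have e2 : Ds T s w = Ds T s (w i₀ • w₀) + Ds T s w' := by
      conv_lhs => rw [e]
      exact Ds_add T s _ _
    rw [e2]
    refine (hNadd _ _).trans (max_le ?_ ?_)
    · rw [Ds_smul]
      refine N_sum hN0 hNadd _ _ fun ab hab => ?_
      rw [Finset.HasAntidiagonal.mem_antidiagonal] at hab
      rw [hNsmul]
      have h4 := Tv (w i₀) ab.1
      have h5 := hb ab.2
      have h6 : Lb ab.2 ≤ Lb s := hLm (by omega)
      calc v (coeff ab.1 (T (w i₀))) * N (Ds T ab.2 w₀)
          ≤ (B ^ ab.1 * v (w i₀)) * (Lb ab.2 ^ m * B ^ ab.2 * N w₀) := mul_le_mul' h4 h5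
        _ ≤ (B ^ ab.1 * v (w i₀)) * (Lb s ^ m * B ^ ab.2 * N w₀) := by gcongr
        _ = Lb s ^ m * B ^ (ab.1 + ab.2) * (v (w i₀) * N w₀) := by ring
        _ ≤ Lb s ^ m * B ^ (ab.1 + ab.2) * (θ * N w) := by
            have := h3 w hw
            gcongr
        _ = θ * (Lb s ^ m * B ^ s * N w) := by rw [hab]; ring
    · have h4 := ih (insert i₀ S) hS' w' hw'0 s
      have h5 : Lb s ^ (m - 1) ≤ Lb s ^ m := pow_le_pow_right₀ (hL1 s) (by omega)
      calc N (Ds T s w') ≤ Lb s ^ (m - 1) * B ^ s * N w' := h4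
        _ ≤ Lb s ^ m * B ^ s * (θ * N w) := by gcongr
        _ = _ := by ring

end

end Pool.Agent.Run7.h143.PC.DR
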