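import Mathlib

set_option autoImplicit false

/-!
Power series over a valued field which converge for the radius `ρ`, their Gauss valuation, and divided derivatives.
-/

namespace Pool.Agent.Run7.h143.PC.DR

open PowerSeries
open scoped NNReal

variable {K : Type*} [Field K] (v : Valuation K ℝ≥0) (ρ : ℝ≥0)

/-- the size of the term of order `s` -/
noncomputable def tm (f : K⟦X⟧) (s : ℕ) : ℝ≥0 := v (coeff s f) * ρ ^ s

/-- the terms tend to zero -/
def Tz (f : K⟦X⟧) : Prop := ∀ ε : ℝ≥0, 0 < ε → ∃ M : ℕ, ∀ s, M ≤ s → tm v ρ f s ≤ ε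

variable {v ρ}

theorem tm_mul_le {f g : K⟦X⟧} {s : ℕ} {c : ℝ≥0}
    (h : ∀ i j, i + j = s → tm v ρ f i * tm v ρ g j ≤ c) : tm v ρ (f * g) s ≤ c := by
  unfold tm
  rcases eq_or_ne (ρ ^ s) 0 with h0 | h0
  · rw [h0, mul_zero]; exact zero_le
  rw [← le_div_iff₀ (pos_iff_ne_zero.2 h0), coeff_mul]
  refine v.map_sum_le fun p hp => ?_
  rw [Finset.HasAntidiagonal.mem_antidiagonal] at hp
  rw [le_div_iff₀ (pos_iff_ne_zero.2 h0), map_mul]
  refine le_trans (le_of_eq ?_) (h p.1 p.2 hp)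
  unfold tm
  rw [← hp, pow_add]; ring

theorem tm_add_le {f g : K⟦X⟧} {s : ℕ} {c : ℝ≥0} (hf : tm v ρ f s ≤ c) (hg : tm v ρ g s ≤ c) :
    tm v ρ (f + g) s ≤ c := by
  unfold tm at *
  rw [map_add]
  calc v (coeff s f + coeff s g) * ρ ^ s ≤ max (v (coeff s f)) (v (coeff s g)) * ρ ^ s := by
        have := v.map_add (coeff s f) (coeff s g)
        gcongr
    _ = max (v (coeff s f) * ρ ^ s) (v (coeff s g) * ρ ^ s) := max_mul_of_nonneg _ _ zero_le
    _ ≤ c := max_le hf hg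

theorem tm_neg (f : K⟦X⟧) (s : ℕ) : tm v ρ (-f) s = tm v ρ f s := by
  rw [tm, tm, map_neg, Valuation.map_neg]

theorem Tz.bdd {f : K⟦X⟧} (hf : Tz v ρ f) : ∃ A : ℝ≥0, 0 < A ∧ ∀ s, tm v ρ f s ≤ A := by
  obtain ⟨M, hM⟩ := hf 1 one_pos
  refine ⟨1 + ∑ s ∈ Finset.range M, tm v ρ f s, by positivity, fun s => ?_⟩
  rcases Nat.lt_or_ge s M with h | h
  · refine le_trans ?_ le_add_self
    exact Finset.single_le_sum (f := fun s => tm v ρ f s) (fun _ _ => zero_le)
      (Finset.mem_range.2 h)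
  · exact (hM s h).trans le_self_add

theorem Tz.mul {f g : K⟦X⟧} (hf : Tz v ρ f) (hg : Tz v ρ g) : Tz v ρ (f * g) := by
  obtain ⟨A, hA0, hA⟩ := hf.bdd
  obtain ⟨B, hB0, hB⟩ := hg.bdd
  intro ε hε
  obtain ⟨M₁, hM₁⟩ := hf (ε / B) (by positivity)
  obtain ⟨M₂, hM₂⟩ := hg (ε / A) (by positivity)
  refine ⟨M₁ + M₂, fun s hs => tm_mul_le fun i j hij => ?_⟩
  rcases Nat.lt_or_ge i M₁ with h | h
  · calc tm v ρ f i * tm v ρ g j ≤ A * (ε / A) := mul_le_mul' (hA i) (hM₂ j (by omega))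
      _ = ε := by field_simp
  · calc tm v ρ f i * tm v ρ g j ≤ (ε / B) * B := mul_le_mul' (hM₁ i h) (hB j)
      _ = ε := by field_simp

variable (v ρ)

/-- the ring of series which converge for the radius `ρ` -/
def Rst : Subring K⟦X⟧ where
  carrier := {f | Tz v ρ f}
  zero_mem' := fun ε _ => ⟨0, fun s _ => by simp [tm]⟩
  one_mem' := fun ε _ => ⟨1, fun s hs => by
    rw [tm, coeff_one, if_neg (by omega), map_zero, zero_mul]; exact zero_le⟩
  add_mem' := by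
    intro f g hf hg ε hε
    obtain ⟨M₁, hM₁⟩ := hf ε hε
    obtain ⟨M₂, hM₂⟩ := hg ε hε
    exact ⟨M₁ + M₂, fun s hs => tm_add_le (hM₁ s (by omega)) (hM₂ s (by omega))⟩
  neg_mem' := by
    intro f hf ε hε
    obtain ⟨M, hM⟩ := hf ε hε
    exact ⟨M, fun s hs => by rw [tm_neg]; exact hM s hs⟩
  mul_mem' := fun hf hg => Tz.mul hf hg

theorem mem_Rst {f : K⟦X⟧} : f ∈ Rst v ρ ↔ Tz v ρ f := Iff.rfl

/-- the Gauss norm -/
noncomputable def nf (f : K⟦X⟧) : ℝ≥0 := ⨆ s, tm v ρ f s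

variable {v ρ}

theorem le_nf {f : K⟦X⟧} (hf : Tz v ρ f) (s : ℕ) : tm v ρ f s ≤ nf v ρ f := by
  obtain ⟨A, _, hA⟩ := hf.bdd
  exact le_ciSup (f := fun s => tm v ρ f s) ⟨A, by rintro _ ⟨s, rfl⟩; exact hA s⟩ s

theorem nf_le {f : K⟦X⟧} {c : ℝ≥0} (h : ∀ s, tm v ρ f s ≤ c) : nf v ρ f ≤ c := ciSup_le h

/-- the supremum is attained -/
theorem nf_attained (hρ : 0 < ρ) {f : K⟦X⟧} (hf : Tz v ρ f) (h0 : f ≠ 0) :
    ∃ s, nf v ρ f = tm v ρ f s ∧ 0 < tm v ρ f s := by
  obtain ⟨s₀, hs₀⟩ : ∃ s, coeff s f ≠ 0 := by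
    by_contra hcon
    push Not at hcon
    exact h0 (PowerSeries.ext fun s => by rw [hcon s, map_zero])
  have hpos : 0 < tm v ρ f s₀ := by
    unfold tm
    exact mul_pos (pos_iff_ne_zero.2 ((Valuation.ne_zero_iff v).2 hs₀)) (pow_pos hρ _)
  obtain ⟨M, hM⟩ := hf (tm v ρ f s₀) hpos
  obtain ⟨s, _, hs⟩ := Finset.exists_max_image (Finset.range (M + s₀ + 1)) (fun s => tm v ρ f s)
    ⟨0, Finset.mem_range.2 (by omega)⟩
  have h1 : ∀ t, tm v ρ f t ≤ tm v ρ f s := by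
    intro t
    rcases Nat.lt_or_ge t (M + s₀ + 1) with h | h
    · exact hs t (Finset.mem_range.2 h)
    · exact (hM t (by omega)).trans (hs s₀ (Finset.mem_range.2 (by omega)))
  exact ⟨s, le_antisymm (nf_le h1) (le_nf hf s), lt_of_lt_of_le hpos (h1 s₀)⟩

theorem nf_mul (hρ : 0 < ρ) {f g : K⟦X⟧} (hf : Tz v ρ f) (hg : Tz v ρ g) :
    nf v ρ (f * g) = nf v ρ f * nf v ρ g := by
  classical
  have hz : nf v ρ (0 : K⟦X⟧) = 0 := le_antisymm (nf_le fun s => by simp [tm]) zero_le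
  rcases eq_or_ne f 0 with f0 | f0
  · rw [f0, zero_mul, hz, zero_mul]
  rcases eq_or_ne g 0 with g0 | g0
  · rw [g0, mul_zero, hz, mul_zero]
  refine le_antisymm (nf_le fun s => tm_mul_le fun i j _ => mul_le_mul' (le_nf hf i) (le_nf hg j)) ?_
  obtain ⟨i₁, hi₁, hi₁'⟩ := nf_attained hρ hf f0
  obtain ⟨j₁, hj₁, hj₁'⟩ := nf_attained hρ hg g0
  have hexi : ∃ i, nf v ρ f = tm v ρ f i := ⟨i₁, hi₁⟩
  have hexj : ∃ j, nf v ρ g = tm v ρ g j := ⟨j₁, hj₁⟩
  set i := Nat.find hexi with hi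
  set j := Nat.find hexj with hj
  have ei : nf v ρ f = tm v ρ f i := Nat.find_spec hexi
  have ej : nf v ρ g = tm v ρ g j := Nat.find_spec hexj
  have hfpos : 0 < tm v ρ f i := by rw [← ei, hi₁]; exact hi₁'
  have hgpos : 0 < tm v ρ g j := by rw [← ej, hj₁]; exact hj₁'
  have hli : ∀ k < i, tm v ρ f k < tm v ρ f i := fun k hk => by
    refine lt_of_le_of_ne (by rw [← ei]; exact le_nf hf k) fun h => ?_
    exact Nat.find_min hexi hk (by rw [ei, h])
  have hlj : ∀ k < j, tm v ρ g k < tm v ρ g j := fun k hk => by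
    refine lt_of_le_of_ne (by rw [← ej]; exact le_nf hg k) fun h => ?_
    exact Nat.find_min hexj hk (by rw [ej, h])
  have hρij : 0 < ρ ^ (i + j) := pow_pos hρ _
  have key : v (coeff (i + j) (f * g)) = v (coeff i f) * v (coeff j g) := by
    rw [coeff_mul, ← Finset.add_sum_erase _ _
      (show (i, j) ∈ Finset.HasAntidiagonal.antidiagonal (i + j) by
        rw [Finset.HasAntidiagonal.mem_antidiagonal])]
    have hmain : v (coeff i f * coeff j g) * ρ ^ (i + j) = tm v ρ f i * tm v ρ g j := by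
      unfold tm
      rw [map_mul, pow_add]; ring
    rw [← map_mul]
    refine Valuation.map_add_eq_of_lt_left _ ?_
    refine v.map_sum_lt ?_ fun p hp => ?_
    · intro h0
      rw [h0, zero_mul] at hmain
      exact absurd hmain.symm (mul_pos hfpos hgpos).ne'
    rw [Finset.mem_erase, Finset.HasAntidiagonal.mem_antidiagonal] at hp
    refine lt_of_mul_lt_mul_right (a := ρ ^ (i + j)) ?_ zero_le
    rw [hmain]
    have e : v (coeff p.1 f * coeff p.2 g) * ρ ^ (i + j) = tm v ρ f p.1 * tm v ρ g p.2 := by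
      unfold tm
      rw [map_mul, ← hp.2, pow_add]; ring
    rw [e]
    rcases Nat.lt_trichotomy p.1 i with h | h | h
    · calc tm v ρ f p.1 * tm v ρ g p.2 ≤ tm v ρ f p.1 * tm v ρ g j := by
            refine mul_le_mul' le_rfl ?_
            rw [← ej]; exact le_nf hg _
        _ < tm v ρ f i * tm v ρ g j := mul_lt_mul_of_pos_right (hli _ h) hgpos
    · exact absurd (Prod.ext h (by omega)) hp.1
    · calc tm v ρ f p.1 * tm v ρ g p.2 ≤ tm v ρ f i * tm v ρ g p.2 := by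
            refine mul_le_mul' ?_ le_rfl
            rw [← ei]; exact le_nf hf _
        _ < tm v ρ f i * tm v ρ g j := mul_lt_mul_of_pos_left (hlj _ (by omega)) hfpos
  calc nf v ρ f * nf v ρ g = tm v ρ f i * tm v ρ g j := by rw [ei, ej]
    _ = tm v ρ (f * g) (i + j) := by
        unfold tm
        rw [key, pow_add]; ring
    _ ≤ _ := le_nf (hf.mul hg) _

variable (v)

/-- the Gauss valuation -/
noncomputable def gv (hρ : 0 < ρ) : Valuation (Rst v ρ) ℝ≥0 where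
  toFun f := nf v ρ (f : K⟦X⟧)
  map_zero' := le_antisymm (nf_le fun s => by simp [tm]) zero_le
  map_one' := by
    refine le_antisymm (nf_le fun s => ?_) ?_
    · unfold tm
      rw [Subring.coe_one, coeff_one]
      split_ifs with h
      · rw [h]; simp
      · simp
    · have h := le_nf (v := v) (ρ := ρ) (f := 1) (Rst v ρ).one_mem 0
      rw [tm, coeff_one, if_pos rfl, map_one, pow_zero, mul_one] at h
      exact h
  map_mul' f g := nf_mul hρ f.2 g.2
  map_add_le_max' f g := nf_le fun s => tm_add_le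
    ((le_nf f.2 s).trans (le_max_left _ _)) ((le_nf g.2 s).trans (le_max_right _ _))

theorem gv_apply (hρ : 0 < ρ) (f : Rst v ρ) : gv v hρ f = nf v ρ (f : K⟦X⟧) := rfl

theorem gv_supp (hρ : 0 < ρ) : nonZeroDivisors (Rst v ρ) ≤ (gv v hρ).supp.primeCompl := by
  intro f hf
  have h0 : f ≠ 0 := nonZeroDivisors.ne_zero hf
  intro h
  rw [SetLike.mem_coe, Valuation.mem_supp_iff, gv_apply] at h
  have h1 : (f : K⟦X⟧) ≠ 0 := fun h => h0 (Subtype.ext h)
  obtain ⟨s, hs, hs'⟩ := nf_attained hρ f.2 h1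
  rw [h] at hs
  exact absurd hs.symm hs'.ne'

/-- the valuation of the field of fractions -/
noncomputable def fv (hρ : 0 < ρ) : Valuation (FractionRing (Rst v ρ)) ℝ≥0 :=
  (gv v hρ).extendToLocalization (gv_supp v hρ) (FractionRing (Rst v ρ))

theorem fv_alg (hρ : 0 < ρ) (f : Rst v ρ) :
    fv v hρ (algebraMap _ _ f) = nf v ρ (f : K⟦X⟧) := by
  unfold fv
  rw [Valuation.extendToLocalization_apply_map_apply, gv_apply]

end Pool.Agent.Run7.h143.PC.DR
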