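import Mathlib
import Pool.Agent.Run7.h143.PC.DR1
import Pool.Agent.Run7.h143.PC.DR2

set_option autoImplicit false

/-!
Divided derivatives on the field of fractions of the ring of convergent series.
-/

namespace Pool.Agent.Run7.h143.PC.DR

open PowerSeries
open scoped NNReal

variable {K : Type*} [Field K]

/-- the divided derivative -/
noncomputable def hd (s : ℕ) (f : K⟦X⟧) : K⟦X⟧ := mk fun k => ((k + s).choose s : K) * coeff (k + s) f

theorem coeff_hd (s k : ℕ) (f : K⟦X⟧) : coeff k (hd s f) = ((k + s).choose s : K) * coeff (k + s) f := by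
  rw [hd, coeff_mk]

theorem hd_zero (f : K⟦X⟧) : hd 0 f = f := by
  ext k
  rw [coeff_hd]; simp

theorem hd_add (s : ℕ) (f g : K⟦X⟧) : hd s (f + g) = hd s f + hd s g := by
  ext k
  rw [map_add, coeff_hd, coeff_hd, coeff_hd, map_add]; ring

theorem hd_one (f : K⟦X⟧) : hd 1 f = d⁄dX K f := by
  ext k
  rw [coeff_hd, coeff_derivative, Nat.choose_one_right]
  push_cast; ring

theorem hd_succ (s : ℕ) (f : K⟦X⟧) : ((s + 1 : ℕ) : K⟦X⟧) * hd (s + 1) f = hd s (d⁄dX K f) := by
  ext k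
  have e : ((s + 1 : ℕ) : K⟦X⟧) = C ((s + 1 : ℕ) : K) := by simp
  rw [e, coeff_C_mul, coeff_hd, coeff_hd, coeff_derivative]
  have h1 : (s + 1) * (k + (s + 1)).choose (s + 1) = (k + s + 1) * (k + s).choose s := by
    have := Nat.add_one_mul_choose_eq (k + s) s
    rw [← Nat.add_assoc, this]; ring
  have h2 : ((s + 1 : ℕ) : K) * ((k + (s + 1)).choose (s + 1) : K) =
      ((k + s : ℕ) + 1) * ((k + s).choose s : K) := by
    have := congrArg (fun n : ℕ => (n : K)) h1
    push_cast at this ⊢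
    exact this
  rw [← mul_assoc, h2, ← Nat.add_assoc]
  ring

theorem hd_mul [CharZero K] (s : ℕ) (f g : K⟦X⟧) :
    hd s (f * g) = ∑ p ∈ Finset.HasAntidiagonal.antidiagonal s, hd p.1 f * hd p.2 g := by
  induction s generalizing f g with
  | zero =>
    rw [Finset.Nat.antidiagonal_zero, Finset.sum_singleton, hd_zero, hd_zero, hd_zero]
  | succ s ih =>
    have hne : ((s + 1 : ℕ) : K⟦X⟧) ≠ 0 := by
      have e : ((s + 1 : ℕ) : K⟦X⟧) = C ((s + 1 : ℕ) : K) := by simp
      rw [e]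
      intro h
      have := congrArg (coeff 0) h
      rw [coeff_zero_C, map_zero] at this
      exact absurd this (by exact_mod_cast Nat.succ_ne_zero s)
    refine mul_left_cancel₀ hne ?_
    rw [hd_succ, Derivation.leibniz, smul_eq_mul, smul_eq_mul, hd_add, ih, ih, Finset.mul_sum]
    have e1 : ∑ p ∈ Finset.HasAntidiagonal.antidiagonal (s + 1),
        ((s + 1 : ℕ) : K⟦X⟧) * (hd p.1 f * hd p.2 g) =
        ∑ p ∈ Finset.HasAntidiagonal.antidiagonal (s + 1), ((p.1 : K⟦X⟧) * hd p.1 f) * hd p.2 g +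
        ∑ p ∈ Finset.HasAntidiagonal.antidiagonal (s + 1), hd p.1 f * ((p.2 : K⟦X⟧) * hd p.2 g) := by
      rw [← Finset.sum_add_distrib]
      refine Finset.sum_congr rfl fun p hp => ?_
      rw [Finset.HasAntidiagonal.mem_antidiagonal] at hp
      rw [← hp]; push_cast; ring
    rw [e1, Finset.Nat.sum_antidiagonal_succ, Finset.Nat.sum_antidiagonal_succ']
    simp only [Nat.cast_zero, zero_mul, mul_zero, zero_add]
    rw [add_comm]
    congr 1
    · rw [← Finset.Nat.sum_antidiagonal_swap]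
      refine Finset.sum_congr rfl fun p _ => ?_
      rw [Prod.fst_swap, Prod.snd_swap, hd_succ]; ring
    · refine Finset.sum_congr rfl fun p _ => ?_
      rw [hd_succ]

variable {v : Valuation K ℝ≥0} {ρ : ℝ≥0}

theorem v_nat_le (v : Valuation K ℝ≥0) (n : ℕ) : v (n : K) ≤ 1 := by
  induction n with
  | zero => rw [Nat.cast_zero, map_zero]; exact zero_le
  | succ n ih =>
    rw [Nat.cast_succ]
    exact v.map_add_le ih (by rw [map_one])

theorem tm_hd (hρ : 0 < ρ) (s : ℕ) (f : K⟦X⟧) (k : ℕ) :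
    tm v ρ (hd s f) k ≤ (ρ⁻¹) ^ s * tm v ρ f (k + s) := by
  unfold tm
  rw [coeff_hd, map_mul]
  have h1 := v_nat_le v ((k + s).choose s)
  calc v (((k + s).choose s : ℕ) : K) * v (coeff (k + s) f) * ρ ^ k
      ≤ 1 * v (coeff (k + s) f) * ρ ^ k := by gcongr
    _ = _ := by
        rw [pow_add, inv_pow]
        field_simp

theorem Tz.hd (hρ : 0 < ρ) {f : K⟦X⟧} (hf : Tz v ρ f) (s : ℕ) : Tz v ρ (hd s f) := by
  intro ε hε
  obtain ⟨M, hM⟩ := hf (ρ ^ s * ε) (by positivity)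
  refine ⟨M, fun k hk => (tm_hd hρ s f k).trans ?_⟩
  calc (ρ⁻¹) ^ s * tm v ρ f (k + s) ≤ (ρ⁻¹) ^ s * (ρ ^ s * ε) :=
        mul_le_mul' le_rfl (hM _ (by omega))
    _ = ε := by rw [inv_pow]; field_simp

theorem nf_hd (hρ : 0 < ρ) {f : K⟦X⟧} (hf : Tz v ρ f) (s : ℕ) :
    nf v ρ (hd s f) ≤ (ρ⁻¹) ^ s * nf v ρ f :=
  nf_le fun k => (tm_hd hρ s f k).trans (mul_le_mul' le_rfl (le_nf hf _))

variable (v)

/-- the Taylor homomorphism -/
noncomputable def T₁ [CharZero K] (hρ : 0 < ρ) : Rst v ρ →+* (Rst v ρ)⟦X⟧ where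
  toFun f := mk fun s => ⟨hd s (f : K⟦X⟧), Tz.hd hρ f.2 s⟩
  map_one' := by
    refine PowerSeries.ext fun s => Subtype.ext (PowerSeries.ext fun k => ?_)
    rw [coeff_mk, coeff_one]
    change coeff k (hd s (1 : K⟦X⟧)) = _
    rw [coeff_hd, coeff_one]
    rcases Nat.eq_zero_or_pos s with rfl | hs
    · rw [if_pos rfl, Subring.coe_one, coeff_one]; simp
    · rw [if_neg (by omega), if_neg (by omega)]; simp
  map_zero' := by
    refine PowerSeries.ext fun s => Subtype.ext (PowerSeries.ext fun k => ?_)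
    rw [coeff_mk, map_zero]
    change coeff k (hd s (0 : K⟦X⟧)) = coeff k (0 : K⟦X⟧)
    rw [coeff_hd]; simp
  map_add' f g := by
    refine PowerSeries.ext fun s => Subtype.ext ?_
    rw [map_add, coeff_mk, coeff_mk, coeff_mk]
    exact hd_add s _ _
  map_mul' f g := by
    ext s : 1
    rw [coeff_mk, coeff_mul]
    apply Subtype.ext
    rw [AddSubmonoidClass.coe_finsetSum]
    simp only [coeff_mk, Subring.coe_mul]
    exact hd_mul s _ _

theorem coeff_T₁ [CharZero K] (hρ : 0 < ρ) (f : Rst v ρ) (s : ℕ) :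
    ((coeff s (T₁ v hρ f) : Rst v ρ) : K⟦X⟧) = hd s (f : K⟦X⟧) := by
  change (((coeff s (mk fun s => (⟨hd s (f : K⟦X⟧), Tz.hd hρ f.2 s⟩ : Rst v ρ))) : Rst v ρ) : K⟦X⟧) = _
  rw [coeff_mk]

/-- the field -/
abbrev FF (ρ : ℝ≥0) := FractionRing (Rst v ρ)

/-- the Taylor homomorphism to the field -/
noncomputable def T₂ [CharZero K] (hρ : 0 < ρ) : Rst v ρ →+* (FF v ρ)⟦X⟧ :=
  (PowerSeries.map (algebraMap (Rst v ρ) (FF v ρ))).comp (T₁ v hρ)

theorem coeff_T₂ [CharZero K] (hρ : 0 < ρ) (f : Rst v ρ) (s : ℕ) :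
    coeff s (T₂ v hρ f) = algebraMap (Rst v ρ) (FF v ρ) (coeff s (T₁ v hρ f)) := by
  rw [T₂, RingHom.comp_apply, coeff_map]

theorem T₁_zero [CharZero K] (hρ : 0 < ρ) (f : Rst v ρ) : coeff 0 (T₁ v hρ f) = f := by
  apply Subtype.ext
  rw [coeff_T₁, hd_zero]

theorem T₂_unit [CharZero K] (hρ : 0 < ρ) (y : nonZeroDivisors (Rst v ρ)) :
    IsUnit (T₂ v hρ y) := by
  rw [PowerSeries.isUnit_iff_constantCoeff, ← coeff_zero_eq_constantCoeff_apply, coeff_T₂,
    T₁_zero, isUnit_iff_ne_zero]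
  exact IsFractionRing.to_map_ne_zero_of_mem_nonZeroDivisors y.2

/-- the Taylor homomorphism of the field -/
noncomputable def TF [CharZero K] (hρ : 0 < ρ) : FF v ρ →+* (FF v ρ)⟦X⟧ :=
  IsLocalization.lift (M := nonZeroDivisors (Rst v ρ)) (g := T₂ v hρ) (T₂_unit v hρ)

theorem TF_alg [CharZero K] (hρ : 0 < ρ) (f : Rst v ρ) :
    TF v hρ (algebraMap _ _ f) = T₂ v hρ f := by
  unfold TF
  rw [IsLocalization.lift_eq]

theorem TF_zero [CharZero K] (hρ : 0 < ρ) (f : FF v ρ) : coeff 0 (TF v hρ f) = f := by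
  have h : ((constantCoeff (R := FF v ρ)).comp (TF v hρ)) = RingHom.id _ := by
    refine IsLocalization.ringHom_ext (nonZeroDivisors (Rst v ρ)) ?_
    ext x
    rw [RingHom.comp_apply, RingHom.comp_apply, TF_alg, ← coeff_zero_eq_constantCoeff_apply,
      coeff_T₂, T₁_zero]
    rfl
  have h2 := congrArg (fun φ : FF v ρ →+* FF v ρ => φ f) h
  simp only [RingHom.comp_apply, RingHom.id_apply] at h2
  rw [coeff_zero_eq_constantCoeff_apply]
  exact h2

theorem exists_frac (f : FF v ρ) : ∃ a b : Rst v ρ, algebraMap _ (FF v ρ) b ≠ 0 ∧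
    f * algebraMap _ _ b = algebraMap _ _ a := by
  obtain ⟨a, b, hb, hab⟩ := IsFractionRing.div_surjective (A := Rst v ρ) f
  have h0 : algebraMap (Rst v ρ) (FF v ρ) b ≠ 0 :=
    IsFractionRing.to_map_ne_zero_of_mem_nonZeroDivisors hb
  exact ⟨a, b, h0, by rw [← hab, div_mul_cancel₀ _ h0]⟩

theorem TF_deriv_alg [CharZero K] (hρ : 0 < ρ) (f : Rst v ρ) :
    d⁄dX (FF v ρ) (TF v hρ (algebraMap _ _ f)) =
      TF v hρ (coeff 1 (TF v hρ (algebraMap _ _ f))) := by
  rw [TF_alg, coeff_T₂, TF_alg]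
  ext s
  rw [coeff_derivative, coeff_T₂, coeff_T₂]
  have h : coeff s (T₁ v hρ (coeff 1 (T₁ v hρ f))) = coeff (s + 1) (T₁ v hρ f) * ((s + 1 : ℕ) : Rst v ρ) := by
    apply Subtype.ext
    rw [coeff_T₁, coeff_T₁, hd_one, Subring.coe_mul, coeff_T₁, ← hd_succ]
    push_cast
    ring
  rw [h, map_mul, map_natCast]
  push_cast
  rfl

theorem TF_deriv [CharZero K] (hρ : 0 < ρ) (f : FF v ρ) :
    d⁄dX (FF v ρ) (TF v hρ f) = TF v hρ (coeff 1 (TF v hρ f)) := by
  obtain ⟨a, b, hb, hab⟩ := exists_frac v f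
  set T := TF v hρ with hT
  set β := algebraMap (Rst v ρ) (FF v ρ) b with hβ
  set α := algebraMap (Rst v ρ) (FF v ρ) a with hα
  have h1 : T f * T β = T α := by rw [← map_mul, hab]
  have h2 := congrArg (d⁄dX (FF v ρ)) h1
  rw [Derivation.leibniz, smul_eq_mul, smul_eq_mul, TF_deriv_alg, TF_deriv_alg, ← hT] at h2
  have h3 : coeff 1 (T α) = f * coeff 1 (T β) + coeff 1 (T f) * β := by
    rw [← h1, coeff_mul, Finset.Nat.antidiagonal_succ]
    simp only [Finset.Nat.antidiagonal_zero, Finset.map_singleton, Finset.sum_cons,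
      Finset.sum_singleton, Function.Embedding.prodMap, Function.Embedding.coeFn_mk,
      Prod.map, Function.Embedding.refl_apply, Nat.succ_eq_add_one, zero_add]
    rw [hT, TF_zero, TF_zero]
  have hTβ : T β ≠ 0 := by
    intro h
    have := TF_zero v hρ β
    rw [← hT, h, map_zero] at this
    exact hb this.symm
  refine mul_left_cancel₀ hTβ ?_
  have h4 : T β * T (coeff 1 (T f)) = T (coeff 1 (T α)) - T f * T (coeff 1 (T β)) := by
    rw [h3, map_add, map_mul, map_mul]; ring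
  rw [h4, ← h2]
  ring

theorem fv_TF [CharZero K] (hρ : 0 < ρ) (f : FF v ρ) (s : ℕ) :
    fv v hρ (coeff s (TF v hρ f)) ≤ (ρ⁻¹) ^ s * fv v hρ f := by
  obtain ⟨a, b, hb, hab⟩ := exists_frac v f
  have halg : ∀ (x : Rst v ρ) (s : ℕ), fv v hρ (coeff s (TF v hρ (algebraMap _ _ x))) ≤
      (ρ⁻¹) ^ s * fv v hρ (algebraMap _ _ x) := by
    intro x s
    rw [TF_alg, coeff_T₂, fv_alg, fv_alg, coeff_T₁]
    exact nf_hd hρ x.2 s
  set T := TF v hρ with hT
  set w := fv v hρ with hw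
  set β := algebraMap (Rst v ρ) (FF v ρ) b with hβ
  set α := algebraMap (Rst v ρ) (FF v ρ) a with hα
  have hwβ : 0 < w β := pos_iff_ne_zero.2 ((Valuation.ne_zero_iff w).2 hb)
  have h1 : T f * T β = T α := by rw [← map_mul, hab]
  have hwα : w α = w f * w β := by rw [← hab, map_mul]
  induction s using Nat.strong_induction_on with
  | _ s ih =>
    have h2 : coeff s (T f) * β = coeff s (T α) -
        ∑ p ∈ (Finset.HasAntidiagonal.antidiagonal s).erase (s, 0), coeff p.1 (T f) * coeff p.2 (T β) := by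
      rw [← h1, coeff_mul, ← Finset.add_sum_erase _ _
        (show (s, 0) ∈ Finset.HasAntidiagonal.antidiagonal s by
          rw [Finset.HasAntidiagonal.mem_antidiagonal]; exact Nat.add_zero s), add_sub_cancel_right, hT, TF_zero]
    have h3 : w (coeff s (T f) * β) ≤ (ρ⁻¹) ^ s * w f * w β := by
      rw [h2]
      refine (w.map_sub _ _).trans (max_le ?_ ?_)
      · refine (halg a s).trans (le_of_eq ?_)
        rw [← hα, hwα]; ring
      · refine w.map_sum_le fun p hp => ?_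
        rw [Finset.mem_erase, Finset.HasAntidiagonal.mem_antidiagonal] at hp
        have hps : p.1 < s := by
          rcases Nat.lt_or_ge p.1 s with h | h
          · exact h
          · exact absurd (Prod.ext (by simp; omega) (by simp; omega)) hp.1
        rw [map_mul]
        calc w (coeff p.1 (T f)) * w (coeff p.2 (T β))
            ≤ ((ρ⁻¹) ^ p.1 * w f) * ((ρ⁻¹) ^ p.2 * w β) := mul_le_mul' (ih p.1 hps) (halg b p.2)
          _ = (ρ⁻¹) ^ (p.1 + p.2) * w f * w β := by ring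
          _ = _ := by rw [hp.2]
    rw [map_mul] at h3
    exact le_of_mul_le_mul_right h3 hwβ

end Pool.Agent.Run7.h143.PC.DR
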