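import Mathlib
import Pool.Agent.Run7.h143.PC.DR3

set_option autoImplicit false

/-!
The fundamental matrix over a field of characteristic zero (copied from the complex case), and the theorem of
Dwork and Robba for a valued field.
-/

namespace Pool.Agent.Run7.h143.PC.DR

open PowerSeries Matrix
open scoped NNReal

variable {K : Type*} [Field K] [CharZero K]
variable {ι : Type*} [Fintype ι] [DecidableEq ι] {κ μ : Type*} [Fintype κ]

theorem c0_mul (f g : K⟦X⟧) : coeff 0 (f * g) = coeff 0 f * coeff 0 g := by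
  rw [coeff_zero_eq_constantCoeff_apply, coeff_zero_eq_constantCoeff_apply,
    coeff_zero_eq_constantCoeff_apply, map_mul]

/-- entrywise derivative -/
noncomputable def mD (M : Matrix ι κ K⟦X⟧) : Matrix ι κ K⟦X⟧ := M.map (d⁄dX K)

omit [Fintype ι] [DecidableEq ι] [Fintype κ] in
theorem mD_apply (M : Matrix ι κ K⟦X⟧) (i : ι) (j : κ) : mD M i j = d⁄dX K (M i j) := rfl

omit [Fintype ι] [DecidableEq ι] [Fintype κ] in
theorem mD_add (M N : Matrix ι κ K⟦X⟧) : mD (M + N) = mD M + mD N := by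
  ext1 i j; simp [mD_apply]

omit [Fintype ι] [DecidableEq ι] [Fintype κ] in
theorem mD_nsmul (k : ℕ) (M : Matrix ι κ K⟦X⟧) : mD (k • M) = k • mD M := by
  ext1 i j; simp only [mD_apply, Matrix.smul_apply]; rw [map_nsmul]

omit [Fintype ι] [DecidableEq ι] [Fintype κ] in
theorem mD_sum {α : Type*} (t : Finset α) (f : α → Matrix ι κ K⟦X⟧) :
    mD (∑ a ∈ t, f a) = ∑ a ∈ t, mD (f a) := by
  ext1 i j; simp only [mD_apply, Matrix.sum_apply]; rw [map_sum]

omit [Fintype ι] [DecidableEq ι] in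
theorem mD_mul (M : Matrix ι κ K⟦X⟧) (N : Matrix κ μ K⟦X⟧) :
    mD (M * N) = mD M * N + M * mD N := by
  ext1 i j
  simp only [mD_apply, Matrix.mul_apply, Matrix.add_apply, map_sum, Derivation.leibniz, smul_eq_mul]
  rw [← Finset.sum_add_distrib]
  refine Finset.sum_congr rfl fun k _ => ?_
  ring

omit [Fintype ι] in
theorem mD_one : mD (1 : Matrix ι ι K⟦X⟧) = 0 := by
  ext1 i j
  rw [mD_apply, Matrix.one_apply]
  split_ifs <;> simp

/-- `M ↦ M' + M G` -/
noncomputable def dl (G M : Matrix ι ι K⟦X⟧) : Matrix ι ι K⟦X⟧ := mD M + M * G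

/-- the matrices `G_s` -/
noncomputable def gs (G : Matrix ι ι K⟦X⟧) (s : ℕ) : Matrix ι ι K⟦X⟧ := (dl G)^[s] 1

theorem gs_zero (G : Matrix ι ι K⟦X⟧) : gs G 0 = 1 := rfl

theorem gs_succ (G : Matrix ι ι K⟦X⟧) (s : ℕ) : gs G (s + 1) = mD (gs G s) + gs G s * G := by
  unfold gs; rw [Function.iterate_succ_apply']; rfl

theorem dl_one (G : Matrix ι ι K⟦X⟧) : dl G 1 = G := by
  unfold dl; rw [mD_one, one_mul, zero_add]

theorem gs_succ' (G : Matrix ι ι K⟦X⟧) (s : ℕ) : gs G (s + 1) = (dl G)^[s] G := by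
  unfold gs; rw [Function.iterate_succ_apply, dl_one]

omit [DecidableEq ι] in
theorem dl_add (G M N : Matrix ι ι K⟦X⟧) : dl G (M + N) = dl G M + dl G N := by
  unfold dl; rw [mD_add, add_mul]; abel

omit [DecidableEq ι] in
theorem dl_nsmul (G M : Matrix ι ι K⟦X⟧) (k : ℕ) : dl G (k • M) = k • dl G M := by
  unfold dl; rw [mD_nsmul, smul_mul_assoc, smul_add]

omit [DecidableEq ι] in
theorem dl_sum {α : Type*} (G : Matrix ι ι K⟦X⟧) (t : Finset α) (f : α → Matrix ι ι K⟦X⟧) :
    dl G (∑ a ∈ t, f a) = ∑ a ∈ t, dl G (f a) := by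
  unfold dl; rw [mD_sum, Finset.sum_mul, Finset.sum_add_distrib]

omit [DecidableEq ι] in
theorem dl_mul (G M N : Matrix ι ι K⟦X⟧) : dl G (M * N) = mD M * N + M * dl G N := by
  unfold dl; rw [mD_mul, mul_add, mul_assoc]; abel

/-- Leibniz rule -/
theorem leib (G N : Matrix ι ι K⟦X⟧) (t : ℕ) :
    (dl G)^[t] N = ∑ p ∈ Finset.HasAntidiagonal.antidiagonal t,
      t.choose p.1 • ((mD)^[p.1] N * gs G p.2) := by
  induction t with
  | zero => simp [gs_zero]
  | succ t ih =>
    rw [Function.iterate_succ_apply', ih, dl_sum,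
      Finset.sum_antidiagonal_choose_succ_nsmul (fun i j => (mD)^[i] N * gs G j) t,
      ← Finset.sum_add_distrib]
    refine Finset.sum_congr rfl fun p hp => ?_
    rw [Finset.HasAntidiagonal.mem_antidiagonal] at hp
    rw [dl_nsmul, dl_mul, smul_add, ← Function.iterate_succ_apply' mD]
    have e : t.choose p.2 = t.choose p.1 := by
      rw [← hp, add_comm, Nat.choose_symm_add, add_comm]
    have e2 : gs G (p.2 + 1) = dl G (gs G p.2) := gs_succ G p.2
    rw [e, add_comm, e2]

theorem iter_mD_apply (M : Matrix ι κ K⟦X⟧) (k : ℕ) (i : ι) (j : κ) :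
    ((mD)^[k] M) i j = (d⁄dX K)^[k] (M i j) := by
  induction k with
  | zero => rfl
  | succ k ih => rw [Function.iterate_succ_apply', Function.iterate_succ_apply', mD_apply, ih]

/-- the fundamental matrix -/
noncomputable def fund (G : Matrix ι ι K⟦X⟧) : Matrix ι ι K⟦X⟧ :=
  fun i j => mk fun s => coeff 0 (gs G s i j) / (s.factorial : K)

theorem coeff_fund (G : Matrix ι ι K⟦X⟧) (i j : ι) (s : ℕ) :
    coeff s (fund G i j) = coeff 0 (gs G s i j) / (s.factorial : K) := by
  unfold fund; rw [coeff_mk]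

theorem fund_ode (G : Matrix ι ι K⟦X⟧) : mD (fund G) = G * fund G := by
  ext1 i j
  ext s
  have hs : (s.factorial : K) ≠ 0 := by exact_mod_cast s.factorial_ne_zero
  rw [mD_apply, coeff_derivative, coeff_fund, Matrix.mul_apply, map_sum]
  have e1 : coeff 0 (gs G (s + 1) i j) / ((s + 1).factorial : K) * ((s : K) + 1) =
      coeff 0 (gs G (s + 1) i j) / (s.factorial : K) := by
    have : ((s : K) + 1) ≠ 0 := by exact_mod_cast (Nat.succ_ne_zero s)
    rw [Nat.factorial_succ]; push_cast; field_simp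
  rw [e1, div_eq_iff hs, gs_succ', leib, Matrix.sum_apply, map_sum, Finset.sum_mul]
  simp only [coeff_mul, Finset.sum_mul]
  rw [Finset.sum_comm' (t' := Finset.HasAntidiagonal.antidiagonal s)
    (s' := fun _ => (Finset.univ : Finset ι)) (by intro x y; simp)]
  refine Finset.sum_congr rfl fun q hq => ?_
  rw [Finset.HasAntidiagonal.mem_antidiagonal] at hq
  rw [Matrix.smul_apply, map_nsmul, Matrix.mul_apply, map_sum, nsmul_eq_mul, Finset.mul_sum]
  refine Finset.sum_congr rfl fun k _ => ?_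
  rw [coeff_fund, c0_mul, iter_mD_apply]
  have h3 : coeff 0 ((d⁄dX K)^[q.1] (G i k)) = (q.1.factorial : K) * coeff q.1 (G i k) := by
    have := constantCoeff_iterate_derivative (G i k) q.1
    rwa [← coeff_zero_eq_constantCoeff_apply] at this
  rw [h3]
  have h4 : ((q.2).factorial : K) ≠ 0 := by exact_mod_cast (q.2).factorial_ne_zero
  have h5 : (s.choose q.1 : K) * q.1.factorial * q.2.factorial = s.factorial := by
    have h6 := Nat.choose_mul_factorial_mul_factorial (n := s) (k := q.1) (by omega)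
    have h7 : s - q.1 = q.2 := by omega
    rw [h7] at h6
    exact_mod_cast h6
  rw [← h5]
  field_simp

theorem fund_zero (G : Matrix ι ι K⟦X⟧) (i j : ι) :
    coeff 0 (fund G i j) = (1 : Matrix ι ι K) i j := by
  rw [coeff_fund, gs_zero, Matrix.one_apply, Matrix.one_apply]
  split_ifs <;> simp


end Pool.Agent.Run7.h143.PC.DR
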