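import Mathlib
import Pool.Agent.Run7.h143.PC.DR4

set_option autoImplicit false

/-!
The theorem of Dwork and Robba over a valued field: if the coefficients of the system are integral and the solutions
at the origin converge for all radii smaller than `1`, then the denominators of the solutions grow
logarithmically, of order at most the rank minus one.
-/

namespace Pool.Agent.Run7.h143.PC.DR

open PowerSeries Matrix
open scoped NNReal

variable {K : Type*} [Field K] [CharZero K]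
variable {ι : Type*} [Fintype ι] [DecidableEq ι]

/-- all coefficients are integral -/
def Ic (v : Valuation K ℝ≥0) (f : K⟦X⟧) : Prop := ∀ s, v (coeff s f) ≤ 1

variable {v : Valuation K ℝ≥0}

omit [CharZero K] in
theorem Ic.add {f g : K⟦X⟧} (hf : Ic v f) (hg : Ic v g) : Ic v (f + g) := fun s => by
  rw [map_add]; exact v.map_add_le (hf s) (hg s)

omit [CharZero K] in
theorem Ic.mul {f g : K⟦X⟧} (hf : Ic v f) (hg : Ic v g) : Ic v (f * g) := fun s => by
  rw [coeff_mul]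
  refine v.map_sum_le fun p _ => ?_
  rw [map_mul]
  exact mul_le_one' (hf _) (hg _)

omit [CharZero K] in
theorem Ic.deriv {f : K⟦X⟧} (hf : Ic v f) : Ic v (d⁄dX K f) := fun s => by
  rw [coeff_derivative, map_mul]
  refine mul_le_one' (hf _) ?_
  have := v_nat_le v (s + 1)
  push_cast at this
  exact this

omit [CharZero K] in
theorem Ic.sum {α : Type*} (t : Finset α) {f : α → K⟦X⟧} (hf : ∀ a ∈ t, Ic v (f a)) :
    Ic v (∑ a ∈ t, f a) := fun s => by
  rw [map_sum]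
  exact v.map_sum_le fun a ha => hf a ha s

omit [CharZero K] in
theorem Ic.one : Ic v (1 : K⟦X⟧) := fun s => by
  rw [coeff_one]; split_ifs <;> simp

omit [CharZero K] in
theorem Ic.zero : Ic v (0 : K⟦X⟧) := fun s => by simp

theorem Ic.gs {G : Matrix ι ι K⟦X⟧} (hG : ∀ i j, Ic v (G i j)) (s : ℕ) :
    ∀ i j, Ic v (gs G s i j) := by
  induction s with
  | zero =>
    intro i j
    rw [gs_zero, Matrix.one_apply]
    split_ifs
    · exact Ic.one
    · exact Ic.zero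
  | succ s ih =>
    intro i j
    rw [gs_succ, Matrix.add_apply, mD_apply, Matrix.mul_apply]
    exact (ih i j).deriv.add (Ic.sum _ fun k _ => (ih i k).mul (hG k j))

omit [CharZero K] in
theorem Ic.tm_le {f : K⟦X⟧} (hf : Ic v f) {ρ : ℝ≥0} (s : ℕ) : tm v ρ f s ≤ ρ ^ s := by
  unfold tm
  calc v (coeff s f) * ρ ^ s ≤ 1 * ρ ^ s := mul_le_mul' (hf s) le_rfl
    _ = _ := one_mul _

omit [CharZero K] in
theorem Ic.tz {f : K⟦X⟧} (hf : Ic v f) {ρ : ℝ≥0} (hρ1 : ρ < 1) : Tz v ρ f := by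
  intro ε hε
  obtain ⟨M, hM⟩ := NNReal.exists_pow_lt_of_lt_one hε hρ1
  refine ⟨M, fun s hs => (hf.tm_le s).trans (le_trans ?_ hM.le)⟩
  exact pow_le_pow_right_of_le_one' hρ1.le hs

omit [CharZero K] in
theorem Ic.nf_le {f : K⟦X⟧} (hf : Ic v f) {ρ : ℝ≥0} (hρ1 : ρ < 1) : nf v ρ f ≤ 1 :=
  DR.nf_le fun s => (hf.tm_le s).trans (pow_le_one₀ zero_le hρ1.le)

/-- the derivatives of the fundamental matrix -/
theorem hd_fund (G : Matrix ι ι K⟦X⟧) (s : ℕ) (i j : ι) :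
    C (s.factorial : K) * hd s (fund G i j) = ∑ k, gs G s i k * fund G k j := by
  induction s generalizing i j with
  | zero =>
    rw [hd_zero, gs_zero]
    simp [Matrix.one_apply]
  | succ s ih =>
    have h1 := congrArg (d⁄dX K) (ih i j)
    have h2 : d⁄dX K (hd s (fund G i j)) = ((s + 1 : ℕ) : K⟦X⟧) * hd (s + 1) (fund G i j) := by
      ext k
      have e : ((s + 1 : ℕ) : K⟦X⟧) = C ((s + 1 : ℕ) : K) := by simp
      rw [e, coeff_C_mul, coeff_derivative, coeff_hd, coeff_hd]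
      have h3 : (k + 1 + s).choose s * (k + 1) = (s + 1) * (k + (s + 1)).choose (s + 1) := by
        have e1 : k + 1 + s = k + (s + 1) := by ring
        rw [e1]
        have := Nat.choose_succ_right_eq (k + (s + 1)) s
        have e2 : k + (s + 1) - s = k + 1 := by omega
        rw [e2] at this
        rw [← this]; ring
      have h4 := congrArg (fun n : ℕ => (n : K)) h3
      push_cast at h4
      have e1 : k + 1 + s = k + (s + 1) := by ring
      rw [e1] at h4 ⊢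
      push_cast
      linear_combination (coeff (k + (s + 1)) (fund G i j)) * h4
    rw [Derivation.leibniz, derivative_C, smul_zero, add_zero, smul_eq_mul, h2, map_sum] at h1
    have e3 : C ((s + 1).factorial : K) = C (s.factorial : K) * ((s + 1 : ℕ) : K⟦X⟧) := by
      rw [Nat.factorial_succ]; push_cast
      rw [map_mul, map_add, map_natCast, map_one, mul_comm]
    rw [e3, mul_assoc, h1, gs_succ]
    simp only [Matrix.add_apply, Matrix.mul_apply, add_mul, Derivation.leibniz, smul_eq_mul,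
      Finset.sum_add_distrib, mD_apply]
    rw [add_comm]
    congr 1
    · exact Finset.sum_congr rfl fun k _ => mul_comm _ _
    · have h5 : ∀ k, d⁄dX K (fund G k j) = ∑ l, G k l * fund G l j := by
        intro k
        have h7 := congrFun (congrFun (fund_ode G) k) j
        rwa [mD_apply, Matrix.mul_apply] at h7
      simp only [h5, Finset.mul_sum, Finset.sum_mul]
      rw [Finset.sum_comm]
      exact Finset.sum_congr rfl fun l _ => Finset.sum_congr rfl fun k _ => by ring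

/-- the bound for matrices over a field with divided derivatives -/
theorem matrix_bound {F : Type*} [Field F] [CharZero F] (w : Valuation F ℝ≥0) (T : F →+* F⟦X⟧)
    (T0 : ∀ f, coeff 0 (T f) = f) (Td : ∀ f, d⁄dX F (T f) = T (coeff 1 (T f))) {B : ℝ≥0}
    (hB1 : 1 ≤ B) (Tv : ∀ f s, w (coeff s (T f)) ≤ B ^ s * w f) {Lb : ℕ → ℝ≥0}
    (hL1 : ∀ s, 1 ≤ Lb s) (hLm : Monotone Lb)
    (hL : ∀ s : ℕ, (w ((s + 1 : ℕ) : F))⁻¹ ≤ Lb (s + 1)) (GF UF SF : Matrix ι ι F)
    (hdet : UF.det ≠ 0) (hGF : ∀ i j, w (GF i j) ≤ 1)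
    (hD1 : ∀ i j, coeff 1 (T (UF i j)) = ∑ k, GF i k * UF k j) (s : ℕ) (cc : F)
    (hDs : ∀ i j, cc * coeff s (T (UF i j)) = ∑ k, SF i k * UF k j) (i₀ j₀ : ι) :
    w (SF i₀ j₀) ≤ w cc * (Lb s ^ (Fintype.card ι - 1) * B ^ s) := by
  classical
  have hUU : UF⁻¹ * UF = 1 := Matrix.nonsing_inv_mul _ (isUnit_iff_ne_zero.2 hdet)
  have hUU' : UF * UF⁻¹ = 1 := Matrix.mul_nonsing_inv _ (isUnit_iff_ne_zero.2 hdet)
  set N : (ι → F) → ℝ≥0 := fun x => Finset.univ.sup fun j => w ((x ᵥ* UF⁻¹) j) with hN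
  have hNle : ∀ x (c : ℝ≥0), (∀ j, w ((x ᵥ* UF⁻¹) j) ≤ c) → N x ≤ c := fun x c h =>
    Finset.sup_le fun j _ => h j
  have hleN : ∀ x j, w ((x ᵥ* UF⁻¹) j) ≤ N x := fun x j =>
    Finset.le_sup (f := fun j => w ((x ᵥ* UF⁻¹) j)) (Finset.mem_univ j)
  have hN0 : N 0 = 0 := le_antisymm (hNle 0 0 fun j => by simp) zero_le
  have hNadd : ∀ x y, N (x + y) ≤ max (N x) (N y) := fun x y => by
    refine hNle _ _ fun j => ?_
    rw [Matrix.add_vecMul, Pi.add_apply]
    exact w.map_add_le ((hleN x j).trans (le_max_left _ _)) ((hleN y j).trans (le_max_right _ _))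
  have hNsmul : ∀ (c : F) x, N (c • x) = w c * N x := fun c x => by
    simp only [hN]
    rw [NNReal.mul_finset_sup]
    refine Finset.sup_congr rfl fun j _ => ?_
    rw [Matrix.smul_vecMul, Pi.smul_apply, smul_eq_mul, map_mul]
  set Cst : ℝ≥0 := Finset.univ.sup fun p : ι × ι => w (UF p.1 p.2) with hCst
  have hNC : ∀ x i, w (x i) ≤ Cst * N x := by
    intro x i
    have e : x i = ∑ j, (x ᵥ* UF⁻¹) j * UF j i := by
      have e1 : (x ᵥ* UF⁻¹) ᵥ* UF = x := by
        rw [Matrix.vecMul_vecMul, hUU, Matrix.vecMul_one]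
      conv_lhs => rw [← e1]
      rfl
    rw [e]
    refine w.map_sum_le fun j _ => ?_
    rw [map_mul, mul_comm]
    exact mul_le_mul' (Finset.le_sup (f := fun p : ι × ι => w (UF p.1 p.2))
      (Finset.mem_univ (j, i))) (hleN x j)
  have hND : ∀ x, N (Ds T 1 x) ≤ B * N x := by
    intro x
    obtain ⟨c, hc⟩ : ∃ c : ι → F, c = x ᵥ* UF⁻¹ := ⟨_, rfl⟩
    have e1 : c ᵥ* UF = x := by
      rw [hc, Matrix.vecMul_vecMul, hUU, Matrix.vecMul_one]
    have e2 : Ds T 1 x = (Ds T 1 c + c ᵥ* GF) ᵥ* UF := by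
      funext i
      have e3 : x i = ∑ j, c j * UF j i := (congrFun e1 i).symm
      have e4 : Ds T 1 x i = ∑ j, (Ds T 1 c j * UF j i + c j * coeff 1 (T (UF j i))) := by
        change coeff 1 (T (x i)) = _
        rw [e3, map_sum, map_sum]
        refine Finset.sum_congr rfl fun j _ => ?_
        have e5 : ∀ f g : F⟦X⟧, coeff 1 (f * g) = coeff 0 f * coeff 1 g + coeff 1 f * coeff 0 g := by
          intro f g
          rw [coeff_mul, Finset.Nat.antidiagonal_succ]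
          simp
        rw [map_mul, e5, T0, T0, add_comm]
        rfl
      rw [e4, Finset.sum_add_distrib, Matrix.add_vecMul, Pi.add_apply]
      congr 1
      rw [Matrix.vecMul_vecMul]
      change _ = ∑ j, c j * (GF * UF) j i
      refine Finset.sum_congr rfl fun j _ => ?_
      rw [hD1, Matrix.mul_apply]
    refine hNle _ _ fun j => ?_
    rw [e2, Matrix.vecMul_vecMul, hUU', Matrix.vecMul_one, Pi.add_apply]
    refine w.map_add_le ?_ ?_
    · calc w (Ds T 1 c j) ≤ B ^ 1 * w (c j) := Tv (c j) 1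
        _ ≤ B * N x := by
            rw [pow_one, hc]
            exact mul_le_mul' le_rfl (hleN x j)
    · change w (∑ k, c k * GF k j) ≤ _
      refine w.map_sum_le fun k _ => ?_
      rw [map_mul]
      calc w (c k) * w (GF k j) ≤ N x * 1 := by
            refine mul_le_mul' ?_ (hGF k j)
            rw [hc]; exact hleN x k
        _ = 1 * N x := by ring
        _ ≤ B * N x := mul_le_mul' hB1 le_rfl
  have hmain := abstract_bound w hN0 hNadd hNsmul hNC T T0 Td hB1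
    Tv hL1 hLm hL hND (Fintype.card ι) ∅ (by simp)
    (UF i₀) (fun i hi => absurd hi (Finset.notMem_empty i)) s
  have hrow : N (UF i₀) ≤ 1 := by
    refine hNle _ _ fun j => ?_
    have e : (UF i₀ ᵥ* UF⁻¹) j = (1 : Matrix ι ι F) i₀ j := by
      rw [← hUU']; rfl
    rw [e, Matrix.one_apply]
    split_ifs <;> simp
  have hDs' : cc • Ds T s (UF i₀) = SF i₀ ᵥ* UF := by
    funext j
    rw [Pi.smul_apply, smul_eq_mul]
    exact hDs i₀ j
  have hS : w (SF i₀ j₀) ≤ w cc * N (Ds T s (UF i₀)) := by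
    rw [← hNsmul, hDs']
    have h1 := hleN (SF i₀ ᵥ* UF) j₀
    rwa [Matrix.vecMul_vecMul, hUU', Matrix.vecMul_one] at h1
  calc w (SF i₀ j₀) ≤ w cc * N (Ds T s (UF i₀)) := hS
    _ ≤ w cc * (Lb s ^ (Fintype.card ι - 1) * B ^ s * 1) := by
        refine mul_le_mul' le_rfl (hmain.trans ?_)
        exact mul_le_mul' le_rfl hrow
    _ = _ := by ring

theorem natCast_eq_C (n : ℕ) : ((n : ℕ) : K⟦X⟧) = C (n : K) := by simp

theorem fv_natCast {ρ : ℝ≥0} (hρ : 0 < ρ) (n : ℕ) : fv v hρ ((n : ℕ) : FF v ρ) = v (n : K) := by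
  have e : ((n : ℕ) : FF v ρ) = algebraMap (Rst v ρ) (FF v ρ) (n : Rst v ρ) := by
    rw [map_natCast]
  rw [e, fv_alg, Subring.coe_natCast, natCast_eq_C]
  refine le_antisymm (DR.nf_le fun s => ?_) ?_
  · unfold tm
    rw [coeff_C]
    split_ifs with h
    · rw [h, pow_zero, mul_one]
    · rw [map_zero, zero_mul]; exact zero_le
  · have hc : Tz v ρ (C (n : K)) := by
      rw [← natCast_eq_C]
      exact (natCast_mem (Rst v ρ) n : ((n : ℕ) : K⟦X⟧) ∈ Rst v ρ)
    have h := le_nf hc 0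
    rwa [tm, coeff_zero_C, pow_zero, mul_one] at h

theorem charZero_Rst (v : Valuation K ℝ≥0) (ρ : ℝ≥0) : CharZero (Rst v ρ) := by
  refine ⟨fun a b hab => ?_⟩
  have h1 := congrArg (fun x : Rst v ρ => coeff 0 (x : K⟦X⟧)) hab
  simp only [Subring.coe_natCast] at h1
  rw [natCast_eq_C, natCast_eq_C, coeff_zero_C, coeff_zero_C] at h1
  exact_mod_cast h1

theorem coeff_TF_alg {ρ : ℝ≥0} (hρ : 0 < ρ) (f : Rst v ρ) (s : ℕ) :
    coeff s (TF v hρ (algebraMap (Rst v ρ) (FF v ρ) f)) =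
      algebraMap (Rst v ρ) (FF v ρ) ⟨hd s (f : K⟦X⟧), Tz.hd hρ f.2 s⟩ := by
  rw [TF_alg, coeff_T₂]
  exact congrArg _ (Subtype.ext (coeff_T₁ v hρ f s))

/-- the bound for a fixed radius -/
theorem radius_bound (v : Valuation K ℝ≥0) {Lb : ℕ → ℝ≥0} (hL1 : ∀ s, 1 ≤ Lb s)
    (hLm : Monotone Lb) (hL : ∀ s : ℕ, (v ((s + 1 : ℕ) : K))⁻¹ ≤ Lb (s + 1))
    (G : Matrix ι ι K⟦X⟧) (hG : ∀ i j, Ic v (G i j)) {ρ : ℝ≥0} (hρ : 0 < ρ) (hρ1 : ρ < 1)
    (hU : ∀ i j, Tz v ρ (fund G i j)) (s : ℕ) (i₀ j₀ : ι) :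
    v (coeff 0 (gs G s i₀ j₀)) ≤
      v (s.factorial : K) * (Lb s ^ (Fintype.card ι - 1) * (ρ⁻¹) ^ s) := by
  classical
  have hinj : Function.Injective (algebraMap (Rst v ρ) (FF v ρ)) := IsFractionRing.injective _ _
  have hchar : CharZero (Rst v ρ) := charZero_Rst v ρ
  have hcharF : CharZero (FF v ρ) := charZero_of_injective_algebraMap hinj
  have hB1 : 1 ≤ ρ⁻¹ := (one_le_inv₀ hρ).2 hρ1.le
  -- the matrices
  obtain ⟨Ge, hGe⟩ : ∃ M : Matrix ι ι (Rst v ρ), ∀ i j, (M i j : K⟦X⟧) = G i j :=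
    ⟨fun i j => ⟨G i j, (hG i j).tz hρ1⟩, fun _ _ => rfl⟩
  obtain ⟨Ue, hUe⟩ : ∃ M : Matrix ι ι (Rst v ρ), ∀ i j, (M i j : K⟦X⟧) = fund G i j :=
    ⟨fun i j => ⟨fund G i j, hU i j⟩, fun _ _ => rfl⟩
  obtain ⟨Se, hSe⟩ : ∃ M : Matrix ι ι (Rst v ρ), ∀ i j, (M i j : K⟦X⟧) = gs G s i j :=
    ⟨fun i j => ⟨gs G s i j, (Ic.gs hG s i j).tz hρ1⟩, fun _ _ => rfl⟩
  obtain ⟨al, hal⟩ : ∃ f : Rst v ρ →+* FF v ρ, f = algebraMap (Rst v ρ) (FF v ρ) := ⟨_, rfl⟩
  have halv : ∀ x, fv v hρ (al x) = nf v ρ (x : K⟦X⟧) := fun x => by rw [hal]; exact fv_alg v hρ x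
  have halT : ∀ (x : Rst v ρ) (s : ℕ) (y : Rst v ρ), (y : K⟦X⟧) = hd s (x : K⟦X⟧) →
      coeff s (TF v hρ (al x)) = al y := by
    intro x s y hy
    rw [hal, coeff_TF_alg]
    congr 1
    exact Subtype.ext hy.symm
  have hdet : (Ue.map al).det ≠ 0 := by
    intro h0
    have h1 : al Ue.det = 0 := by
      rw [RingHom.map_det]; exact h0
    have h2 : Ue.det = 0 := by
      apply hinj
      rw [← hal, map_zero]; exact h1
    obtain ⟨c0, hc0⟩ : ∃ c0 : Rst v ρ →+* K, ∀ x, c0 x = coeff 0 (x : K⟦X⟧) :=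
      ⟨(constantCoeff (R := K)).comp (Rst v ρ).subtype, fun x => by
        rw [coeff_zero_eq_constantCoeff_apply]; rfl⟩
    have h3 := congrArg c0 h2
    rw [RingHom.map_det, map_zero] at h3
    have h4 : c0.mapMatrix Ue = 1 := by
      ext i j
      rw [RingHom.mapMatrix_apply, Matrix.map_apply, hc0, hUe]
      exact fund_zero G i j
    rw [h4, Matrix.det_one] at h3
    exact one_ne_zero h3
  have hGF : ∀ i j, fv v hρ ((Ge.map al) i j) ≤ 1 := by
    intro i j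
    rw [Matrix.map_apply, halv, hGe]
    exact (hG i j).nf_le hρ1
  have hD1 : ∀ i j, coeff 1 (TF v hρ ((Ue.map al) i j)) =
      ∑ k, (Ge.map al) i k * (Ue.map al) k j := by
    intro i j
    have h7 := congrFun (congrFun (fund_ode G) i) j
    rw [mD_apply, Matrix.mul_apply] at h7
    simp only [Matrix.map_apply]
    rw [halT (Ue i j) 1 (∑ k, Ge i k * Ue k j) ?_, map_sum]
    · exact Finset.sum_congr rfl fun k _ => map_mul _ _ _
    · rw [AddSubmonoidClass.coe_finsetSum, hUe, hd_one, h7]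
      refine Finset.sum_congr rfl fun k _ => ?_
      rw [Subring.coe_mul, hGe, hUe]
  have hDs : ∀ i j, ((s.factorial : ℕ) : FF v ρ) * coeff s (TF v hρ ((Ue.map al) i j)) =
      ∑ k, (Se.map al) i k * (Ue.map al) k j := by
    intro i j
    simp only [Matrix.map_apply]
    have h1 := hd_fund G s i j
    rw [← natCast_eq_C] at h1
    rw [halT (Ue i j) s ⟨hd s (Ue i j : K⟦X⟧), Tz.hd hρ (Ue i j).2 s⟩ rfl]
    have e1 : ((s.factorial : ℕ) : FF v ρ) = al ((s.factorial : ℕ) : Rst v ρ) := by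
      rw [map_natCast]
    rw [e1, ← map_mul]
    have e2 : ((s.factorial : ℕ) : Rst v ρ) * (⟨hd s (Ue i j : K⟦X⟧), Tz.hd hρ (Ue i j).2 s⟩ : Rst v ρ) =
        ∑ k, Se i k * Ue k j := by
      apply Subtype.ext
      rw [Subring.coe_mul, Subring.coe_natCast, AddSubmonoidClass.coe_finsetSum]
      change _ * hd s (Ue i j : K⟦X⟧) = _
      rw [hUe, h1]
      refine Finset.sum_congr rfl fun k _ => ?_
      rw [Subring.coe_mul, hSe, hUe]
    rw [e2, map_sum]
    exact Finset.sum_congr rfl fun k _ => map_mul _ _ _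
  have hLF : ∀ s : ℕ, (fv v hρ ((s + 1 : ℕ) : FF v ρ))⁻¹ ≤ Lb (s + 1) := by
    intro s
    rw [fv_natCast]; exact hL s
  have hmain := matrix_bound (fv v hρ) (TF v hρ) (TF_zero v hρ) (TF_deriv v hρ) hB1
    (fun f s => fv_TF v hρ f s) hL1 hLm hLF (Ge.map al) (Ue.map al) (Se.map al) hdet hGF hD1 s
    ((s.factorial : ℕ) : FF v ρ) hDs i₀ j₀
  rw [fv_natCast, Matrix.map_apply, halv, hSe] at hmain
  refine le_trans ?_ hmain
  have h := le_nf ((Ic.gs hG s i₀ j₀).tz hρ1) 0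
  rwa [tm, pow_zero, mul_one] at h

/-- **Dwork and Robba** -/
theorem dwork_robba (v : Valuation K ℝ≥0) {Lb : ℕ → ℝ≥0} (hL1 : ∀ s, 1 ≤ Lb s)
    (hLm : Monotone Lb) (hL : ∀ s : ℕ, (v ((s + 1 : ℕ) : K))⁻¹ ≤ Lb (s + 1))
    (G : Matrix ι ι K⟦X⟧) (hG : ∀ i j, Ic v (G i j))
    (hU : ∀ ρ : ℝ≥0, 0 < ρ → ρ < 1 → ∀ i j, Tz v ρ (fund G i j)) (s : ℕ) (i₀ j₀ : ι) :
    v (coeff 0 (gs G s i₀ j₀)) ≤ v (s.factorial : K) * Lb s ^ (Fintype.card ι - 1) := by
  have key : ∀ ρ : ℝ≥0, 0 < ρ → ρ < 1 → v (coeff 0 (gs G s i₀ j₀)) ≤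
      v (s.factorial : K) * (Lb s ^ (Fintype.card ι - 1) * (ρ⁻¹) ^ s) := fun ρ hρ hρ1 =>
    radius_bound v hL1 hLm hL G hG hρ hρ1 (hU ρ hρ hρ1) s i₀ j₀
  -- the limit
  refine le_of_theta fun θ hθ => ?_
  set B : ℝ≥0 := θ ^ ((1 : ℝ) / (s + 1)) with hB
  have hB1 : 1 < B := by
    rw [hB]
    exact NNReal.one_lt_rpow hθ (by positivity)
  have hBs : B ^ (s + 1) = θ := by
    rw [hB, ← NNReal.rpow_natCast, ← NNReal.rpow_mul]
    have : (1 : ℝ) / (s + 1) * ((s + 1 : ℕ) : ℝ) = 1 := by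
      push_cast; field_simp
    rw [this, NNReal.rpow_one]
  have hB0 : 0 < B := lt_trans one_pos hB1
  have h1 := key B⁻¹ (inv_pos.2 hB0) ((inv_lt_one₀ hB0).2 hB1)
  rw [inv_inv] at h1
  have h2 : B ^ s ≤ θ := by
    rw [← hBs, pow_succ]
    calc B ^ s = B ^ s * 1 := (mul_one _).symm
      _ ≤ B ^ s * B := mul_le_mul' le_rfl hB1.le
  calc v (coeff 0 (gs G s i₀ j₀)) ≤ v (s.factorial : K) * (Lb s ^ (Fintype.card ι - 1) * B ^ s) := h1
    _ ≤ v (s.factorial : K) * (Lb s ^ (Fintype.card ι - 1) * θ) := by gcongr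
    _ = _ := by ring

end Pool.Agent.Run7.h143.PC.DR
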