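import Mathlib
import Pool.Agent.N780.Sys
import Pool.Agent.Run7.h143.PC.DR5
import Pool.Agent.Run7.h143.PC.EffD

set_option autoImplicit false

/-!
The Gauss valuation of the field of rational functions at a prime `p`; systems with integer coefficients
whose generic radius of convergence is one have logarithmic growth of order at most the rank minus one.
-/

namespace Pool.Agent.Run7.h143.PC.DR

open PowerSeries Pool.Agent
open scoped NNReal

section shift

variable {K : Type*} [Field K] [CharZero K]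

/-- expansion of an integer polynomial at `c` -/
noncomputable def shK (c : K) : Polynomial ℤ →+* K⟦X⟧ :=
  Polynomial.eval₂RingHom (Int.castRingHom K⟦X⟧) (X + C c)

omit [CharZero K] in
theorem shK_X (c : K) : shK c Polynomial.X = X + C c := by
  unfold shK; simp

omit [CharZero K] in
theorem shK_C (c : K) (a : ℤ) : shK c (Polynomial.C a) = C (a : K) := by
  unfold shK; simp

omit [CharZero K] in
theorem shK_deriv (c : K) (P : Polynomial ℤ) :
    d⁄dX K (shK c P) = shK c (Polynomial.derivative P) := by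
  induction P using Polynomial.induction_on' with
  | add P Q hP hQ => rw [map_add, map_add, map_add, map_add, hP, hQ]
  | monomial k a =>
    rw [← Polynomial.C_mul_X_pow_eq_monomial, map_mul, map_pow, shK_X, shK_C,
      Polynomial.derivative_C_mul_X_pow, Derivation.leibniz, derivative_C, derivative_pow, map_add,
      derivative_X, derivative_C, map_mul, map_pow, shK_X, shK_C]
    rw [smul_zero, add_zero, add_zero, mul_one, smul_eq_mul]
    push_cast
    rw [map_mul, map_natCast]
    ring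

theorem shK_der {ι : Type*} [Fintype ι] [DecidableEq ι] (c : K) (q : Polynomial ℤ)
    (A : Matrix ι ι (Polynomial ℤ)) (Gm : Matrix ι ι K⟦X⟧) (hG : ∀ i j, shK c q * Gm i j = shK c (A i j)) (s : ℕ) :
    ∀ i j, shK c q ^ s * gs Gm s i j = shK c (N780.der q A s i j) := by
  induction s with
  | zero =>
    intro i j
    rw [pow_zero, one_mul, gs_zero, N780.der, Matrix.one_apply, Matrix.one_apply]
    split_ifs <;> simp
  | succ s ih =>
    intro i j
    have e1 : N780.der q A (s + 1) i j = q * Polynomial.derivative (N780.der q A s i j) -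
        (s : Polynomial ℤ) * Polynomial.derivative q * N780.der q A s i j +
        ∑ k, N780.der q A s i k * A k j := by
      rw [N780.der]
      simp only [Matrix.add_apply, Matrix.sub_apply, Matrix.smul_apply, Matrix.map_apply,
        Matrix.mul_apply, smul_eq_mul]
    have e2 : gs Gm (s + 1) i j = d⁄dX K (gs Gm s i j) + ∑ k, gs Gm s i k * Gm k j := by
      rw [gs_succ, Matrix.add_apply, mD_apply, Matrix.mul_apply]
    have e3 : shK c q ^ (s + 1) * d⁄dX K (gs Gm s i j) =
        shK c q * shK c (Polynomial.derivative (N780.der q A s i j)) -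
        (s : K⟦X⟧) * shK c (Polynomial.derivative q) * shK c (N780.der q A s i j) := by
      have h1 := congrArg (d⁄dX K) (ih i j)
      rw [Derivation.leibniz, smul_eq_mul, smul_eq_mul, derivative_pow, shK_deriv, shK_deriv] at h1
      rw [← h1, ← ih i j]
      rcases Nat.eq_zero_or_pos s with h0 | h0
      · subst h0; simp
      · obtain ⟨u, rfl⟩ := Nat.exists_eq_add_of_le h0
        have e : 1 + u - 1 = u := by omega
        rw [e]
        ring
    have e4 : shK c q ^ (s + 1) * ∑ k, gs Gm s i k * Gm k j = ∑ k, shK c (N780.der q A s i k) * shK c (A k j) := by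
      rw [Finset.mul_sum]
      refine Finset.sum_congr rfl fun k _ => ?_
      rw [← ih i k, ← hG k j, pow_succ]; ring
    rw [e2, mul_add, e3, e4, e1, map_add, map_sub, map_mul, map_mul, map_mul, map_natCast, map_sum]
    simp only [map_mul]


omit [CharZero K] in
theorem Ic.C' {v : Valuation K ℝ≥0} {a : K} (ha : v a ≤ 1) : Ic v (C a : K⟦X⟧) := fun s => by
  rw [coeff_C]; split_ifs
  · exact ha
  · simp

omit [CharZero K] in
theorem Ic.X' {v : Valuation K ℝ≥0} : Ic v (X : K⟦X⟧) := fun s => by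
  rw [coeff_X]; split_ifs <;> simp

omit [CharZero K] in
theorem v_int_le (v : Valuation K ℝ≥0) (a : ℤ) : v (a : K) ≤ 1 := by
  rcases Int.natAbs_eq a with h | h
  · rw [h, Int.cast_natCast]; exact v_nat_le v _
  · rw [h, Int.cast_neg, Int.cast_natCast, Valuation.map_neg]; exact v_nat_le v _

omit [CharZero K] in
theorem Ic.pow {v : Valuation K ℝ≥0} {f : K⟦X⟧} (hf : Ic v f) (n : ℕ) : Ic v (f ^ n) := by
  induction n with
  | zero => rw [pow_zero]; exact Ic.one
  | succ n ih => rw [pow_succ]; exact ih.mul hf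

omit [CharZero K] in
theorem Ic.shK {v : Valuation K ℝ≥0} {c : K} (hc : v c ≤ 1) (P : Polynomial ℤ) :
    Ic v (shK c P) := by
  induction P using Polynomial.induction_on' with
  | add P Q hP hQ => rw [map_add]; exact hP.add hQ
  | monomial k a =>
    rw [← Polynomial.C_mul_X_pow_eq_monomial, map_mul, map_pow, shK_X, shK_C]
    exact (Ic.C' (v_int_le v a)).mul ((Ic.X'.add (Ic.C' hc)).pow k)

omit [CharZero K] in
/-- the inverse of an integral series with a unit as constant coefficient -/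
theorem Ic.inv {v : Valuation K ℝ≥0} {f : K⟦X⟧} (hf : Ic v f) (h0 : v (coeff 0 f) = 1) :
    Ic v f⁻¹ := by
  have h0' : v (constantCoeff f) = 1 := by rwa [← coeff_zero_eq_constantCoeff_apply]
  intro s
  induction s using Nat.strong_induction_on with
  | _ s ih =>
    rw [coeff_inv]
    split_ifs with hs
    · rw [map_inv₀, h0', inv_one]
    · rw [map_mul, Valuation.map_neg, map_inv₀, h0', inv_one, one_mul]
      refine v.map_sum_le fun p _ => ?_
      split_ifs with hp
      · rw [map_mul]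
        exact mul_le_one' (hf _) (ih _ hp)
      · simp

omit [CharZero K] in
theorem coeff_zero_shK (c : K) (P : Polynomial ℤ) :
    coeff 0 (shK c P) = Polynomial.eval₂ (Int.castRingHom K) c P := by
  have h : (constantCoeff (R := K)).comp (shK c) = Polynomial.eval₂RingHom (Int.castRingHom K) c := by
    refine Polynomial.ringHom_ext (fun a => ?_) ?_
    · rw [RingHom.comp_apply, shK_C]; simp
    · rw [RingHom.comp_apply, shK_X]; simp
  have h2 := congrArg (fun f : Polynomial ℤ →+* K => f P) h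
  rw [coeff_zero_eq_constantCoeff_apply]
  exact h2

end shift

/-! ### the Gauss valuation -/

section gauss

variable (p : ℕ) [hp : Fact p.Prime]

theorem prime_p : Prime ((p : ℕ) : Polynomial ℤ) := by
  have h : ((p : ℕ) : Polynomial ℤ) = Polynomial.C (p : ℤ) := by simp
  rw [h, Polynomial.prime_C_iff]
  exact Nat.prime_iff_prime_int.1 hp.out

theorem fm {P : Polynomial ℤ} (h : P ≠ 0) : FiniteMultiplicity ((p : ℕ) : Polynomial ℤ) P :=
  FiniteMultiplicity.of_not_isUnit (prime_p p).not_unit h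

open Classical in
/-- the Gauss norm -/
noncomputable def gn (P : Polynomial ℤ) : ℝ≥0 :=
  if P = 0 then 0 else ((p : ℝ≥0)⁻¹) ^ multiplicity ((p : ℕ) : Polynomial ℤ) P

theorem pinv_pos : 0 < (p : ℝ≥0)⁻¹ := by
  have : 0 < (p : ℝ≥0) := by exact_mod_cast hp.out.pos
  positivity

theorem pinv_lt : (p : ℝ≥0)⁻¹ < 1 := by
  have h1 : (1 : ℝ≥0) < p := by exact_mod_cast hp.out.one_lt
  exact inv_lt_one_of_one_lt₀ h1

theorem gn_le_iff (P : Polynomial ℤ) (k : ℕ) :
    gn p P ≤ ((p : ℝ≥0)⁻¹) ^ k ↔ ((p ^ k : ℕ) : Polynomial ℤ) ∣ P := by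
  unfold gn
  push_cast
  split_ifs with h
  · rw [h]; simp
  · rw [(fm p h).pow_dvd_iff_le_multiplicity]
    exact pow_le_pow_iff_right_of_lt_one₀ (pinv_pos p) (pinv_lt p)

theorem gn_pos {P : Polynomial ℤ} (h : P ≠ 0) : 0 < gn p P := by
  unfold gn
  rw [if_neg h]
  exact pow_pos (pinv_pos p) _

/-- the Gauss valuation of the polynomials -/
noncomputable def gvp : Valuation (Polynomial ℤ) ℝ≥0 where
  toFun := gn p
  map_zero' := by unfold gn; rw [if_pos rfl]
  map_one' := by
    unfold gn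
    have h1 : multiplicity ((p : ℕ) : Polynomial ℤ) 1 < 1 := by
      rw [(fm p one_ne_zero).multiplicity_lt_iff_not_dvd, pow_one]
      exact fun h => (prime_p p).not_unit (isUnit_of_dvd_one h)
    have h2 : multiplicity ((p : ℕ) : Polynomial ℤ) 1 = 0 := by omega
    rw [if_neg one_ne_zero, h2, pow_zero]
  map_mul' P Q := by
    rcases eq_or_ne P 0 with h | h
    · unfold gn; rw [h, zero_mul, if_pos rfl, zero_mul]
    rcases eq_or_ne Q 0 with h' | h'
    · unfold gn; rw [h', mul_zero, if_pos rfl, mul_zero]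
    unfold gn
    rw [if_neg h, if_neg h', if_neg (mul_ne_zero h h'),
      multiplicity_mul (prime_p p) (fm p (mul_ne_zero h h')), pow_add]
  map_add_le_max' P Q := by
    rcases eq_or_ne P 0 with h | h
    · rw [h, zero_add]; exact le_max_right _ _
    rcases eq_or_ne Q 0 with h' | h'
    · rw [h', add_zero]; exact le_max_left _ _
    rcases le_total (gn p P) (gn p Q) with h1 | h1
    · rw [max_eq_right h1]
      have e : gn p Q = ((p : ℝ≥0)⁻¹) ^ multiplicity ((p : ℕ) : Polynomial ℤ) Q := by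
        unfold gn; rw [if_neg h']
      have h2 := (gn_le_iff p Q _).1 e.le
      rw [e] at h1
      have h3 := (gn_le_iff p P _).1 h1
      rw [e]
      exact (gn_le_iff p _ _).2 (dvd_add h3 h2)
    · rw [max_eq_left h1]
      have e : gn p P = ((p : ℝ≥0)⁻¹) ^ multiplicity ((p : ℕ) : Polynomial ℤ) P := by
        unfold gn; rw [if_neg h]
      have h2 := (gn_le_iff p P _).1 e.le
      rw [e] at h1
      have h3 := (gn_le_iff p Q _).1 h1
      rw [e]
      exact (gn_le_iff p _ _).2 (dvd_add h2 h3)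

theorem gvp_supp : nonZeroDivisors (Polynomial ℤ) ≤ (gvp p).supp.primeCompl := by
  intro f hf
  have h0 : f ≠ 0 := nonZeroDivisors.ne_zero hf
  intro h
  rw [SetLike.mem_coe, Valuation.mem_supp_iff] at h
  exact (gn_pos p h0).ne' h

/-- the field of rational functions -/
abbrev QX := FractionRing (Polynomial ℤ)

/-- the Gauss valuation of the rational functions -/
noncomputable def gvQ : Valuation QX ℝ≥0 := (gvp p).extendToLocalization (gvp_supp p) QX

theorem gvQ_alg (P : Polynomial ℤ) : gvQ p (algebraMap _ QX P) = gn p P := by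
  unfold gvQ
  rw [Valuation.extendToLocalization_apply_map_apply]; rfl

instance : CharZero QX :=
  charZero_of_injective_algebraMap (IsFractionRing.injective (Polynomial ℤ) QX)

theorem eval_alg (P : Polynomial ℤ) :
    Polynomial.eval₂ (Int.castRingHom QX) (algebraMap (Polynomial ℤ) QX Polynomial.X) P =
      algebraMap _ QX P := by
  have h : Polynomial.eval₂RingHom (Int.castRingHom QX) (algebraMap (Polynomial ℤ) QX Polynomial.X) =
      algebraMap (Polynomial ℤ) QX := by
    refine Polynomial.ringHom_ext (fun a => ?_) ?_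
    · simp
    · simp
  exact congrArg (fun f : Polynomial ℤ →+* QX => f P) h

/-- the norm of a natural number -/
theorem gn_natCast {n : ℕ} (hn : n ≠ 0) : gn p (n : Polynomial ℤ) = ((p : ℝ≥0)⁻¹) ^ padicValNat p n := by
  have hdvd : ∀ k : ℕ, ((p ^ k : ℕ) : Polynomial ℤ) ∣ ((n : ℕ) : Polynomial ℤ) ↔ p ^ k ∣ n := by
    intro k
    constructor
    · rintro ⟨P, hP⟩
      have h1 := congrArg (fun Q : Polynomial ℤ => Q.coeff 0) hP
      have e : ∀ m : ℕ, ((m : ℕ) : Polynomial ℤ) = Polynomial.C (m : ℤ) := fun m => by simp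
      simp only [e, Polynomial.coeff_C_mul, Polynomial.coeff_C_zero] at h1
      exact_mod_cast (show ((p ^ k : ℕ) : ℤ) ∣ (n : ℤ) from ⟨_, h1⟩)
    · rintro ⟨m, hm⟩
      exact ⟨(m : Polynomial ℤ), by rw [hm]; push_cast; ring⟩
  have hn0 : ((n : ℕ) : Polynomial ℤ) ≠ 0 := by exact_mod_cast hn
  unfold gn
  rw [if_neg hn0]
  congr 1
  refine le_antisymm ?_ ?_
  · by_contra hcon
    push Not at hcon
    have h1 := (fm p hn0).pow_dvd_iff_le_multiplicity.2 hcon
    have h2 := (hdvd (padicValNat p n + 1)).1 (by push_cast; exact h1)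
    exact pow_succ_padicValNat_not_dvd hn h2
  · refine (fm p hn0).pow_dvd_iff_le_multiplicity.1 ?_
    have := (hdvd (padicValNat p n)).2 pow_padicValNat_dvd
    push_cast at this
    exact this

end gauss

theorem pow_aux {p : ℝ≥0} (hp1 : 1 ≤ p) (V e : ℕ) : (p⁻¹) ^ (V - e) ≤ p ^ e * (p⁻¹) ^ V := by
  have hp0 : p ≠ 0 := (lt_of_lt_of_le one_pos hp1).ne'
  have h1 : ∀ k : ℕ, p ^ k * (p⁻¹) ^ k = 1 := fun k => by
    rw [← mul_pow, mul_inv_cancel₀ hp0, one_pow]
  rcases Nat.le_total e V with h | h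
  · obtain ⟨m, rfl⟩ := Nat.exists_eq_add_of_le h
    rw [Nat.add_sub_cancel_left, pow_add, ← mul_assoc, h1, one_mul]
  · rw [Nat.sub_eq_zero_of_le h, pow_zero]
    obtain ⟨m, rfl⟩ := Nat.exists_eq_add_of_le h
    rw [pow_add, mul_right_comm, h1, one_mul]
    exact one_le_pow₀ hp1

/-- the generic radius of convergence is one -/
def RadOne {R : Type*} [CommRing R] {ι : Type*} [Fintype ι] [DecidableEq ι]
    (q : Polynomial R) (A : Matrix ι ι (Polynomial R)) (p : ℕ) : Prop :=
  ∀ N : ℕ, ∃ Cn : ℕ, ∀ s i j,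
    ((p ^ (padicValNat p s.factorial - (s / (N + 1) + Cn)) : ℕ) : Polynomial R) ∣ N780.der q A s i j

/-- **generic radius one implies logarithmic growth** -/
theorem logGr_of_radOne {ι : Type*} [Fintype ι] [DecidableEq ι] {q : Polynomial ℤ}
    {A : Matrix ι ι (Polynomial ℤ)} {p : ℕ} (hp : p.Prime) (hq : ¬ ((p : ℕ) : Polynomial ℤ) ∣ q)
    (hR : RadOne q A p) : LogGr q A p (Fintype.card ι - 1) := by
  have := Fact.mk hp
  set v := gvQ p with hv
  set x : QX := algebraMap (Polynomial ℤ) QX Polynomial.X with hx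
  have hvx : v x ≤ 1 := by
    rw [hv, hx, gvQ_alg]
    have := (gn_le_iff p Polynomial.X 0).2 (by simp)
    rwa [pow_zero] at this
  have hvP : ∀ P : Polynomial ℤ, v (coeff 0 (shK x P)) = gn p P := by
    intro P
    rw [coeff_zero_shK, hx, eval_alg, hv, gvQ_alg]
  have hvq : v (coeff 0 (shK x q)) = 1 := by
    rw [hvP]
    refine le_antisymm ?_ ?_
    · have := (gn_le_iff p q 0).2 (by simp)
      rwa [pow_zero] at this
    · by_contra hcon
      push Not at hcon
      have hq0 : q ≠ 0 := by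
        rintro rfl
        exact hq (dvd_zero _)
      have e : gn p q = ((p : ℝ≥0)⁻¹) ^ multiplicity ((p : ℕ) : Polynomial ℤ) q := by
        unfold gn; rw [if_neg hq0]
      rw [e] at hcon
      have h1 : multiplicity ((p : ℕ) : Polynomial ℤ) q ≠ 0 := by
        intro h0
        rw [h0, pow_zero] at hcon
        exact lt_irrefl _ hcon
      have h2 : gn p q ≤ ((p : ℝ≥0)⁻¹) ^ 1 := by
        rw [e]
        exact pow_le_pow_right_of_le_one' (pinv_lt p).le (by omega)
      have h3 := (gn_le_iff p q 1).1 h2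
      rw [pow_one] at h3
      exact hq h3
  set G : Matrix ι ι QX⟦X⟧ := fun i j => (shK x q)⁻¹ * shK x (A i j) with hG
  have hq0 : constantCoeff (shK x q) ≠ 0 := by
    rw [← coeff_zero_eq_constantCoeff_apply]
    intro h0
    rw [h0, map_zero] at hvq
    exact zero_ne_one hvq
  have hGq : ∀ i j, shK x q * G i j = shK x (A i j) := by
    intro i j
    rw [hG, ← mul_assoc, PowerSeries.mul_inv_cancel _ hq0, one_mul]
  have hGI : ∀ i j, Ic v (G i j) := fun i j =>
    ((Ic.shK hvx q).inv hvq).mul (Ic.shK hvx (A i j))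
  have hgs : ∀ s i j, v (coeff 0 (gs G s i j)) = gn p (N780.der q A s i j) := by
    intro s i j
    have h1 := shK_der x q A G hGq s i j
    have h2 : v (coeff 0 (shK x q ^ s * gs G s i j)) =
        v (coeff 0 (shK x (N780.der q A s i j))) := by rw [h1]
    rw [hvP, c0_mul, map_mul, coeff_zero_eq_constantCoeff_apply, map_pow, map_pow,
      ← coeff_zero_eq_constantCoeff_apply, hvq, one_pow, one_mul] at h2
    exact h2
  have hvn : ∀ n : ℕ, n ≠ 0 → v ((n : ℕ) : QX) = ((p : ℝ≥0)⁻¹) ^ padicValNat p n := by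
    intro n hn
    have e : ((n : ℕ) : QX) = algebraMap (Polynomial ℤ) QX (n : Polynomial ℤ) := by
      rw [map_natCast]
    rw [e, hv, gvQ_alg, gn_natCast p hn]
  have hp0 : (0 : ℝ≥0) < p := by exact_mod_cast hp.pos
  have hp1 : (1 : ℝ≥0) ≤ p := by exact_mod_cast hp.one_lt.le
  -- the solutions converge
  have hU : ∀ ρ : ℝ≥0, 0 < ρ → ρ < 1 → ∀ i j, Tz v ρ (fund G i j) := by
    intro ρ hρ hρ1 i j ε hε
    obtain ⟨N, hN⟩ : ∃ N : ℕ, (p : ℝ≥0) * ρ ^ (N + 1) < 1 := by
      obtain ⟨N, hN⟩ := NNReal.exists_pow_lt_of_lt_one (inv_pos.2 hp0) hρ1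
      refine ⟨N, ?_⟩
      have h1 : ρ ^ (N + 1) < (p : ℝ≥0)⁻¹ :=
        lt_of_le_of_lt (pow_le_pow_right_of_le_one' hρ1.le (Nat.le_succ N)) hN
      calc (p : ℝ≥0) * ρ ^ (N + 1) < p * (p : ℝ≥0)⁻¹ := by gcongr
        _ = 1 := mul_inv_cancel₀ hp0.ne'
    obtain ⟨Cn, hC⟩ := hR N
    obtain ⟨M, hM⟩ := NNReal.exists_pow_lt_of_lt_one
      (show 0 < ε / (p : ℝ≥0) ^ Cn by positivity) hN
    refine ⟨(N + 1) * M, fun s hs => ?_⟩
    have hfac : v ((s.factorial : ℕ) : QX) = ((p : ℝ≥0)⁻¹) ^ padicValNat p s.factorial :=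
      hvn _ s.factorial_ne_zero
    have h1 : v (coeff s (fund G i j)) ≤ (p : ℝ≥0) ^ (s / (N + 1) + Cn) := by
      rw [coeff_fund, map_div₀, hgs, hfac]
      have h2 := (gn_le_iff p _ _).2 (hC s i j)
      rw [div_le_iff₀ (pow_pos (pinv_pos p) _)]
      exact h2.trans (pow_aux hp1 _ _)
    have h3 : ρ ^ s ≤ (ρ ^ (N + 1)) ^ (s / (N + 1)) := by
      rw [← pow_mul]
      exact pow_le_pow_right_of_le_one' hρ1.le (Nat.mul_div_le _ _)
    have h4 : M ≤ s / (N + 1) := by
      rw [Nat.le_div_iff_mul_le (Nat.succ_pos N), Nat.mul_comm]; exact hs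
    unfold tm
    calc v (coeff s (fund G i j)) * ρ ^ s
        ≤ (p : ℝ≥0) ^ (s / (N + 1) + Cn) * (ρ ^ (N + 1)) ^ (s / (N + 1)) := mul_le_mul' h1 h3
      _ = (p : ℝ≥0) ^ Cn * ((p : ℝ≥0) * ρ ^ (N + 1)) ^ (s / (N + 1)) := by
          rw [pow_add, mul_pow]; ring
      _ ≤ (p : ℝ≥0) ^ Cn * ((p : ℝ≥0) * ρ ^ (N + 1)) ^ M :=
          mul_le_mul' le_rfl (pow_le_pow_right_of_le_one' hN.le h4)
      _ ≤ (p : ℝ≥0) ^ Cn * (ε / (p : ℝ≥0) ^ Cn) := mul_le_mul' le_rfl hM.le
      _ = ε := by field_simp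
  -- the conclusion
  set Lb : ℕ → ℝ≥0 := fun s => (p : ℝ≥0) ^ Nat.log p s with hLb
  have hmain := dwork_robba v (Lb := Lb) (fun s => one_le_pow₀ hp1)
    (fun s t hst => pow_le_pow_right₀ hp1 (Nat.log_mono_right hst)) (fun s => by
      rw [hvn (s + 1) (Nat.succ_ne_zero s), inv_pow, inv_inv, hLb]
      exact pow_le_pow_right₀ hp1 (padicValNat_le_nat_log _)) G hGI hU
  intro s i j
  rw [← gn_le_iff]
  have h1 := hmain s i j
  rw [hgs, hvn _ s.factorial_ne_zero] at h1
  rcases Nat.le_total ((Fintype.card ι - 1) * Nat.log p s) (padicValNat p s.factorial) with h | h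
  · refine h1.trans (le_of_eq ?_)
    rw [hLb]
    simp only
    obtain ⟨m, hm⟩ := Nat.exists_eq_add_of_le h
    have h5 : ((p : ℝ≥0)⁻¹) ^ ((Fintype.card ι - 1) * Nat.log p s) *
        (p : ℝ≥0) ^ ((Fintype.card ι - 1) * Nat.log p s) = 1 := by
      rw [← mul_pow, inv_mul_cancel₀ hp0.ne', one_pow]
    rw [← pow_mul, hm, Nat.add_sub_cancel_left, pow_add, Nat.mul_comm (Nat.log p s),
      mul_right_comm, h5, one_mul]
  · rw [Nat.sub_eq_zero_of_le h]
    exact (gn_le_iff p _ 0).2 (by simp)

end Pool.Agent.Run7.h143.PC.DR
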