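import Mathlib
import Pool.Agent.Run7.h143.PC.DR6

set_option autoImplicit false

/-!
The Gauss valuation and the matrices `D_s`: vanishing `p`-curvature, and the theorem of Dwork and Robba for an
arbitrary radius.
-/

namespace Pool.Agent.Run7.h143.PC.DR

open PowerSeries Matrix Pool.Agent
open scoped NNReal

section bounds

variable {K : Type*} [Field K] [CharZero K] {v : Valuation K ℝ≥0}

/-- all coefficients are bounded by `c` -/
def Ib (v : Valuation K ℝ≥0) (c : ℝ≥0) (f : K⟦X⟧) : Prop := ∀ s, v (coeff s f) ≤ c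

omit [CharZero K] in
theorem Ib.add {c : ℝ≥0} {f g : K⟦X⟧} (hf : Ib v c f) (hg : Ib v c g) : Ib v c (f + g) := fun s => by
  rw [map_add]; exact v.map_add_le (hf s) (hg s)

omit [CharZero K] in
theorem Ib.sum {c : ℝ≥0} {α : Type*} (t : Finset α) {f : α → K⟦X⟧} (hf : ∀ a ∈ t, Ib v c (f a)) :
    Ib v c (∑ a ∈ t, f a) := fun s => by
  rw [map_sum]
  exact v.map_sum_le fun a ha => hf a ha s

omit [CharZero K] in
theorem Ib.mul {c c' : ℝ≥0} {f g : K⟦X⟧} (hf : Ib v c f) (hg : Ib v c' g) : Ib v (c * c') (f * g) :=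
  fun s => by
  rw [coeff_mul]
  refine v.map_sum_le fun p _ => ?_
  rw [map_mul]
  exact mul_le_mul' (hf _) (hg _)

omit [CharZero K] in
theorem Ib.mono {c c' : ℝ≥0} {f : K⟦X⟧} (hf : Ib v c f) (h : c ≤ c') : Ib v c' f :=
  fun s => (hf s).trans h

omit [CharZero K] in
theorem Ib.C {a : K} : Ib v (v a) (C a : K⟦X⟧) := fun s => by
  rw [coeff_C]; split_ifs
  · exact le_rfl
  · rw [map_zero]; exact zero_le

omit [CharZero K] in
theorem Ib.hd {c : ℝ≥0} {f : K⟦X⟧} (hf : Ib v c f) (s : ℕ) : Ib v c (hd s f) := fun k => by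
  rw [coeff_hd, map_mul]
  calc v ((k + s).choose s : K) * v (coeff (k + s) f) ≤ 1 * c := mul_le_mul' (v_nat_le v _) (hf _)
    _ = c := one_mul c

theorem iter_deriv (s : ℕ) (f : K⟦X⟧) : (d⁄dX K)^[s] f = C (s.factorial : K) * hd s f := by
  induction s generalizing f with
  | zero => simp [hd_zero]
  | succ s ih =>
    rw [Function.iterate_succ_apply, ih, ← hd_succ, Nat.factorial_succ, ← mul_assoc, natCast_eq_C,
      ← map_mul]
    congr 2
    push_cast
    ring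

theorem Ib.iter {c : ℝ≥0} {f : K⟦X⟧} (hf : Ib v c f) (s : ℕ) :
    Ib v (v (s.factorial : K) * c) ((d⁄dX K)^[s] f) := by
  rw [iter_deriv]
  exact Ib.C.mul (hf.hd s)

end bounds

section level

variable {K : Type*} [Field K] [CharZero K] {v : Valuation K ℝ≥0}
variable {ι : Type*} [Fintype ι] [DecidableEq ι]

/-- the powers of `p` in the matrices `G_s`, if the `p`-curvature is zero -/
theorem level_one {p : ℕ} (hp : p.Prime) {G : Matrix ι ι K⟦X⟧} (hG : ∀ i j, Ic v (G i j))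
    (h1 : ∀ i j, Ib v (v (p : K)) (gs G p i j)) (s : ℕ) :
    ∀ i j, Ib v (v (p : K) ^ (s / p)) (gs G s i j) := by
  induction s using Nat.strong_induction_on with
  | _ s ih =>
    rcases Nat.lt_or_ge s p with hs | hs
    · intro i j
      rw [Nat.div_eq_of_lt hs, pow_zero]
      exact Ic.gs hG s i j
    · obtain ⟨t, rfl⟩ : ∃ t, s = p + t := ⟨s - p, by omega⟩
      have ht := ih t (by have := hp.pos; omega)
      have e1 : (p + t) / p = t / p + 1 := by
        rw [Nat.add_comm, Nat.add_div_right _ hp.pos]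
      have e2 : gs G (p + t) = (dl G)^[p] (gs G t) := by
        unfold gs; rw [Function.iterate_add_apply]
      intro i j
      rw [e1, e2, leib, Matrix.sum_apply]
      refine Ib.sum _ fun x hx => ?_
      rw [Finset.HasAntidiagonal.mem_antidiagonal] at hx
      rw [Matrix.smul_apply, Matrix.mul_apply]
      have hcast : (p.choose x.1 • ∑ l, ((mD)^[x.1] (gs G t)) i l * gs G x.2 l j) =
          C (p.choose x.1 : K) * ∑ l, ((mD)^[x.1] (gs G t)) i l * gs G x.2 l j := by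
        rw [nsmul_eq_mul]; simp
      rw [hcast]
      have hterm : ∀ l, Ib v (v (x.1.factorial : K) * v (p : K) ^ (t / p))
          (((mD)^[x.1] (gs G t)) i l) := by
        intro l
        rw [iter_mD_apply]
        exact (ht i l).iter _
      by_cases h0 : x.1 = 0
      · have h2 : x.2 = p := by omega
        have h3 : Ib v (v (p.choose x.1 : K) * (v (p : K) ^ (t / p) * v (p : K)))
            (C (p.choose x.1 : K) * ∑ l, ((mD)^[x.1] (gs G t)) i l * gs G x.2 l j) := by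
          refine Ib.C.mul (Ib.sum _ fun l _ => ?_)
          refine Ib.mul ?_ (by rw [h2]; exact h1 l j)
          refine (hterm l).mono ?_
          rw [h0]; simp
        refine h3.mono ?_
        rw [h0, pow_succ]; simp
      · have h3 : Ib v (v (p.choose x.1 : K) * (v (x.1.factorial : K) * v (p : K) ^ (t / p) * 1))
            (C (p.choose x.1 : K) * ∑ l, ((mD)^[x.1] (gs G t)) i l * gs G x.2 l j) := by
          refine Ib.C.mul (Ib.sum _ fun l _ => ?_)
          exact (hterm l).mul (Ic.gs hG _ l j)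
        refine h3.mono ?_
        have h4 : v (p.choose x.1 : K) * v (x.1.factorial : K) ≤ v (p : K) := by
          have h5 : p ∣ p.choose x.1 * x.1.factorial := by
            rcases Nat.lt_or_ge x.1 p with hlt | hge
            · exact Dvd.dvd.mul_right (hp.dvd_choose_self h0 hlt) _
            · exact Dvd.dvd.mul_left (hp.dvd_factorial.2 hge) _
          obtain ⟨u, hu⟩ := h5
          rw [← map_mul]
          have h6 : ((p.choose x.1 : K) * (x.1.factorial : K)) = (p : K) * (u : K) := by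
            exact_mod_cast hu
          rw [h6, map_mul]
          calc v (p : K) * v (u : K) ≤ v (p : K) * 1 := mul_le_mul' le_rfl (v_nat_le v u)
            _ = _ := mul_one _
        calc v (p.choose x.1 : K) * (v (x.1.factorial : K) * v (p : K) ^ (t / p) * 1)
            = (v (p.choose x.1 : K) * v (x.1.factorial : K)) * v (p : K) ^ (t / p) := by ring
          _ ≤ v (p : K) * v (p : K) ^ (t / p) := mul_le_mul' h4 le_rfl
          _ = _ := by rw [pow_succ]; ring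

end level

section gauss

variable {ι : Type*} [Fintype ι] [DecidableEq ι]

theorem gvQ_natCast {p : ℕ} (hp : Fact p.Prime) {n : ℕ} (hn : n ≠ 0) :
    gvQ p ((n : ℕ) : QX) = ((p : ℝ≥0)⁻¹) ^ padicValNat p n := by
  have e : ((n : ℕ) : QX) = algebraMap (Polynomial ℤ) QX (n : Polynomial ℤ) := by
    rw [map_natCast]
  rw [e, gvQ_alg, gn_natCast p hn]

/-- the generic point -/
theorem setup {p : ℕ} (hp : Fact p.Prime) {q : Polynomial ℤ} (hq : ¬ ((p : ℕ) : Polynomial ℤ) ∣ q)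
    (A : Matrix ι ι (Polynomial ℤ)) :
    ∃ G : Matrix ι ι QX⟦X⟧, (∀ i j, Ic (gvQ p) (G i j)) ∧
      (∀ s i j, gvQ p (coeff 0 (gs G s i j)) = gn p (N780.der q A s i j)) ∧
      (∀ s i j e, ((p ^ e : ℕ) : Polynomial ℤ) ∣ N780.der q A s i j →
        Ib (gvQ p) (((p : ℝ≥0)⁻¹) ^ e) (gs G s i j)) := by
  obtain ⟨v, hv⟩ : ∃ v, v = gvQ p := ⟨_, rfl⟩
  rw [← hv]
  obtain ⟨x, hx⟩ : ∃ x : QX, x = algebraMap (Polynomial ℤ) QX Polynomial.X := ⟨_, rfl⟩
  have hvx : v x ≤ 1 := by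
    rw [hv, hx, gvQ_alg]
    have := (gn_le_iff p Polynomial.X 0).2 (by simp)
    rwa [pow_zero] at this
  have hvP : ∀ P : Polynomial ℤ, v (coeff 0 (shK x P)) = gn p P := by
    intro P
    rw [coeff_zero_shK, hx, eval_alg, hv, gvQ_alg]
  have hvq : v (coeff 0 (shK x q)) = 1 := by
    rw [hvP]
    refine le_antisymm ?_ ?_
    · have := (gn_le_iff p q 0).2 (by simp)
      rwa [pow_zero] at this
    · by_contra hcon
      push Not at hcon
      have hq0 : q ≠ 0 := by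
        rintro rfl
        exact hq (dvd_zero _)
      have e : gn p q = ((p : ℝ≥0)⁻¹) ^ multiplicity ((p : ℕ) : Polynomial ℤ) q := by
        unfold gn; rw [if_neg hq0]
      rw [e] at hcon
      have h1 : multiplicity ((p : ℕ) : Polynomial ℤ) q ≠ 0 := by
        intro h0
        rw [h0, pow_zero] at hcon
        exact lt_irrefl _ hcon
      have h2 : gn p q ≤ ((p : ℝ≥0)⁻¹) ^ 1 := by
        rw [e]
        exact pow_le_pow_right_of_le_one' (pinv_lt p).le (by omega)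
      have h3 := (gn_le_iff p q 1).1 h2
      rw [pow_one] at h3
      exact hq h3
  obtain ⟨G, hG⟩ : ∃ G : Matrix ι ι QX⟦X⟧, G = fun i j => (shK x q)⁻¹ * shK x (A i j) := ⟨_, rfl⟩
  have hq0 : constantCoeff (shK x q) ≠ 0 := by
    rw [← coeff_zero_eq_constantCoeff_apply]
    intro h0
    rw [h0, map_zero] at hvq
    exact zero_ne_one hvq
  have hGq : ∀ i j, shK x q * G i j = shK x (A i j) := by
    intro i j
    rw [hG, ← mul_assoc, PowerSeries.mul_inv_cancel _ hq0, one_mul]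
  have hinvI : Ic v (shK x q)⁻¹ := (Ic.shK hvx q).inv hvq
  have hGI : ∀ i j, Ic v (G i j) := fun i j => by
    rw [hG]
    exact hinvI.mul (Ic.shK hvx (A i j))
  refine ⟨G, hGI, ?_, ?_⟩
  · intro s i j
    have h1 := shK_der x q A G hGq s i j
    have h2 : v (coeff 0 (shK x q ^ s * gs G s i j)) =
        v (coeff 0 (shK x (N780.der q A s i j))) := by rw [h1]
    rw [hvP, c0_mul, map_mul, coeff_zero_eq_constantCoeff_apply, map_pow, map_pow,
      ← coeff_zero_eq_constantCoeff_apply, hvq, one_pow, one_mul] at h2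
    exact h2
  · rintro s i j e ⟨R, hR⟩
    have h1 := shK_der x q A G hGq s i j
    have h2 : gs G s i j = (shK x q)⁻¹ ^ s * (C ((p ^ e : ℕ) : QX) * shK x R) := by
      have h3 : shK x (N780.der q A s i j) = C ((p ^ e : ℕ) : QX) * shK x R := by
        rw [hR, map_mul, map_natCast, natCast_eq_C]
      rw [← h3, ← h1, ← mul_assoc, ← mul_pow, PowerSeries.inv_mul_cancel _ hq0, one_pow, one_mul]
    rw [h2]
    have h3 : Ib v (1 * (v ((p ^ e : ℕ) : QX) * 1))
        ((shK x q)⁻¹ ^ s * (C ((p ^ e : ℕ) : QX) * shK x R)) :=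
      Ib.mul (hinvI.pow s) (Ib.C.mul (Ic.shK hvx R))
    refine h3.mono (le_of_eq ?_)
    rw [one_mul, mul_one, hv, gvQ_natCast hp (pow_ne_zero _ hp.out.ne_zero), padicValNat.prime_pow]

/-- vanishing `p`-curvature -/
theorem dvd_of_curv {p : ℕ} (hp : p.Prime) {q : Polynomial ℤ} (hq : ¬ ((p : ℕ) : Polynomial ℤ) ∣ q)
    (A : Matrix ι ι (Polynomial ℤ)) (h1 : ∀ i j, ((p : ℕ) : Polynomial ℤ) ∣ N780.der q A p i j)
    (s : ℕ) (i j : ι) : ((p ^ (s / p) : ℕ) : Polynomial ℤ) ∣ N780.der q A s i j := by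
  have hf : Fact p.Prime := ⟨hp⟩
  obtain ⟨G, hGI, hG0, hGd⟩ := setup hf hq A
  have hvp : gvQ p ((p : ℕ) : QX) = (p : ℝ≥0)⁻¹ := by
    rw [gvQ_natCast hf hp.ne_zero, padicValNat_self, pow_one]
  have h2 : ∀ i j, Ib (gvQ p) (gvQ p ((p : ℕ) : QX)) (gs G p i j) := by
    intro i j
    have := hGd p i j 1 (by rw [pow_one]; exact h1 i j)
    rwa [pow_one, ← hvp] at this
  have h3 := level_one hp hGI h2 s i j 0
  rw [hG0, hvp, gn_le_iff] at h3
  exact h3

/-- the generic radius of convergence at `p` is at least `p^(-g)` -/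
def RadG {R : Type*} [CommRing R] {ι : Type*} [Fintype ι] [DecidableEq ι]
    (q : Polynomial R) (A : Matrix ι ι (Polynomial R)) (N₀ p : ℕ) (g : ℝ) : Prop :=
  ∀ ε : ℝ, 0 < ε → ∃ Cn : ℕ, ∀ (s : ℕ) (i j : ι),
    ((p ^ (padicValNat p (s.factorial * N₀ ^ s) - (⌊(g + ε) * (s : ℝ)⌋₊ + Cn)) : ℕ) : Polynomial R) ∣
      N780.der q A s i j

/-- rate `g` and logarithmic growth of order `r` -/
def Grow {R : Type*} [CommRing R] {ι : Type*} [Fintype ι] [DecidableEq ι]
    (q : Polynomial R) (A : Matrix ι ι (Polynomial R)) (p : ℕ) (g : ℝ) (r : ℕ) : Prop :=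
  ∀ (s : ℕ) (i j : ι),
    ((p ^ (padicValNat p s.factorial - (⌊g * (s : ℝ)⌋₊ + r * Nat.log p s)) : ℕ) : Polynomial R) ∣
      N780.der q A s i j

theorem rpow_natCast_neg {p : ℝ≥0} (x : ℝ) (s : ℕ) : (p ^ (-x)) ^ s = p ^ (-(x * s)) := by
  rw [← NNReal.rpow_natCast, ← NNReal.rpow_mul]
  congr 1; ring

/-- **Dwork and Robba for an arbitrary radius** -/
theorem grow_of_rad {p : ℕ} (hp : p.Prime) {q : Polynomial ℤ}
    (hq : ¬ ((p : ℕ) : Polynomial ℤ) ∣ q) {A : Matrix ι ι (Polynomial ℤ)} {N₀ : ℕ}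
    (hN : ¬ p ∣ N₀) {g : ℝ} (hg : 0 ≤ g) (hR : RadG q A N₀ p g) :
    Grow q A p g (Fintype.card ι - 1) := by
  have hf : Fact p.Prime := ⟨hp⟩
  have hN0 : N₀ ≠ 0 := by
    rintro rfl
    exact hN (dvd_zero p)
  obtain ⟨G, hGI, hG0, -⟩ := setup hf hq A
  have hp0 : (0 : ℝ≥0) < p := by exact_mod_cast hp.pos
  have hpne : (p : ℝ≥0) ≠ 0 := hp0.ne'
  have hp1 : (1 : ℝ≥0) ≤ p := by exact_mod_cast hp.one_lt.le
  have hp1' : (1 : ℝ≥0) < p := by exact_mod_cast hp.one_lt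
  have hval : ∀ s : ℕ, padicValNat p (s.factorial * N₀ ^ s) = padicValNat p s.factorial := by
    intro s
    rw [padicValNat.mul s.factorial_ne_zero (pow_ne_zero _ hN0),
      padicValNat.eq_zero_of_not_dvd fun h => hN (hp.dvd_of_dvd_pow h), add_zero]
  -- convergence
  have hU : ∀ η : ℝ, 0 < η → ∀ i j, Tz (gvQ p) ((p : ℝ≥0) ^ (-(g + η))) (fund G i j) := by
    intro η hη i j ε hε
    obtain ⟨Cn, hC⟩ := hR (η / 2) (by positivity)
    have hlt : (p : ℝ≥0) ^ (-(η / 2)) < 1 := NNReal.rpow_lt_one_of_one_lt_of_neg hp1' (by linarith)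
    obtain ⟨M, hM⟩ := NNReal.exists_pow_lt_of_lt_one
      (show 0 < ε / (p : ℝ≥0) ^ Cn by positivity) hlt
    refine ⟨M, fun s hs => ?_⟩
    have hfac : gvQ p ((s.factorial : ℕ) : QX) = ((p : ℝ≥0)⁻¹) ^ padicValNat p s.factorial :=
      gvQ_natCast hf s.factorial_ne_zero
    have h1 : gvQ p (coeff s (fund G i j)) ≤ (p : ℝ≥0) ^ (⌊(g + η / 2) * s⌋₊ + Cn) := by
      rw [coeff_fund, map_div₀, hG0, hfac]
      have h2 := (gn_le_iff p _ _).2 (hC s i j)
      rw [hval] at h2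
      rw [div_le_iff₀ (pow_pos (pinv_pos p) _)]
      exact h2.trans (pow_aux hp1 _ _)
    have h2 : (p : ℝ≥0) ^ ⌊(g + η / 2) * s⌋₊ ≤ (p : ℝ≥0) ^ ((g + η / 2) * s) := by
      rw [← NNReal.rpow_natCast]
      exact NNReal.rpow_le_rpow_of_exponent_le hp1 (Nat.floor_le (by positivity))
    unfold tm
    calc gvQ p (coeff s (fund G i j)) * ((p : ℝ≥0) ^ (-(g + η))) ^ s
        ≤ (p : ℝ≥0) ^ (⌊(g + η / 2) * s⌋₊ + Cn) * ((p : ℝ≥0) ^ (-(g + η))) ^ s :=
          mul_le_mul' h1 le_rfl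
      _ ≤ ((p : ℝ≥0) ^ ((g + η / 2) * s) * (p : ℝ≥0) ^ Cn) * ((p : ℝ≥0) ^ (-((g + η) * s))) := by
          rw [pow_add, rpow_natCast_neg]
          exact mul_le_mul' (mul_le_mul' h2 le_rfl) le_rfl
      _ = (p : ℝ≥0) ^ Cn * ((p : ℝ≥0) ^ (-(η / 2))) ^ s := by
          rw [rpow_natCast_neg]
          calc ((p : ℝ≥0) ^ ((g + η / 2) * s) * (p : ℝ≥0) ^ Cn) * ((p : ℝ≥0) ^ (-((g + η) * s)))
              = (p : ℝ≥0) ^ Cn * ((p : ℝ≥0) ^ ((g + η / 2) * s) * (p : ℝ≥0) ^ (-((g + η) * s))) := by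
                ring
            _ = _ := by
                rw [← NNReal.rpow_add hpne]
                congr 2; ring
      _ ≤ (p : ℝ≥0) ^ Cn * ((p : ℝ≥0) ^ (-(η / 2))) ^ M :=
          mul_le_mul' le_rfl (pow_le_pow_right_of_le_one' hlt.le hs)
      _ ≤ (p : ℝ≥0) ^ Cn * (ε / (p : ℝ≥0) ^ Cn) := mul_le_mul' le_rfl hM.le
      _ = ε := by field_simp
  set Lb : ℕ → ℝ≥0 := fun s => (p : ℝ≥0) ^ Nat.log p s with hLb
  have hmain : ∀ η : ℝ, 0 < η → ∀ s i j, gn p (N780.der q A s i j) ≤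
      ((p : ℝ≥0)⁻¹) ^ padicValNat p s.factorial *
        (Lb s ^ (Fintype.card ι - 1) * (((p : ℝ≥0) ^ (-(g + η)))⁻¹) ^ s) := by
    intro η hη s i j
    have h1 := radius_bound (gvQ p) (Lb := Lb) (fun s => one_le_pow₀ hp1)
      (fun s t hst => pow_le_pow_right₀ hp1 (Nat.log_mono_right hst)) (fun s => by
        rw [gvQ_natCast hf (Nat.succ_ne_zero s), inv_pow, inv_inv, hLb]
        exact pow_le_pow_right₀ hp1 (padicValNat_le_nat_log _)) G hGI
      (ρ := (p : ℝ≥0) ^ (-(g + η))) (NNReal.rpow_pos hp0)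
      (NNReal.rpow_lt_one_of_one_lt_of_neg hp1' (by linarith)) (hU η hη) s i j
    rwa [hG0, gvQ_natCast hf s.factorial_ne_zero] at h1
  -- the conclusion
  intro s i j
  rw [← gn_le_iff]
  rcases Nat.eq_zero_or_pos s with h0 | h0
  · subst h0
    simp only [Nat.factorial_zero, padicValNat_one_right, Nat.zero_sub, pow_zero]
    exact (gn_le_iff p _ 0).2 (by simp)
  by_cases hD : N780.der q A s i j = 0
  · rw [hD]
    exact (gn_le_iff p _ _).2 (dvd_zero _)
  set e := multiplicity ((p : ℕ) : Polynomial ℤ) (N780.der q A s i j) with he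
  have hgn : gn p (N780.der q A s i j) = ((p : ℝ≥0)⁻¹) ^ e := by
    unfold gn; rw [if_neg hD]
  rw [hgn]
  refine pow_le_pow_right_of_le_one' (pinv_lt p).le ?_
  by_contra hcon
  push Not at hcon
  set V := padicValNat p s.factorial with hV
  set l := (Fintype.card ι - 1) * Nat.log p s with hl
  set fl := ⌊g * s⌋₊ with hfl
  have hV1 : e + fl + l + 1 ≤ V := by omega
  have hsr : (0 : ℝ) < s := by exact_mod_cast h0
  have hfl2 : g * s < fl + 1 := Nat.lt_floor_add_one _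
  set η : ℝ := ((fl + 1) - g * s) / (2 * s) with hη
  have hη0 : 0 < η := by
    have : 0 < (fl + 1 : ℝ) - g * s := by linarith
    positivity
  have hηs : (g + η) * s < fl + 1 := by
    have : η * s = ((fl + 1) - g * s) / 2 := by
      rw [hη]; field_simp
    rw [add_mul, this]
    linarith
  have h1 := hmain η hη0 s i j
  have hB : (((p : ℝ≥0) ^ (-(g + η)))⁻¹) ^ s = (p : ℝ≥0) ^ ((g + η) * s) := by
    rw [inv_pow, rpow_natCast_neg, ← NNReal.rpow_neg, neg_neg]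
  have hL : Lb s ^ (Fintype.card ι - 1) = (p : ℝ≥0) ^ l := by
    rw [hLb]
    simp only
    rw [← pow_mul, Nat.mul_comm (Nat.log p s)]
  rw [hgn, hB, hL] at h1
  have h2 : (p : ℝ≥0) ^ ((g + η) * s) < (p : ℝ≥0) ^ (fl + 1) := by
    rw [← NNReal.rpow_natCast]
    refine NNReal.rpow_lt_rpow_of_exponent_lt hp1' ?_
    push_cast
    exact hηs
  have h3 : ((p : ℝ≥0)⁻¹) ^ e < ((p : ℝ≥0)⁻¹) ^ V * ((p : ℝ≥0) ^ l * (p : ℝ≥0) ^ (fl + 1)) := by
    refine lt_of_le_of_lt h1 ?_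
    have h4 : 0 < ((p : ℝ≥0)⁻¹) ^ V := pow_pos (pinv_pos p) _
    have h5 : 0 < (p : ℝ≥0) ^ l := pow_pos hp0 _
    exact mul_lt_mul_of_pos_left (mul_lt_mul_of_pos_left h2 h5) h4
  have h4 : ((p : ℝ≥0)⁻¹) ^ V * ((p : ℝ≥0) ^ l * (p : ℝ≥0) ^ (fl + 1)) ≤ ((p : ℝ≥0)⁻¹) ^ e := by
    obtain ⟨u, hu⟩ := Nat.exists_eq_add_of_le hV1
    have h5 : ((p : ℝ≥0)⁻¹) ^ (fl + 1) * (p : ℝ≥0) ^ (fl + 1) = 1 := by
      rw [← mul_pow, inv_mul_cancel₀ hpne, one_pow]
    have h6 : ((p : ℝ≥0)⁻¹) ^ l * (p : ℝ≥0) ^ l = 1 := by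
      rw [← mul_pow, inv_mul_cancel₀ hpne, one_pow]
    calc ((p : ℝ≥0)⁻¹) ^ V * ((p : ℝ≥0) ^ l * (p : ℝ≥0) ^ (fl + 1))
        = ((p : ℝ≥0)⁻¹) ^ e * ((p : ℝ≥0)⁻¹) ^ u * (((p : ℝ≥0)⁻¹) ^ l * (p : ℝ≥0) ^ l) *
          (((p : ℝ≥0)⁻¹) ^ (fl + 1) * (p : ℝ≥0) ^ (fl + 1)) := by
          rw [hu]; ring
      _ = ((p : ℝ≥0)⁻¹) ^ e * ((p : ℝ≥0)⁻¹) ^ u := by rw [h5, h6, mul_one, mul_one]
      _ ≤ ((p : ℝ≥0)⁻¹) ^ e * 1 := mul_le_mul' le_rfl (pow_le_one₀ zero_le (pinv_lt p).le)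
      _ = _ := mul_one _
  exact absurd h3 (not_lt.2 h4)

end gauss

end Pool.Agent.Run7.h143.PC.DR
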