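import Mathlib
import Pool.Agent.Run7.h143.PC.G1
import Pool.Agent.Run7.h143.PC.G2
import Pool.Agent.Run7.h143.PC.Dens

set_option autoImplicit false

/-!
Denominators of products of `j` solutions for systems with given rates.
-/

namespace Pool.Agent.Run7.h143.PC

open PowerSeries Pool.Agent.N780

section

variable (M : ℕ → ℕ) (gg : ℕ → ℝ) (r : ℕ) (Cc : ℕ → ℕ) (N₀ : ℕ)

/-- the exponent of `p` for products of `j` functions -/
noncomputable def exG (j p s : ℕ) : ℕ :=
  if s < M p then 0 else ⌊gg p * (s : ℝ)⌋₊ + r * lo j p s + Cc p * j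

/-- the denominator for products of `j` functions -/
noncomputable def ddG (j s : ℕ) : ℕ :=
  ∏ p ∈ (Finset.range (s + N₀ + 1)).filter Nat.Prime, p ^ exG M gg r Cc j p s

variable {gg} in
theorem exG_add (hg : ∀ p, 0 ≤ gg p) (i j : ℕ) {p : ℕ} (hp : p.Prime) (a b : ℕ) :
    exG M gg r Cc i p a + exG M gg r Cc j p b ≤ exG M gg r Cc (i + j) p (a + b) := by
  have hfull : (⌊gg p * (a : ℝ)⌋₊ + r * lo i p a + Cc p * i) +
      (⌊gg p * (b : ℝ)⌋₊ + r * lo j p b + Cc p * j) ≤
      ⌊gg p * ((a + b : ℕ) : ℝ)⌋₊ + r * lo (i + j) p (a + b) + Cc p * (i + j) := by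
    have h1 : ⌊gg p * (a : ℝ)⌋₊ + ⌊gg p * (b : ℝ)⌋₊ ≤ ⌊gg p * ((a + b : ℕ) : ℝ)⌋₊ := by
      refine Nat.le_floor ?_
      have e1 := Nat.floor_le (mul_nonneg (hg p) (Nat.cast_nonneg a))
      have e2 := Nat.floor_le (mul_nonneg (hg p) (Nat.cast_nonneg b))
      push_cast
      linarith
    have h2 := Nat.mul_le_mul_left r (lo_add i j hp a b)
    rw [Nat.mul_add] at h2
    have h3 : Cc p * (i + j) = Cc p * i + Cc p * j := Nat.mul_add _ _ _
    omega
  unfold exG
  by_cases ha : a < M p <;> by_cases hb : b < M p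
  · rw [if_pos ha, if_pos hb]; exact Nat.zero_le _
  · rw [if_pos ha, if_neg hb, if_neg (show ¬ a + b < M p by omega)]
    omega
  · rw [if_neg ha, if_pos hb, if_neg (show ¬ a + b < M p by omega)]
    omega
  · rw [if_neg ha, if_neg hb, if_neg (show ¬ a + b < M p by omega)]
    exact hfull

variable {M N₀} in
theorem exG_zero (hM : ∀ p, N₀ < p → p ≤ M p) (j : ℕ) {p s : ℕ} (hp : N₀ < p) (hs : s < p) :
    exG M gg r Cc j p s = 0 := by
  unfold exG
  rw [if_pos (lt_of_lt_of_le hs (hM p hp))]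

theorem ddG_ne_zero (j s : ℕ) : ddG M gg r Cc N₀ j s ≠ 0 := by
  unfold ddG
  refine Finset.prod_ne_zero_iff.2 fun p hp => ?_
  exact pow_ne_zero _ (Finset.mem_filter.1 hp).2.ne_zero

variable {M N₀} in
theorem ddG_eq (hM : ∀ p, N₀ < p → p ≤ M p) (j : ℕ) {s B : ℕ} (hB : s + N₀ ≤ B) :
    ddG M gg r Cc N₀ j s =
      ∏ p ∈ (Finset.range (B + 1)).filter Nat.Prime, p ^ exG M gg r Cc j p s := by
  unfold ddG
  refine Finset.prod_subset ?_ fun p hp hp' => ?_
  · exact Finset.filter_subset_filter _ (Finset.range_mono (by omega))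
  · rw [Finset.mem_filter] at hp hp'
    have h1 : ¬ p ∈ Finset.range (s + N₀ + 1) := fun h => hp' ⟨h, hp.2⟩
    rw [Finset.mem_range] at h1
    rw [exG_zero gg r Cc hM j (by omega) (by omega), pow_zero]

variable {M gg N₀} in
theorem ddG_mul (hg : ∀ p, 0 ≤ gg p) (hM : ∀ p, N₀ < p → p ≤ M p) (i j a b : ℕ) :
    ddG M gg r Cc N₀ i a * ddG M gg r Cc N₀ j b ∣ ddG M gg r Cc N₀ (i + j) (a + b) := by
  rw [ddG_eq gg r Cc hM i (show a + N₀ ≤ a + b + N₀ by omega),
    ddG_eq gg r Cc hM j (show b + N₀ ≤ a + b + N₀ by omega), ddG, ← Finset.prod_mul_distrib]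
  refine Finset.prod_dvd_prod_of_dvd _ _ fun p hp => ?_
  rw [← pow_add]
  exact pow_dvd_pow p (exG_add M r Cc hg i j (Finset.mem_filter.1 hp).2 a b)

variable {M gg N₀} in
theorem ddG_mono (hg : ∀ p, 0 ≤ gg p) (hM : ∀ p, N₀ < p → p ≤ M p) (j : ℕ) {s t : ℕ}
    (hst : s ≤ t) : ddG M gg r Cc N₀ j s ∣ ddG M gg r Cc N₀ j t := by
  obtain ⟨k, rfl⟩ := Nat.exists_eq_add_of_le hst
  have h := ddG_mul r Cc hg hM j 0 s k
  rw [Nat.add_zero] at h
  exact (dvd_mul_right _ _).trans h

open Classical in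
variable {gg} in
theorem log_ddG_le (hg : ∀ p, 0 ≤ gg p) {T C₁ : ℝ}
    (hT : ∀ F : Finset ℕ, (∀ p ∈ F, p.Prime) → ∑ p ∈ F, gg p * Real.log p ≤ T)
    (hC : ∀ F : Finset ℕ, (∀ p ∈ F, p.Prime) → ∑ p ∈ F, Cc p * Real.log p ≤ C₁)
    (j s : ℕ) : Real.log (ddG M gg r Cc N₀ j s) ≤ T * s + (r * j * Real.log s) *
      ((Finset.range (s + N₀ + 1)).filter fun p => p.Prime ∧ M p ≤ s).card + j * C₁ := by
  have hterm : ∀ p ∈ (Finset.range (s + N₀ + 1)).filter Nat.Prime,
      Real.log ((p : ℝ) ^ exG M gg r Cc j p s) ≤ gg p * Real.log p * s +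
        (if M p ≤ s then r * j * Real.log s else 0) + j * (Cc p * Real.log p) := by
    intro p hp
    have hpp := (Finset.mem_filter.1 hp).2
    have hp1 : (1 : ℝ) < p := by exact_mod_cast hpp.one_lt
    have hlp : 0 ≤ Real.log p := Real.log_nonneg hp1.le
    have hgp := hg p
    have hls : 0 ≤ Real.log s := Real.log_natCast_nonneg s
    rw [Real.log_pow]
    unfold exG
    split_ifs with h1 h2 h2
    · omega
    · simp only [Nat.cast_zero, zero_mul]
      positivity
    · have h3 : (lo j p s : ℝ) * Real.log p ≤ j * Real.log s := by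
        rcases Nat.eq_zero_or_pos s with h0 | h0
        · subst h0
          rw [lo_zero_of_lt j hpp.pos]; simp
        have h4 : (lo j p s : ℝ) ≤ j * Nat.log p s := by exact_mod_cast lo_le j hpp s
        have h5 : (Nat.log p s : ℝ) * Real.log p ≤ Real.log s := by
          rw [← Real.log_pow]
          refine Real.log_le_log (by positivity) ?_
          exact_mod_cast Nat.pow_log_le_self p h0.ne'
        calc (lo j p s : ℝ) * Real.log p ≤ (j * Nat.log p s) * Real.log p := by gcongr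
          _ = j * (Nat.log p s * Real.log p) := by ring
          _ ≤ j * Real.log s := by gcongr
      have h6 : (⌊gg p * (s : ℝ)⌋₊ : ℝ) ≤ gg p * s := Nat.floor_le (by positivity)
      push_cast
      calc ((⌊gg p * (s : ℝ)⌋₊ : ℝ) + r * lo j p s + Cc p * j) * Real.log p
          = (⌊gg p * (s : ℝ)⌋₊ : ℝ) * Real.log p + r * (lo j p s * Real.log p) +
            j * (Cc p * Real.log p) := by ring
        _ ≤ (gg p * s) * Real.log p + r * (j * Real.log s) + j * (Cc p * Real.log p) := by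
            gcongr
        _ = _ := by ring
    · omega
  unfold ddG
  push_cast
  rw [Real.log_prod fun p hp => ?_]
  · calc (∑ p ∈ (Finset.range (s + N₀ + 1)).filter Nat.Prime,
          Real.log ((p : ℝ) ^ exG M gg r Cc j p s))
        ≤ ∑ p ∈ (Finset.range (s + N₀ + 1)).filter Nat.Prime, (gg p * Real.log p * s +
            (if M p ≤ s then r * j * Real.log s else 0) + j * (Cc p * Real.log p)) :=
          Finset.sum_le_sum hterm
      _ = (∑ p ∈ (Finset.range (s + N₀ + 1)).filter Nat.Prime, gg p * Real.log p) * s +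
          (r * j * Real.log s) *
            ((Finset.range (s + N₀ + 1)).filter fun p => p.Prime ∧ M p ≤ s).card +
          j * ∑ p ∈ (Finset.range (s + N₀ + 1)).filter Nat.Prime, Cc p * Real.log p := by
          rw [Finset.sum_add_distrib, Finset.sum_add_distrib, Finset.sum_mul, Finset.mul_sum,
            ← Finset.sum_filter, Finset.filter_filter, Finset.sum_const, nsmul_eq_mul,
            mul_comm ((_ : ℕ) : ℝ)]
      _ ≤ _ := by
          have h1 := hT ((Finset.range (s + N₀ + 1)).filter Nat.Prime) fun p hp =>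
            (Finset.mem_filter.1 hp).2
          have h2 := hC ((Finset.range (s + N₀ + 1)).filter Nat.Prime) fun p hp =>
            (Finset.mem_filter.1 hp).2
          gcongr
  · have h1 := (Finset.mem_filter.1 hp).2.pos
    have : (p : ℝ) ≠ 0 := by exact_mod_cast h1.ne'
    exact pow_ne_zero _ this

variable {N₀} in
/-- the denominators are sufficient -/
theorem ddG_dvd (hN₀ : N₀ ≠ 0) (s : ℕ) (D : Polynomial ℤ)
    (hD : ∀ p : ℕ, p.Prime →
      ((p ^ (padicValNat p (s.factorial * N₀ ^ s) - exG M gg r Cc 1 p s) : ℕ) : Polynomial ℤ) ∣ D) :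
    ((s.factorial * N₀ ^ s : ℕ) : Polynomial ℤ) ∣ ((ddG M gg r Cc N₀ 1 s : ℕ) : Polynomial ℤ) * D := by
  set n := s.factorial * N₀ ^ s with hn
  have hn0 : n ≠ 0 := mul_ne_zero s.factorial_ne_zero (pow_ne_zero _ hN₀)
  set F := (Finset.range (s + N₀ + 1)).filter Nat.Prime with hF
  have h1 : n = ∏ p ∈ F, p ^ n.factorization p := by
    conv_lhs => rw [← Nat.prod_factorization_pow_eq_self hn0]
    refine Finsupp.prod_of_support_subset _ ?_ _ fun p _ => pow_zero p
    intro p hp
    rw [Nat.support_factorization, Nat.mem_primeFactors] at hp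
    rw [hF, Finset.mem_filter, Finset.mem_range]
    refine ⟨?_, hp.1⟩
    rcases (hp.1.dvd_mul).1 hp.2.1 with h | h
    · have := (hp.1.dvd_factorial).1 h
      omega
    · have := Nat.le_of_dvd (Nat.pos_of_ne_zero hN₀) (hp.1.dvd_of_dvd_pow h)
      omega
  have h2 : ((∏ p ∈ F, p ^ (padicValNat p n - exG M gg r Cc 1 p s) : ℕ) : Polynomial ℤ) ∣ D := by
    push_cast
    refine Finset.prod_dvd_of_coprime ?_ fun p hp => ?_
    · intro p hp q hq hpq
      have hp' := (Finset.mem_filter.1 (Finset.mem_coe.1 hp)).2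
      have hq' := (Finset.mem_filter.1 (Finset.mem_coe.1 hq)).2
      change IsCoprime ((p : Polynomial ℤ) ^ _) ((q : Polynomial ℤ) ^ _)
      refine IsCoprime.pow ?_
      have h3 : IsCoprime (p : ℤ) (q : ℤ) :=
        Nat.isCoprime_iff_coprime.2 ((Nat.coprime_primes hp' hq').2 hpq)
      have h4 := h3.map (Int.castRingHom (Polynomial ℤ))
      simpa using h4
    · have h3 := hD p (Finset.mem_filter.1 hp).2
      push_cast at h3
      exact h3
  have h3 : n ∣ ddG M gg r Cc N₀ 1 s *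
      ∏ p ∈ F, p ^ (padicValNat p n - exG M gg r Cc 1 p s) := by
    conv_lhs => rw [h1]
    rw [ddG, ← hF, ← Finset.prod_mul_distrib]
    refine Finset.prod_dvd_prod_of_dvd _ _ fun p hp => ?_
    rw [← pow_add]
    refine pow_dvd_pow p ?_
    rw [Nat.factorization_def _ (Finset.mem_filter.1 hp).2]
    omega
  obtain ⟨a, ha⟩ := h3
  obtain ⟨b, hb⟩ := h2
  refine ⟨(a : Polynomial ℤ) * b, ?_⟩
  rw [hb]
  calc ((ddG M gg r Cc N₀ 1 s : ℕ) : Polynomial ℤ) *
        (((∏ p ∈ F, p ^ (padicValNat p n - exG M gg r Cc 1 p s) : ℕ) : Polynomial ℤ) * b)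
      = ((ddG M gg r Cc N₀ 1 s *
        ∏ p ∈ F, p ^ (padicValNat p n - exG M gg r Cc 1 p s) : ℕ) : Polynomial ℤ) * b := by
        push_cast; ring
    _ = _ := by rw [ha]; push_cast; ring

end

end Pool.Agent.Run7.h143.PC
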