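import Mathlib
import Pool.Agent.Run7.h143.PC.G3

set_option autoImplicit false

/-!
The denominators of a system with given rates.
-/

namespace Pool.Agent.Run7.h143.PC

open PowerSeries Pool.Agent.N780

theorem pv_small {p s : ℕ} (hp : p.Prime) (hs : s < p ^ 2) : padicValNat p s.factorial = s / p := by
  have hf : Fact p.Prime := ⟨hp⟩
  have hlog : Nat.log p s < 2 := by
    rcases Nat.eq_zero_or_pos s with h0 | h0
    · subst h0; simp
    · exact Nat.log_lt_of_lt_pow h0.ne' hs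
  rw [padicValNat_factorial hlog]
  simp

theorem pv_zero {p s : ℕ} (hp : p.Prime) (hs : s < p) : padicValNat p s.factorial = 0 := by
  rw [pv_small hp (lt_of_lt_of_le hs (Nat.le_self_pow (by norm_num) p)), Nat.div_eq_of_lt hs]

theorem build {ι : Type} [Fintype ι] [DecidableEq ι] (Q : Polynomial ℤ)
    (A : Matrix ι ι (Polynomial ℤ)) {N₀ : ℕ} (hN₀ : N₀ ≠ 0) {g : ℕ → ℝ} (hg : ∀ p, 0 ≤ g p)
    {τ : ℝ} (hτ : ∀ F : Finset ℕ, (∀ p ∈ F, p.Prime) → ∑ p ∈ F, g p * Real.log p ≤ τ)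
    (r : ℕ) (S : Set ℕ)
    (h1 : ∀ p : ℕ, p.Prime → p ∣ N₀ → DR.RadG Q A N₀ p (g p))
    (h2 : ∀ p : ℕ, p.Prime → ¬ p ∣ N₀ → DR.Grow Q A p (g p) r)
    (h3 : ∀ p : ℕ, p.Prime → ¬ p ∣ N₀ → p ∉ S → ∀ s i j,
      ((p ^ (s / p) : ℕ) : Polynomial ℤ) ∣ N780.der Q A s i j)
    {η : ℝ} (hη : 0 < η) :
    ∃ (dd : ℕ → ℕ → ℕ) (C₁ : ℝ), 0 ≤ C₁ ∧ (∀ j s, dd j s ≠ 0) ∧
      (∀ j s t, s ≤ t → dd j s ∣ dd j t) ∧ (∀ i j a b, dd i a * dd j b ∣ dd (i + j) (a + b)) ∧
      (∀ s i j, ((s.factorial * N₀ ^ s : ℕ) : Polynomial ℤ) ∣ ((dd 1 s : ℕ) : Polynomial ℤ) *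
            N780.der Q A s i j) ∧
      ∀ j s, (dd j s : ℝ) ≤ Real.exp ((τ + η) * s +
        r * j * ((cnt S s + Nat.sqrt s + N₀ : ℕ) * Real.log s) + j * C₁) := by
  classical
  -- the constant `ε`
  set Λ : ℝ := ∑ p ∈ N₀.primeFactors, Real.log p with hΛ
  have hlog0 : ∀ p : ℕ, 0 ≤ Real.log p := fun p => Real.log_natCast_nonneg p
  have hΛ0 : 0 ≤ Λ := Finset.sum_nonneg fun p _ => hlog0 p
  obtain ⟨ε, hε, hεΛ⟩ : ∃ ε : ℝ, 0 < ε ∧ ε * Λ ≤ η := by
    refine ⟨η / (Λ + 1), by positivity, ?_⟩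
    rw [div_mul_eq_mul_div, div_le_iff₀ (by positivity)]
    nlinarith
  have h1' : ∀ p : ℕ, ∃ Cn : ℕ, p.Prime → p ∣ N₀ → ∀ (s : ℕ) (i j : ι),
      ((p ^ (padicValNat p (s.factorial * N₀ ^ s) - (⌊(g p + ε) * (s : ℝ)⌋₊ + Cn)) : ℕ) :
        Polynomial ℤ) ∣ N780.der Q A s i j := by
    intro p
    by_cases hp : p.Prime ∧ p ∣ N₀
    · obtain ⟨Cn, hC⟩ := h1 p hp.1 hp.2 ε hε
      exact ⟨Cn, fun _ _ => hC⟩
    · exact ⟨0, fun ha hb => absurd ⟨ha, hb⟩ hp⟩
  choose Cf hCf using h1'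
  set M : ℕ → ℕ := fun p => if p ∣ N₀ then 0 else if p ∈ S then p else p ^ 2 with hM
  set gg : ℕ → ℝ := fun p => if p ∣ N₀ then g p + ε else g p with hgg
  set Cc : ℕ → ℕ := fun p => if p ∣ N₀ then Cf p else 0 with hCc
  have hgg0 : ∀ p, 0 ≤ gg p := by
    intro p
    rw [hgg]
    simp only
    split_ifs
    · have := hg p; positivity
    · exact hg p
  have hMp : ∀ p, N₀ < p → p ≤ M p := by
    intro p hp
    have hnd : ¬ p ∣ N₀ := fun h => by
      have := Nat.le_of_dvd (Nat.pos_of_ne_zero hN₀) h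
      omega
    rw [hM]
    simp only
    rw [if_neg hnd]
    split_ifs
    · exact le_rfl
    · exact Nat.le_self_pow (by norm_num) p
  set C₁ : ℝ := ∑ p ∈ N₀.primeFactors, (Cf p : ℝ) * Real.log p with hC₁
  have hC₁0 : 0 ≤ C₁ := Finset.sum_nonneg fun p _ => mul_nonneg (Nat.cast_nonneg _) (hlog0 p)
  have hsub : ∀ F : Finset ℕ, (∀ p ∈ F, p.Prime) → F.filter (fun p => p ∣ N₀) ⊆ N₀.primeFactors := by
    intro F hF p hp
    rw [Finset.mem_filter] at hp
    exact Nat.mem_primeFactors.2 ⟨hF p hp.1, hp.2, hN₀⟩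
  have hT : ∀ F : Finset ℕ, (∀ p ∈ F, p.Prime) → ∑ p ∈ F, gg p * Real.log p ≤ τ + η := by
    intro F hF
    have e : ∀ p ∈ F, gg p * Real.log p = g p * Real.log p + if p ∣ N₀ then ε * Real.log p else 0 := by
      intro p _
      rw [hgg]
      simp only
      split_ifs
      · ring
      · ring
    rw [Finset.sum_congr rfl e, Finset.sum_add_distrib, ← Finset.sum_filter, ← Finset.mul_sum]
    have h4 : ∑ p ∈ F.filter (fun p => p ∣ N₀), Real.log p ≤ Λ :=
      Finset.sum_le_sum_of_subset_of_nonneg (hsub F hF) fun p _ _ => hlog0 p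
    have h5 : ε * ∑ p ∈ F.filter (fun p => p ∣ N₀), Real.log p ≤ ε * Λ := by gcongr
    have := hτ F hF
    linarith
  have hC : ∀ F : Finset ℕ, (∀ p ∈ F, p.Prime) → ∑ p ∈ F, (Cc p : ℝ) * Real.log p ≤ C₁ := by
    intro F hF
    have e : ∀ p ∈ F, (Cc p : ℝ) * Real.log p = if p ∣ N₀ then (Cf p : ℝ) * Real.log p else 0 := by
      intro p _
      rw [hCc]
      simp only
      split_ifs
      · rfl
      · simp
    rw [Finset.sum_congr rfl e, ← Finset.sum_filter]
    exact Finset.sum_le_sum_of_subset_of_nonneg (hsub F hF) fun p _ _ =>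
      mul_nonneg (Nat.cast_nonneg _) (hlog0 p)
  refine ⟨ddG M gg r Cc N₀, C₁, hC₁0, ddG_ne_zero M gg r Cc N₀,
    fun j s t hst => ddG_mono r Cc hgg0 hMp j hst, ddG_mul r Cc hgg0 hMp, fun s i j => ?_,
    fun j s => ?_⟩
  · -- the divisibility
    refine ddG_dvd M gg r Cc hN₀ s _ fun p hp => ?_
    by_cases hpN : p ∣ N₀
    · have h4 := hCf p hp hpN s i j
      refine dvd_trans ?_ h4
      have h5 : exG M gg r Cc 1 p s = ⌊(g p + ε) * (s : ℝ)⌋₊ + r * lo 1 p s + Cf p * 1 := by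
        unfold exG
        rw [hM, hgg, hCc]
        simp only [if_pos hpN, Nat.not_lt_zero, if_false]
      have h6 : padicValNat p (s.factorial * N₀ ^ s) - exG M gg r Cc 1 p s ≤
          padicValNat p (s.factorial * N₀ ^ s) - (⌊(g p + ε) * (s : ℝ)⌋₊ + Cf p) := by omega
      exact Nat.cast_dvd_cast (pow_dvd_pow p h6)
    · have hval : padicValNat p (s.factorial * N₀ ^ s) = padicValNat p s.factorial := by
        have hf : Fact p.Prime := ⟨hp⟩
        rw [padicValNat.mul s.factorial_ne_zero (pow_ne_zero _ hN₀),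
          padicValNat.eq_zero_of_not_dvd fun h => hpN (hp.dvd_of_dvd_pow h), add_zero]
      rw [hval]
      rcases Nat.lt_or_ge s (M p) with hs | hs
      · by_cases hpS : p ∈ S
        · have hMe : M p = p := by
            rw [hM]; simp only [if_neg hpN, if_pos hpS]
          rw [hMe] at hs
          rw [pv_zero hp hs, Nat.zero_sub, pow_zero]
          simp
        · have hMe : M p = p ^ 2 := by
            rw [hM]; simp only [if_neg hpN, if_neg hpS]
          rw [hMe] at hs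
          have h4 := h3 p hp hpN hpS s i j
          refine dvd_trans ?_ h4
          rw [pv_small hp hs]
          exact Nat.cast_dvd_cast (pow_dvd_pow p (Nat.sub_le _ _))
      · have h4 := h2 p hp hpN s i j
        refine dvd_trans ?_ h4
        have h5 : exG M gg r Cc 1 p s = ⌊g p * (s : ℝ)⌋₊ + r * lo 1 p s + 0 * 1 := by
          unfold exG
          rw [if_neg (not_lt.2 hs), hgg, hCc]
          simp only [if_neg hpN]
        have h7 := Nat.mul_le_mul_left r (lo_one hp s)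
        have h6 : padicValNat p s.factorial - exG M gg r Cc 1 p s ≤
            padicValNat p s.factorial - (⌊g p * (s : ℝ)⌋₊ + r * Nat.log p s) := by omega
        exact Nat.cast_dvd_cast (pow_dvd_pow p h6)
  · -- the size
    have h0 : (0 : ℝ) < ddG M gg r Cc N₀ j s := by
      exact_mod_cast Nat.pos_of_ne_zero (ddG_ne_zero M gg r Cc N₀ j s)
    rw [← Real.log_le_iff_le_exp h0]
    refine (log_ddG_le M r Cc N₀ hgg0 hT hC j s).trans ?_
    have hcard : ((Finset.range (s + N₀ + 1)).filter fun p => p.Prime ∧ M p ≤ s).card ≤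
        cnt S s + Nat.sqrt s + N₀ := by
      have hss : ((Finset.range (s + N₀ + 1)).filter fun p => p.Prime ∧ M p ≤ s) ⊆
          ((Finset.range (s + 1)).filter fun p => p.Prime ∧ p ∈ S) ∪ Finset.Icc 1 (Nat.sqrt s) ∪
            Finset.Icc 1 N₀ := by
        intro p hp
        rw [Finset.mem_filter] at hp
        obtain ⟨-, hpp, hMs⟩ := hp
        have hp1 := hpp.one_lt
        rw [Finset.mem_union, Finset.mem_union, Finset.mem_filter, Finset.mem_Icc, Finset.mem_Icc,
          Finset.mem_range]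
        by_cases hpN : p ∣ N₀
        · right
          exact ⟨hp1.le, Nat.le_of_dvd (Nat.pos_of_ne_zero hN₀) hpN⟩
        · left
          by_cases hpS : p ∈ S
          · left
            have hMe : M p = p := by
              rw [hM]; simp only [if_neg hpN, if_pos hpS]
            exact ⟨by omega, hpp, hpS⟩
          · right
            have hMe : M p = p ^ 2 := by
              rw [hM]; simp only [if_neg hpN, if_neg hpS]
            refine ⟨hp1.le, Nat.le_sqrt'.2 ?_⟩
            omega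
      refine (Finset.card_le_card hss).trans ((Finset.card_union_le _ _).trans ?_)
      have h4 := Finset.card_union_le ((Finset.range (s + 1)).filter fun p => p.Prime ∧ p ∈ S)
        (Finset.Icc 1 (Nat.sqrt s))
      rw [Nat.card_Icc, Nat.add_sub_cancel] at h4 ⊢
      unfold cnt
      omega
    have hls : 0 ≤ Real.log s := Real.log_natCast_nonneg s
    have h5 : (r * j * Real.log s) *
        ((Finset.range (s + N₀ + 1)).filter fun p => p.Prime ∧ M p ≤ s).card ≤
        r * j * ((cnt S s + Nat.sqrt s + N₀ : ℕ) * Real.log s) := by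
      have h6 : (((Finset.range (s + N₀ + 1)).filter fun p => p.Prime ∧ M p ≤ s).card : ℝ) ≤
          ((cnt S s + Nat.sqrt s + N₀ : ℕ) : ℝ) := by exact_mod_cast hcard
      calc _ ≤ (r * j * Real.log s) * ((cnt S s + Nat.sqrt s + N₀ : ℕ) : ℝ) := by gcongr
        _ = _ := by ring
    linarith

end Pool.Agent.Run7.h143.PC
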