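import Mathlib
import Pool.Agent.Run7.h143.PC.G4

set_option autoImplicit false

/-!
The two forms of the density theorem for systems with given rates, for integer matrices.
-/

namespace Pool.Agent.Run7.h143.PC

open PowerSeries Pool.Agent.N780
open scoped RatFunc

theorem log_small {η : ℝ} (hη : 0 < η) (N₀ : ℕ) :
    ∃ X : ℕ, ∀ x : ℕ, X ≤ x → ((Nat.sqrt x + N₀ : ℕ) : ℝ) * Real.log x ≤ η * x := by
  have h1 := (isLittleO_log_rpow_atTop (show (0 : ℝ) < 1 / 2 by norm_num)).bound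
    (show (0 : ℝ) < η / (N₀ + 1) by positivity)
  have h2 := tendsto_natCast_atTop_atTop (R := ℝ) |>.eventually h1
  obtain ⟨X, hX⟩ := Filter.eventually_atTop.1 h2
  refine ⟨X + 1, fun x hx => ?_⟩
  have h3 := hX x (by omega)
  have hx1 : (1 : ℝ) ≤ x := by exact_mod_cast (show 1 ≤ x by omega)
  have hl : 0 ≤ Real.log x := Real.log_nonneg hx1
  rw [Real.norm_of_nonneg hl, ← Real.sqrt_eq_rpow, Real.norm_of_nonneg (Real.sqrt_nonneg _)] at h3
  have hs1 : (1 : ℝ) ≤ Real.sqrt x := by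
    rw [← Real.sqrt_one]; exact Real.sqrt_le_sqrt hx1
  have h4 : ((Nat.sqrt x + N₀ : ℕ) : ℝ) ≤ (N₀ + 1) * Real.sqrt x := by
    push_cast
    have h5 : (Nat.sqrt x : ℝ) ≤ Real.sqrt x := by
      refine Real.le_sqrt_of_sq_le ?_
      exact_mod_cast Nat.sqrt_le' x
    have h6 : (N₀ : ℝ) * 1 ≤ N₀ * Real.sqrt x := by gcongr
    linarith
  calc ((Nat.sqrt x + N₀ : ℕ) : ℝ) * Real.log x
      ≤ ((N₀ + 1) * Real.sqrt x) * (η / (N₀ + 1) * Real.sqrt x) := by gcongr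
    _ = η * (Real.sqrt x * Real.sqrt x) := by field_simp
    _ = η * x := by rw [Real.mul_self_sqrt (by linarith)]

/-- bounds for the degrees and the coefficients -/
theorem exists_bounds {ι : Type} [Fintype ι] (A : Matrix ι ι (Polynomial ℤ)) :
    ∃ a H : ℕ, (∀ i j, (A i j).natDegree ≤ a) ∧ ∀ i j l, |(A i j).coeff l| ≤ (H : ℤ) := by
  obtain ⟨a, ha⟩ : ∃ a : ℕ, ∀ i j, (A i j).natDegree ≤ a := by
    refine ⟨∑ i, ∑ j, (A i j).natDegree, fun i j => ?_⟩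
    exact (Finset.single_le_sum (f := fun j => (A i j).natDegree) (fun _ _ => Nat.zero_le _)
      (Finset.mem_univ j)).trans (Finset.single_le_sum (f := fun i => ∑ j, (A i j).natDegree)
        (fun _ _ => Nat.zero_le _) (Finset.mem_univ i))
  refine ⟨a, ∑ i, ∑ j, ∑ l ∈ Finset.range (a + 1), ((A i j).coeff l).natAbs, ha, fun i j l => ?_⟩
  rcases Nat.lt_or_ge l (a + 1) with hl | hl
  · have h1 : ((A i j).coeff l).natAbs ≤ ∑ i, ∑ j, ∑ l ∈ Finset.range (a + 1),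
        ((A i j).coeff l).natAbs := by
      calc ((A i j).coeff l).natAbs ≤ ∑ l ∈ Finset.range (a + 1), ((A i j).coeff l).natAbs :=
            Finset.single_le_sum (f := fun l => ((A i j).coeff l).natAbs)
              (fun _ _ => Nat.zero_le _) (Finset.mem_range.2 hl)
        _ ≤ ∑ j, ∑ l ∈ Finset.range (a + 1), ((A i j).coeff l).natAbs :=
            Finset.single_le_sum (f := fun j => ∑ l ∈ Finset.range (a + 1),
              ((A i j).coeff l).natAbs) (fun _ _ => Nat.zero_le _) (Finset.mem_univ j)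
        _ ≤ _ := Finset.single_le_sum (f := fun i => ∑ j, ∑ l ∈ Finset.range (a + 1),
              ((A i j).coeff l).natAbs) (fun _ _ => Nat.zero_le _) (Finset.mem_univ i)
    rw [← Int.natCast_natAbs]
    exact_mod_cast h1
  · rw [Polynomial.coeff_eq_zero_of_natDegree_lt (by have := ha i j; omega), abs_zero]
    exact Int.natCast_nonneg _

/-- all solutions at `c` lie in one extension of degree at most `N` -/
def AlgI {ι : Type} [Fintype ι] (N : ℕ) (c : ℂ) (Q : Polynomial ℤ)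
    (A : Matrix ι ι (Polynomial ℤ)) : Prop :=
  ∃ L : IntermediateField (RatFunc ℂ) (LaurentSeries ℂ), FiniteDimensional (RatFunc ℂ) L ∧
    Module.finrank (RatFunc ℂ) L ≤ N ∧ ∀ y : ι → ℂ⟦X⟧,
      (∀ i, sh c Q * d⁄dX ℂ (y i) = ∑ j, sh c (A i j) * y j) → ∀ i, toL (y i) ∈ L

/-- the hypotheses on a system -/
structure Hyp {ι : Type} [Fintype ι] [DecidableEq ι] (Q : Polynomial ℤ)
    (A : Matrix ι ι (Polynomial ℤ)) (N₀ : ℕ) (g : ℕ → ℝ) (τ : ℝ) (r : ℕ) (S : Set ℕ) : Prop where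
  N₀_ne : N₀ ≠ 0
  g_nonneg : ∀ p, 0 ≤ g p
  total : ∀ F : Finset ℕ, (∀ p ∈ F, p.Prime) → ∑ p ∈ F, g p * Real.log p ≤ τ
  rad : ∀ p : ℕ, p.Prime → p ∣ N₀ → DR.RadG Q A N₀ p (g p)
  grow : ∀ p : ℕ, p.Prime → ¬ p ∣ N₀ → DR.Grow Q A p (g p) r
  curv : ∀ p : ℕ, p.Prime → ¬ p ∣ N₀ → p ∉ S → ∀ s i j,
      ((p ^ (s / p) : ℕ) : Polynomial ℤ) ∣ N780.der Q A s i j

/-- the size of the denominators, if there are few exceptional primes up to `x` -/
theorem size_aux {τ sl : ℝ} (hτ0 : 0 ≤ τ) (hsl : 0 < sl) {r m N₀ : ℕ} {S : Set ℕ}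
    {C₁ δ Y Z : ℝ} {x s : ℕ} (hsx : s ≤ x)
    (hcnt : (cnt S x : ℝ) * Real.log x ≤ δ * x)
    (hsm : ((Nat.sqrt x + N₀ : ℕ) : ℝ) * Real.log x ≤ δ * x)
    (hC : (m : ℝ) * C₁ ≤ sl / 3 * Y) (hZ : (s : ℝ) ≤ Z) (hYZ : Y ≤ Z)
    (hδ : (r : ℝ) * m * (2 * δ * x) ≤ sl / 3 * Y) :
    (τ + sl / 3) * s + r * m * ((cnt S s + Nat.sqrt s + N₀ : ℕ) * Real.log s) + m * C₁ ≤
      (τ + sl) * Z := by
  have h1 : ((cnt S s + Nat.sqrt s + N₀ : ℕ) : ℝ) * Real.log s ≤ 2 * δ * x := by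
    rcases Nat.eq_zero_or_pos s with h0 | h0
    · subst h0
      have : 0 ≤ Real.log x := Real.log_natCast_nonneg x
      simp only [Nat.cast_zero, Real.log_zero, mul_zero]
      have h2 : (0 : ℝ) ≤ (cnt S x : ℝ) * Real.log x := by positivity
      linarith
    · have h2 : Real.log s ≤ Real.log x := Real.log_le_log (by exact_mod_cast h0) (by exact_mod_cast hsx)
      have h3 : ((cnt S s + Nat.sqrt s + N₀ : ℕ) : ℝ) ≤ ((cnt S x + Nat.sqrt x + N₀ : ℕ) : ℝ) := by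
        exact_mod_cast (show cnt S s + Nat.sqrt s + N₀ ≤ cnt S x + Nat.sqrt x + N₀ by
          have := cnt_mono S hsx
          have := Nat.sqrt_le_sqrt hsx
          omega)
      have h4 : 0 ≤ Real.log s := Real.log_natCast_nonneg s
      calc ((cnt S s + Nat.sqrt s + N₀ : ℕ) : ℝ) * Real.log s
          ≤ ((cnt S x + Nat.sqrt x + N₀ : ℕ) : ℝ) * Real.log x := by gcongr
        _ = (cnt S x : ℝ) * Real.log x + ((Nat.sqrt x + N₀ : ℕ) : ℝ) * Real.log x := by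
            push_cast; ring
        _ ≤ _ := by linarith
  have h2 : (r : ℝ) * m * (((cnt S s + Nat.sqrt s + N₀ : ℕ) : ℝ) * Real.log s) ≤ sl / 3 * Y :=
    le_trans (by gcongr) hδ
  calc (τ + sl / 3) * s + r * m * ((cnt S s + Nat.sqrt s + N₀ : ℕ) * Real.log s) + m * C₁
      ≤ (τ + sl / 3) * Z + sl / 3 * Z + sl / 3 * Z := by
        have h3 : sl / 3 * Y ≤ sl / 3 * Z := by gcongr
        have h4 : (τ + sl / 3) * s ≤ (τ + sl / 3) * Z := by gcongr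
        linarith
    _ = _ := by ring

/-- **positive lower density** -/
theorem lowerG {c : ℂ} {q₁ : Polynomial ℤ} {β : ℝ} (hC : Curve c q₁ β) {τ : ℝ} (hτ0 : 0 ≤ τ)
    (hτ : τ < β) : ∃ N : ℕ, ∀ r n : ℕ, ∃ δ : ℝ, 0 < δ ∧
      ∀ (ι : Type) [Fintype ι] [DecidableEq ι], Fintype.card ι = n →
      ∀ (k : ℕ) (A : Matrix ι ι (Polynomial ℤ)) (N₀ : ℕ) (g : ℕ → ℝ) (S : Set ℕ),
        Hyp ((N₀ : Polynomial ℤ) * q₁ ^ k) A N₀ g τ r S →
        (∀ x₀ : ℕ, ∃ x ≥ x₀, (cnt S x : ℝ) * Real.log x ≤ δ * x) →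
        AlgI N c ((N₀ : Polynomial ℤ) * q₁ ^ k) A := by
  obtain ⟨T', hT1, hT2⟩ := exists_between hτ
  have hT0 : 0 ≤ T' := hτ0.trans hT1.le
  obtain ⟨E, hE1, hE2, hE3, hE4, hE5⟩ := hC T' hT0 hT2
  obtain ⟨m, K₀, N₁, hm, hN₁, hK₀, hmain⟩ := effG E hT0 hE1
  refine ⟨m, fun r n => ?_⟩
  set Mb := (n * n + 1) ^ m with hMb
  have hMb1 : 1 ≤ Mb := Nat.one_le_pow _ _ (by omega)
  set Ac := Mb * K₀ with hAc
  have hAc1 : 1 ≤ Ac := Nat.mul_pos hMb1 hK₀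
  have hN₁r : (1 : ℝ) ≤ N₁ := by exact_mod_cast hN₁
  set sl := T' - τ with hsl'
  have hsl : 0 < sl := by linarith
  have hAcr : (1 : ℝ) ≤ Ac := by exact_mod_cast hAc1
  set δ : ℝ := sl * N₁ / (18 * Ac * (r * m + 1)) with hδ
  have hδ0 : 0 < δ := by positivity
  refine ⟨δ, hδ0, fun ι _ _ hι k A N₀ g S hH hcnt => ?_⟩
  obtain ⟨a, H, hAd, hAH⟩ := exists_bounds A
  obtain ⟨K, hK⟩ := hmain c hE2 q₁ hE3 hE4 hE5 ι k a
  rw [hι] at hK
  obtain ⟨dd, C₁, hC₁, hdd0, hddm, hdda, hdiv, hsize⟩ := build _ A hH.N₀_ne hH.g_nonneg hH.total r S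
    hH.rad hH.grow hH.curv (η := sl / 3) (by positivity)
  obtain ⟨X₁, hX₁⟩ := log_small hδ0 N₀
  obtain ⟨W₁, hW₁⟩ := exists_nat_gt (3 * (m * C₁) / sl)
  set a' := max a (q₁ ^ k).natDegree with ha'
  set c₀ := Mb * Mb * a' + Mb with hc₀
  obtain ⟨x, hx, hcx'⟩ := hcnt (c₀ + Ac * (c₀ + K * (H + 1) + W₁ + 1) + X₁)
  -- the choice of `w`
  set v := (x - c₀) / Ac with hv
  have hx1 : c₀ + Ac * (c₀ + K * (H + 1) + W₁ + 1) ≤ x := by omega
  have hv1 : c₀ + K * (H + 1) + W₁ + 1 ≤ v := by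
    rw [hv, Nat.le_div_iff_mul_le hAc1, Nat.mul_comm]
    exact Nat.le_sub_of_add_le (by omega)
  obtain ⟨w, hw⟩ : ∃ w, v = w + 1 := ⟨v - 1, by omega⟩
  have hv2 : Ac * v ≤ x - c₀ := by
    rw [hv, Nat.mul_comm]; exact Nat.div_mul_le_self _ _
  have hv3 : x - c₀ < Ac * (v + 1) := by
    rw [hv]
    exact Nat.lt_mul_div_succ _ hAc1
  have hcx : c₀ ≤ x := le_trans (Nat.le_add_right _ _) hx1
  have hord : ord n m K₀ a' w ≤ x := by
    have e : ord n m K₀ a' w = Ac * (w + 1) + c₀ := by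
      unfold ord
      rw [← hMb, hAc, hc₀]; ring
    rw [e, ← hw]
    omega
  have hx3 : x ≤ 3 * Ac * (w + 1) := by
    rw [← hw]
    have h1 : c₀ ≤ Ac * v := le_trans (by omega : c₀ ≤ v) (Nat.le_mul_of_pos_left _ hAc1)
    have h2 : Ac * (v + 1) = Ac * v + Ac := by ring
    have h3 : Ac ≤ Ac * v := Nat.le_mul_of_pos_right _ (by omega)
    have h4 : 3 * Ac * v = Ac * v + Ac * v + Ac * v := by ring
    omega
  refine hK H A hAd hAH N₀ hH.N₀_ne w (by omega) dd hdd0 hddm hdda (fun s _ => hdiv s)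
    fun s hs => ?_
  have hsx : s ≤ x := hs.trans hord
  refine (hsize m s).trans (Real.exp_le_exp.2 ?_)
  have hxr : (x : ℝ) ≤ 3 * Ac * (w + 1) := by exact_mod_cast hx3
  have hwW : (W₁ : ℝ) ≤ N₁ * (w + 1) := by
    have h5 : W₁ ≤ w + 1 := by omega
    have h6 : (W₁ : ℝ) ≤ w + 1 := by exact_mod_cast h5
    nlinarith
  have e : T' = τ + sl := by rw [hsl']; ring
  rw [e]
  refine size_aux hτ0 hsl (Y := N₁ * (w + 1)) hsx hcx' (hX₁ x (by omega)) ?_ ?_ ?_ ?_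
  · have h7 : 3 * (m * C₁) / sl ≤ N₁ * (w + 1) := hW₁.le.trans hwW
    rw [div_le_iff₀ hsl] at h7
    linarith
  · exact_mod_cast le_max_left _ _
  · exact_mod_cast le_max_right s (N₁ * (w + 1))
  · have h2 : (r : ℝ) * m * (2 * δ * x) ≤ (r * m + 1) * (2 * δ * (3 * Ac * (w + 1))) := by
      have : (0 : ℝ) ≤ r * m := by positivity
      gcongr
      linarith
    refine h2.trans (le_of_eq ?_)
    rw [hδ]
    have : (r : ℝ) * m + 1 ≠ 0 := by positivity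
    field_simp
    ring

/-- **positive upper density, uniform in the rank** -/
theorem upperG {c : ℂ} {q₁ : Polynomial ℤ} {β : ℝ} (hC : Curve c q₁ β) {τ : ℝ} (hτ0 : 0 ≤ τ)
    (hτ : τ < β) : ∃ N : ℕ, ∀ r : ℕ, ∃ δ : ℝ, 0 < δ ∧
      ∀ (ι : Type) [Fintype ι] [DecidableEq ι] (k : ℕ) (A : Matrix ι ι (Polynomial ℤ)) (N₀ : ℕ)
        (g : ℕ → ℝ) (S : Set ℕ),
        Hyp ((N₀ : Polynomial ℤ) * q₁ ^ k) A N₀ g τ r S →
        (∃ x₀ : ℕ, ∀ x ≥ x₀, (cnt S x : ℝ) * Real.log x ≤ δ * x) →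
        AlgI N c ((N₀ : Polynomial ℤ) * q₁ ^ k) A := by
  obtain ⟨T', hT1, hT2⟩ := exists_between hτ
  have hT0 : 0 ≤ T' := hτ0.trans hT1.le
  obtain ⟨E, hE1, hE2, hE3, hE4, hE5⟩ := hC T' hT0 hT2
  obtain ⟨m, K₀, N₁, hm, hN₁, hK₀, hmain⟩ := effG E hT0 hE1
  refine ⟨m, fun r => ?_⟩
  have hN₁r : (1 : ℝ) ≤ N₁ := by exact_mod_cast hN₁
  set sl := T' - τ with hsl'
  have hsl : 0 < sl := by linarith
  set δ : ℝ := sl / (6 * (r * m + 1)) with hδ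
  have hδ0 : 0 < δ := by positivity
  refine ⟨δ, hδ0, fun ι _ _ k A N₀ g S hH ⟨x₀, hcnt⟩ => ?_⟩
  obtain ⟨a, H, hAd, hAH⟩ := exists_bounds A
  obtain ⟨K, hK⟩ := hmain c hE2 q₁ hE3 hE4 hE5 ι k a
  obtain ⟨dd, C₁, hC₁, hdd0, hddm, hdda, hdiv, hsize⟩ := build _ A hH.N₀_ne hH.g_nonneg hH.total r S
    hH.rad hH.grow hH.curv (η := sl / 3) (by positivity)
  obtain ⟨X₁, hX₁⟩ := log_small hδ0 N₀
  obtain ⟨W₁, hW₁⟩ := exists_nat_gt (3 * (m * C₁) / sl)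
  set X₂ := x₀ + X₁ + W₁ with hX₂
  have e : T' = τ + sl := by rw [hsl']; ring
  have key : ∀ t : ℕ, X₂ ≤ t → (dd m t : ℝ) ≤ Real.exp (T' * t) := by
    intro t ht
    refine (hsize m t).trans (Real.exp_le_exp.2 ?_)
    rw [e]
    refine size_aux hτ0 hsl (Y := t) le_rfl (hcnt t (by omega)) (hX₁ t (by omega)) ?_ le_rfl
      le_rfl ?_
    · have h6 : (W₁ : ℝ) ≤ t := by exact_mod_cast (show W₁ ≤ t by omega)
      have h7 : 3 * (m * C₁) / sl ≤ t := hW₁.le.trans h6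
      rw [div_le_iff₀ hsl] at h7
      linarith
    · have h2 : (r : ℝ) * m * (2 * δ * t) ≤ (r * m + 1) * (2 * δ * t) := by
        gcongr
        linarith
      refine h2.trans (le_of_eq ?_)
      rw [hδ]
      have : (r : ℝ) * m + 1 ≠ 0 := by positivity
      field_simp
      ring
  refine hK H A hAd hAH N₀ hH.N₀_ne (K * (H + 1) + X₂) (Nat.le_add_right _ _) dd hdd0 hddm hdda
    (fun s _ => hdiv s) fun s _ => ?_
  set w := K * (H + 1) + X₂ with hw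
  rcases Nat.lt_or_ge s X₂ with hs | hs
  · have h1 : (dd m s : ℝ) ≤ dd m X₂ := by
      exact_mod_cast Nat.le_of_dvd (Nat.pos_of_ne_zero (hdd0 m X₂)) (hddm m s X₂ hs.le)
    refine (h1.trans (key X₂ le_rfl)).trans (Real.exp_le_exp.2 ?_)
    have h2 : (X₂ : ℝ) ≤ ((max s (N₁ * (w + 1)) : ℕ) : ℝ) := by
      have h3 : X₂ ≤ N₁ * (w + 1) := by
        calc X₂ ≤ 1 * (w + 1) := by omega
          _ ≤ N₁ * (w + 1) := Nat.mul_le_mul_right _ hN₁
      exact_mod_cast h3.trans (le_max_right _ _)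
    gcongr
  · refine (key s hs).trans (Real.exp_le_exp.2 ?_)
    have h2 : (s : ℝ) ≤ ((max s (N₁ * (w + 1)) : ℕ) : ℝ) := by exact_mod_cast le_max_left _ _
    gcongr

end Pool.Agent.Run7.h143.PC
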