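import Mathlib
import Pool.Agent.N780.Defs

set_option autoImplicit false

/-!
Definitions for the algebraicity criterion with given `p`-adic radii: systems `N₀ q^k Y' = A Y`, where `N₀` is
a positive integer (the finitely many primes at which the system is not integral divide `N₀`).
-/

namespace Pool.Agent.Run7.h143.PC.Rates

open PowerSeries
open scoped RatFunc
open Pool.Agent.N780.PCurv

/-- The leading coefficient `N₀ q^k` of the system. -/
noncomputable def lead (R : Type*) [CommRing R] (q : Polynomial ℤ) (N₀ k : ℕ) : Polynomial R :=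
  (N₀ : Polynomial R) * (q.map (Int.castRingHom R)) ^ k

/-- The generic radius of convergence at `p` of the system `Q Y' = A Y`, `Q = N₀ q^k`, is at least `p^(-g)`: for
every `ε > 0` there is a `C` such that for all `s` the matrix `D_s / (N₀^s s!)` (which is `q^(k s)` times the matrix
of the divided derivative `Y^(s) / s!`) has a denominator at `p` dividing `p^([(g + ε) s] + C)`. -/
def RadiusGe {R : Type*} [CommRing R] {n : ℕ} (Q : Polynomial R)
    (A : Matrix (Fin n) (Fin n) (Polynomial R)) (N₀ p : ℕ) (g : ℝ) : Prop :=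
  ∀ ε : ℝ, 0 < ε → ∃ C : ℕ, ∀ (s : ℕ) (i j : Fin n),
    ((p ^ (padicValNat p (s.factorial * N₀ ^ s) - (⌊(g + ε) * (s : ℝ)⌋₊ + C)) : ℕ) : Polynomial R) ∣
      der Q A s i j

/-- Growth of order `r` for the radius `p^(-g)`: for all `s` the matrix `D_s / s!` has a denominator at `p`
dividing `p^([g s] + r [log_p s])`. -/
def Growth {R : Type*} [CommRing R] {n : ℕ} (Q : Polynomial R)
    (A : Matrix (Fin n) (Fin n) (Polynomial R)) (p : ℕ) (g : ℝ) (r : ℕ) : Prop :=
  ∀ (s : ℕ) (i j : Fin n),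
    ((p ^ (padicValNat p s.factorial - (⌊g * (s : ℝ)⌋₊ + r * Nat.log p s)) : ℕ) : Polynomial R) ∣
      der Q A s i j

/-- The `p`-curvature of the system `Q Y' = A Y` is zero modulo `p`: `D_p ≡ 0`. -/
def ZeroCurvature {R : Type*} [CommRing R] {n : ℕ} (Q : Polynomial R)
    (A : Matrix (Fin n) (Fin n) (Polynomial R)) (p : ℕ) : Prop :=
  ∀ i j, ((p : ℕ) : Polynomial R) ∣ der Q A p i j

/-- The defect at `p` is at most `g`: the generic radius of convergence is at least `p^(-g)`, or `p` does not divide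
`N₀` and `g ≥ 1 / (p - 1)` (no condition), or `p` does not divide `N₀`, the `p`-curvature is zero and
`g ≥ 1 / (p (p - 1))`. -/
def DefectLe {R : Type*} [CommRing R] {n : ℕ} (Q : Polynomial R)
    (A : Matrix (Fin n) (Fin n) (Polynomial R)) (N₀ p : ℕ) (g : ℝ) : Prop :=
  RadiusGe Q A N₀ p g ∨ (¬ p ∣ N₀ ∧ 1 / ((p : ℝ) - 1) ≤ g) ∨
    (¬ p ∣ N₀ ∧ ZeroCurvature Q A p ∧ 1 / ((p : ℝ) * ((p : ℝ) - 1)) ≤ g)

/-- The defect at `p` is at most `g`, with growth of order `r`. -/
def GrowthLe {R : Type*} [CommRing R] {n : ℕ} (Q : Polynomial R)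
    (A : Matrix (Fin n) (Fin n) (Polynomial R)) (p : ℕ) (g : ℝ) (r : ℕ) : Prop :=
  Growth Q A p g r ∨ 1 / ((p : ℝ) - 1) ≤ g ∨
    (ZeroCurvature Q A p ∧ 1 / ((p : ℝ) * ((p : ℝ) - 1)) ≤ g)

/-- The primes `p ≤ x` which do not divide `N₀` and at which the `p`-curvature is not zero. -/
def nonzeroPrimes {R : Type*} [CommRing R] {n : ℕ} (Q : Polynomial R)
    (A : Matrix (Fin n) (Fin n) (Polynomial R)) (N₀ x : ℕ) : Set ℕ :=
  {p | p ≤ x ∧ p.Prime ∧ ¬ p ∣ N₀ ∧ ¬ ZeroCurvature Q A p}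

/-- The total defect `∑_p g_p log p` is at most `τ`. -/
def TotalDefect (g : ℕ → ℝ) (τ : ℝ) : Prop :=
  (∀ p, 0 ≤ g p) ∧ ∀ F : Finset ℕ, (∀ p ∈ F, p.Prime) → ∑ p ∈ F, g p * Real.log p ≤ τ

/-- All formal solutions at `c` of `Q Y' = A Y` lie in one extension of `ℂ(x)` of degree at most `N`. -/
def AlgebraicOfDegree {R : Type*} [CommRing R] {n : ℕ} (ρ : R →+* ℂ) (c : ℂ) (Q : Polynomial R)
    (A : Matrix (Fin n) (Fin n) (Polynomial R)) (N : ℕ) : Prop :=
  ∃ L : IntermediateField (RatFunc ℂ) (LaurentSeries ℂ), FiniteDimensional (RatFunc ℂ) L ∧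
    Module.finrank (RatFunc ℂ) L ≤ N ∧
    ∀ y : Fin n → ℂ⟦X⟧, IsSolution ρ c Q A y → ∀ i, HahnSeries.ofPowerSeries ℤ ℂ (y i) ∈ L

/-- The curves, their base points, and the logarithms of the sizes of their uniformisations there:
the projective line without `0`, `1`, `∞`, at `c = (1 - i √3) / 2`, with `β = log 3 / 2 + log 16 / 3`, and the
affine line without the `m`-th roots of unity, at `c = 0`, with `β = log 16 / m`. -/
inductive IsCurve : ℂ → Polynomial ℤ → ℝ → Prop
  | three : IsCurve ⟨1 / 2, -(Real.sqrt 3 / 2)⟩ (Polynomial.X * (1 - Polynomial.X))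
      (Real.log 3 / 2 + Real.log 16 / 3)
  | roots (m : ℕ) (hm : m ≠ 0) : IsCurve 0 (1 - Polynomial.X ^ m) (Real.log 16 / m)

end Pool.Agent.Run7.h143.PC.Rates
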