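import Mathlib
import Pool.Agent.N780.Defs

set_option autoImplicit false

/-!
Definitions for the density theorem for nonvanishing `p`-curvatures.
-/

namespace Pool.Agent.Run7.h143.PC

open Pool.Agent.N780.PCurv

/-- Logarithmic growth of order `r` at `p` of the system `q Y' = A Y`: for all `s` the matrix `D_s / s!` (which
gives the divided derivative `Y^(s) / s!`, up to the factor `q^s`) has a denominator at `p` dividing
`p^(r ⌊log_p s⌋)`. -/
def LogGrowth {R : Type*} [CommRing R] {n : ℕ} (q : Polynomial R)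
    (A : Matrix (Fin n) (Fin n) (Polynomial R)) (p r : ℕ) : Prop :=
  ∀ s i j, ((p ^ (padicValNat p s.factorial - r * Nat.log p s) : ℕ) : Polynomial R) ∣ der q A s i j

/-- The generic radius of convergence at `p` of the system `q Y' = A Y` is one: for every `N` there is a `C` such that
for all `s` the matrix `D_s / s!` has a denominator at `p` dividing `p^(s / (N + 1) + C)`. -/
def RadiusOne {R : Type*} [CommRing R] {n : ℕ} (q : Polynomial R)
    (A : Matrix (Fin n) (Fin n) (Polynomial R)) (p : ℕ) : Prop :=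
  ∀ N : ℕ, ∃ C : ℕ, ∀ s i j,
    ((p ^ (padicValNat p s.factorial - (s / (N + 1) + C)) : ℕ) : Polynomial R) ∣ der q A s i j

/-- The primes `p ≤ x` such that the system `q Y' = A Y` does not have level `h(p)` at `p`. -/
def badPrimes {R : Type*} [CommRing R] {n : ℕ} (q : Polynomial R)
    (A : Matrix (Fin n) (Fin n) (Polynomial R)) (h : ℕ → ℕ) (x : ℕ) : Set ℕ :=
  {p | p ≤ x ∧ p.Prime ∧ ¬ HasLevel q A p (h p)}

/-- Thin sets of primes: `∑_(p ∈ W) log p / p ≤ log 2 / 2 + log 3 / 3`, for instance `W = {2, 3}`. -/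
def Thin (W : Set ℕ) : Prop :=
  (Summable fun p : Nat.Primes => W.indicator (fun p : ℕ => Real.log p / p) p) ∧
    ∑' p : Nat.Primes, W.indicator (fun p : ℕ => Real.log p / p) p ≤
      Real.log 2 / 2 + Real.log 3 / 3

open PowerSeries in
/-- The system `q^k Y' = A Y` has a formal solution at `c` which is not rational with poles only at the zeros of
`q` and at infinity: some entry is not made a polynomial by any power of `q`. -/
def HasIrrationalSolution {R : Type*} [CommRing R] (ρ : R →+* ℂ) (c : ℂ) (q : Polynomial R)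
    (k : ℕ) {n : ℕ} (A : Matrix (Fin n) (Fin n) (Polynomial R)) : Prop :=
  ∃ y : Fin n → ℂ⟦X⟧, IsSolution ρ c (q ^ k) A y ∧
    ∃ i, ∀ (M : ℕ) (P : Polynomial ℂ), expand ρ c q ^ M * y i ≠ (P : ℂ⟦X⟧)

end Pool.Agent.Run7.h143.PC
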