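import Mathlib
import Pool.Agent.N780.FinalE
import Pool.Agent.Run7.h143.PC.Defs
import Pool.Agent.Run7.h143.PC.Dens

set_option autoImplicit false

/-!
Passage to the rings with a basis over the integers.
-/

namespace Pool.Agent.Run7.h143.PC

open PowerSeries Pool.Agent.N780
open scoped RatFunc

section

variable {R : Type} [CommRing R] {β : Type} [Fintype β] [DecidableEq β] (b : Module.Basis β ℤ R)

theorem Bl_dvd {ι : Type} [Fintype ι] [DecidableEq ι] (q : Polynomial ℤ)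
    (A : Matrix ι ι (Polynomial R)) {N s : ℕ}
    (hl : ∀ i j, ((N : ℕ) : Polynomial R) ∣ N780.der (q.map (Int.castRingHom R)) A s i j) :
    ∀ x y, ((N : ℕ) : Polynomial ℤ) ∣ N780.der q (Bl b A) s x y := by
  intro x y
  obtain ⟨P, hP⟩ := hl x.1 y.1
  rw [Bl_der, Bl, hP, map_mul, map_natCast]
  refine ⟨Th b P x.2 y.2, ?_⟩
  rw [← Matrix.diagonal_natCast, Matrix.diagonal_mul]

end

theorem cnt_eq {R : Type*} [CommRing R] {n : ℕ} (q : Polynomial R)
    (A : Matrix (Fin n) (Fin n) (Polynomial R)) (h : ℕ → ℕ) (x : ℕ) :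
    (badPrimes q A h x).ncard = cnt {p | ¬ PCurv.HasLevel q A p (h p)} x := by
  classical
  unfold cnt
  rw [← Set.ncard_coe_finset]
  congr 1
  ext p
  simp only [badPrimes, Set.mem_setOf_eq, Finset.coe_filter, Finset.mem_range]
  exact ⟨fun h => ⟨by omega, h.2.1, h.2.2⟩, fun h => ⟨by omega, h.2.1, h.2.2⟩⟩

theorem exists_rho {R : Type} [CommRing R] {d : ℕ} (b : Module.Basis (Fin d) ℤ R) (ρ : R →+* ℂ) :
    ∃ a, ρ (b a) ≠ 0 := by
  by_contra hcon
  push Not at hcon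
  have h1 : ρ 1 = 0 := by
    rw [← b.sum_repr 1, map_sum]
    refine Finset.sum_eq_zero fun a _ => ?_
    rw [zsmul_eq_mul, map_mul, hcon a, mul_zero]
  rw [map_one] at h1
  exact one_ne_zero h1

theorem level_iff {R : Type} [CommRing R] {n : ℕ} (q : Polynomial R)
    (A : Matrix (Fin n) (Fin n) (Polynomial R)) (p h : ℕ) :
    PCurv.HasLevel q A p h ↔ Level q A p h := by
  unfold PCurv.HasLevel Level
  simp only [pcder_eq]

theorem log_iff {R : Type} [CommRing R] {n : ℕ} (q : Polynomial R)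
    (A : Matrix (Fin n) (Fin n) (Polynomial R)) (p r : ℕ) :
    LogGrowth q A p r ↔ LogGr q A p r := by
  unfold LogGrowth LogGr
  simp only [pcder_eq]

theorem Bl_log {R : Type} [CommRing R] {d : ℕ} (b : Module.Basis (Fin d) ℤ R) {n : ℕ}
    {q : Polynomial ℤ} {A : Matrix (Fin n) (Fin n) (Polynomial R)} {p r : ℕ}
    (h : LogGrowth (q.map (Int.castRingHom R)) A p r) : LogGr q (Bl b A) p r := by
  have h0 := (log_iff _ _ _ _).1 h
  intro s
  exact Bl_dvd b _ A fun i j => h0 s i j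

/-- rational solutions, effective lower density -/
theorem lowerR {c : ℂ} (hc0 : c ≠ 0) (hc1 : c ≠ 1) {β : ℝ} (hC : Curve c Rat.q₀ β) {τ : ℝ}
    (hτ0 : 0 ≤ τ) (hτ : τ < β) (n d r : ℕ) :
    ∃ δ : ℝ, 0 < δ ∧ ∀ (R : Type) [CommRing R] (b : Module.Basis (Fin d) ℤ R) (k a : ℕ), ∃ K : ℕ,
      ∀ (ρ : R →+* ℂ) (H : ℕ) (A : Matrix (Fin n) (Fin n) (Polynomial R)),
        (∀ i j, (A i j).natDegree ≤ a) →
        (∀ i j l e, |b.repr ((A i j).coeff l) e| ≤ (H : ℤ)) →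
        ∀ x : ℕ, K * (H + 1) ≤ x → ∀ h : ℕ → ℕ, Bud h τ →
        (∀ p ∈ badPrimes (Rat.q₀.map (Int.castRingHom R) ^ k) A h x,
          LogGr (Rat.q₀ ^ k) (Bl b A) p r) →
        ((badPrimes (Rat.q₀.map (Int.castRingHom R) ^ k) A h x).ncard : ℝ) * Real.log x ≤ δ * x →
        ∃ M : ℕ, ∀ y : Fin n → ℂ⟦X⟧,
          PCurv.IsSolution ρ c (Rat.q₀.map (Int.castRingHom R) ^ k) A y →
          ∀ i, ∃ P : Polynomial ℂ,
            PCurv.expand ρ c (Rat.q₀.map (Int.castRingHom R)) ^ M * y i = (P : ℂ⟦X⟧) := by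
  classical
  obtain ⟨N, δ, hδ, hmain⟩ := lower hC hτ0 hτ r (n * d)
  refine ⟨δ, hδ, fun R _ b k a => ?_⟩
  obtain ⟨K, hK⟩ := hmain (Fin n × Fin d) (by simp) k a
  refine ⟨K * (tbl b + 1), fun ρ H A hAd hAH x hx h hB hlog hcnt => ?_⟩
  obtain ⟨a₀, ha₀⟩ := exists_rho b ρ
  set S : Set ℕ := {p | ¬ PCurv.HasLevel (Rat.q₀.map (Int.castRingHom R) ^ k) A p (h p)} with hS
  rw [cnt_eq] at hcnt
  have hmem : ∀ p : ℕ, p.Prime → p ≤ x → p ∈ S →
      p ∈ badPrimes (Rat.q₀.map (Int.castRingHom R) ^ k) A h x := fun p hp hpx hpS =>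
    ⟨hpx, hp, hpS⟩
  have hH' : K * (tbl b * H + 1) ≤ x := by
    refine le_trans ?_ hx
    calc K * (tbl b * H + 1) ≤ K * ((tbl b + 1) * (H + 1)) := by
          gcongr
          nlinarith
      _ = _ := by ring
  obtain ⟨L, hL1, hL2, hL3⟩ := hK (tbl b * H) (Bl b A)
    (fun x y => (Th_deg b _ _ _).trans (hAd _ _))
    (fun x y l => by
      change |(Th b (A x.1 y.1) x.2 y.2).coeff l| ≤ _
      rw [coeff_Th]
      exact Lam_size b (fun e => hAH _ _ l e) _ _) x hH' h hB S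
    (fun p hp hpx hpS => by
      have h0 : PCurv.HasLevel (Rat.q₀.map (Int.castRingHom R) ^ k) A p (h p) := by
        by_contra hcon
        exact hpS hcon
      refine Bl_level b _ A ?_
      rw [Polynomial.map_pow]
      exact (level_iff _ _ _ _).1 h0)
    (fun p hp hpx hpS => hlog p (hmem p hp hpx hpS)) hcnt
  obtain ⟨M, hM⟩ := Rat.rational_of_mem c hc0 hc1 k (Bl b A) hL3
  refine ⟨M, fun y hy i => ?_⟩
  have hy' : ∀ i, sh c (Rat.q₀ ^ k) * d⁄dX ℂ (y i) = ∑ j, shR ρ c (A i j) * y j := by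
    intro x
    have := hy x
    rw [← Polynomial.map_pow, expand_map] at this
    exact this
  obtain ⟨P, hP⟩ := hM (fun x => C (ρ (b x.2)) * y x.1)
    (fun x => Bl_sol b ρ c (Rat.q₀ ^ k) A y hy' x) (i, a₀)
  refine ⟨Polynomial.C (ρ (b a₀))⁻¹ * P, ?_⟩
  rw [Polynomial.coe_mul, Polynomial.coe_C, ← hP, expand_map]
  have e : C ((ρ (b a₀))⁻¹) * C (ρ (b a₀)) = 1 := by
    rw [← map_mul, inv_mul_cancel₀ ha₀, map_one]
  linear_combination (-(sh c Rat.q₀ ^ M * y i)) * e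

/-- rational solutions, upper density uniform in the rank and in the ring -/
theorem upperR {c : ℂ} (hc0 : c ≠ 0) (hc1 : c ≠ 1) {β : ℝ} (hC : Curve c Rat.q₀ β) {τ : ℝ}
    (hτ0 : 0 ≤ τ) (hτ : τ < β) (r : ℕ) :
    ∃ δ : ℝ, 0 < δ ∧ ∀ (R : Type) [CommRing R] [Module.Free ℤ R] [Module.Finite ℤ R] (n k : ℕ)
      (ρ : R →+* ℂ) (A : Matrix (Fin n) (Fin n) (Polynomial R)) (h : ℕ → ℕ), Bud h τ →
        (∀ p : ℕ, p.Prime → ¬ PCurv.HasLevel (Rat.q₀.map (Int.castRingHom R) ^ k) A p (h p) →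
          LogGrowth (Rat.q₀.map (Int.castRingHom R) ^ k) A p r) →
        (∃ x₀ : ℕ, ∀ x ≥ x₀,
          ((badPrimes (Rat.q₀.map (Int.castRingHom R) ^ k) A h x).ncard : ℝ) * Real.log x ≤
            δ * x) →
        ∃ M : ℕ, ∀ y : Fin n → ℂ⟦X⟧,
          PCurv.IsSolution ρ c (Rat.q₀.map (Int.castRingHom R) ^ k) A y →
          ∀ i, ∃ P : Polynomial ℂ,
            PCurv.expand ρ c (Rat.q₀.map (Int.castRingHom R)) ^ M * y i = (P : ℂ⟦X⟧) := by
  classical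
  obtain ⟨N, δ, hδ, hmain⟩ := upper hC hτ0 hτ r
  refine ⟨δ, hδ, fun R _ _ _ n k ρ A h hB hlog ⟨x₀, hcnt⟩ => ?_⟩
  set b := Module.finBasis ℤ R with hb
  obtain ⟨a₀, ha₀⟩ := exists_rho b ρ
  set S : Set ℕ := {p | ¬ PCurv.HasLevel (Rat.q₀.map (Int.castRingHom R) ^ k) A p (h p)} with hS
  obtain ⟨L, hL1, hL2, hL3⟩ := hmain (Fin n × Fin _) k (Bl b A) h hB S
    (fun p hp hpS => by
      have h0 : PCurv.HasLevel (Rat.q₀.map (Int.castRingHom R) ^ k) A p (h p) := by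
        by_contra hcon
        exact hpS hcon
      refine Bl_level b _ A ?_
      rw [Polynomial.map_pow]
      exact (level_iff _ _ _ _).1 h0)
    (fun p hp hpS => by
      have h0 := (log_iff _ _ _ _).1 (hlog p hp hpS)
      intro s
      refine Bl_dvd b _ A ?_
      intro i j
      rw [Polynomial.map_pow]
      exact h0 s i j)
    ⟨x₀, fun x hx => by
      have := hcnt x hx
      rwa [cnt_eq] at this⟩
  obtain ⟨M, hM⟩ := Rat.rational_of_mem c hc0 hc1 k (Bl b A) hL3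
  refine ⟨M, fun y hy i => ?_⟩
  have hy' : ∀ i, sh c (Rat.q₀ ^ k) * d⁄dX ℂ (y i) = ∑ j, shR ρ c (A i j) * y j := by
    intro x
    have := hy x
    rw [← Polynomial.map_pow, expand_map] at this
    exact this
  obtain ⟨P, hP⟩ := hM (fun x => C (ρ (b x.2)) * y x.1)
    (fun x => Bl_sol b ρ c (Rat.q₀ ^ k) A y hy' x) (i, a₀)
  refine ⟨Polynomial.C (ρ (b a₀))⁻¹ * P, ?_⟩
  rw [Polynomial.coe_mul, Polynomial.coe_C, ← hP, expand_map]
  have e : C ((ρ (b a₀))⁻¹) * C (ρ (b a₀)) = 1 := by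
    rw [← map_mul, inv_mul_cancel₀ ha₀, map_one]
  linear_combination (-(sh c Rat.q₀ ^ M * y i)) * e

end Pool.Agent.Run7.h143.PC
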