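import Mathlib
import Pool.Agent.Run7.h143.PC.Ring
import Pool.Agent.Run7.h143.PC.DR6

set_option autoImplicit false

/-!
The first form of the final statement.
-/

namespace Pool.Agent.Run7.h143.PC

open PowerSeries Pool.Agent.N780
open scoped RatFunc

/-- the budget of the thin sets -/
theorem bud_outside (W : Set ℕ)
    (hW : Summable fun p : Nat.Primes => W.indicator (fun p : ℕ => Real.log p / p) p)
    (hle : ∑' p : Nat.Primes, W.indicator (fun p : ℕ => Real.log p / p) p ≤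
      Real.log 2 / 2 + Real.log 3 / 3) :
    Bud (PCurv.outside W) (1.09487 * Real.log 2 + (Real.log 2 / 2 + Real.log 3 / 3)) := by
  intro F hF
  have h1 : ∑ p ∈ F, wt (PCurv.outside W) p ≤ ∑' p : Nat.Primes, wt (lvS W) p :=
    sum_le_tsum (fun _ hp => wt_nonneg _ hp) (lvS_summable hW) F hF
  exact h1.trans ((lvS_tsum hW).trans (by linarith))

theorem tau_nonneg : 0 ≤ 1.09487 * Real.log 2 + (Real.log 2 / 2 + Real.log 3 / 3) := by
  have h1 : 0 < Real.log 2 := Real.log_pos (by norm_num)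
  have h2 : 0 < Real.log 3 := Real.log_pos (by norm_num)
  positivity

theorem tau_lt : 1.09487 * Real.log 2 + (Real.log 2 / 2 + Real.log 3 / 3) <
    Real.log 3 / 2 + Real.log 16 / 3 := by
  have h2 := log_three_ge
  have h3 := log_sixteen
  have h4 : 0 < Real.log 2 := Real.log_pos (by norm_num)
  rw [h3]
  nlinarith

theorem base_point : (⟨1 / 2, -(Real.sqrt 3 / 2)⟩ : ℂ) = -om := by
  apply Complex.ext
  · simp only [om, Complex.neg_re]; norm_num
  · simp only [om, Complex.neg_im]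

theorem om_ne : (-om : ℂ) ≠ 0 ∧ (-om : ℂ) ≠ 1 := by
  have hre : (-om).re = 1 / 2 := by rw [← base_point]
  constructor
  · intro h0
    rw [h0] at hre
    norm_num at hre
  · intro h0
    rw [h0] at hre
    norm_num at hre

theorem not_dvd_q (k : ℕ) {p : ℕ} (hp : p.Prime) :
    ¬ ((p : ℕ) : Polynomial ℤ) ∣ (Rat.q₀ ^ k : Polynomial ℤ) := by
  have := Fact.mk hp
  have hpr := DR.prime_p p
  intro h
  have h1 := hpr.dvd_of_dvd_pow h
  have h2 : ¬ ((p : ℕ) : Polynomial ℤ) ∣ (Rat.q₀ : Polynomial ℤ) := by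
    rintro ⟨P, hP⟩
    have h3 := congrArg (fun Q : Polynomial ℤ => Q.coeff 1) hP
    have e : ((p : ℕ) : Polynomial ℤ) = Polynomial.C (p : ℤ) := by simp
    have e2 : (Rat.q₀ : Polynomial ℤ).coeff 1 = 1 := by
      unfold Rat.q₀
      rw [mul_sub, mul_one, ← sq, Polynomial.coeff_sub, Polynomial.coeff_X_one,
        Polynomial.coeff_X_pow]
      norm_num
    simp only [e, Polynomial.coeff_C_mul] at h3
    rw [e2] at h3
    have h4 : (p : ℤ) ∣ 1 := ⟨_, h3⟩
    exact hp.one_lt.ne' (by exact_mod_cast Int.eq_one_of_dvd_one (by positivity) h4)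
  exact h2 h1

theorem Bl_rad {R : Type} [CommRing R] {d : ℕ} (b : Module.Basis (Fin d) ℤ R) {n : ℕ}
    {q : Polynomial ℤ} {A : Matrix (Fin n) (Fin n) (Polynomial R)} {p : ℕ}
    (h : RadiusOne (q.map (Int.castRingHom R)) A p) : DR.RadOne q (Bl b A) p := by
  intro N
  obtain ⟨Cn, hC⟩ := h N
  refine ⟨Cn, fun s => Bl_dvd b _ A fun i j => ?_⟩
  rw [← pcder_eq]
  exact hC s i j

theorem not_bad_wild {R : Type} [CommRing R] {n : ℕ} (q : Polynomial R)
    (A : Matrix (Fin n) (Fin n) (Polynomial R)) (p : ℕ) : PCurv.HasLevel q A p 0 := by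
  intro s hs i j
  rw [pow_zero] at hs
  have h1 : s.factorial = 1 := by
    rw [Nat.factorial_eq_one]; exact hs
  rw [h1]
  simp

/-- comparison of the counting inequalities -/
theorem count_le {N x : ℕ} {δ : ℝ} (hx : 2 ≤ x) (h : (N : ℝ) < δ * (x / Real.log x)) :
    (N : ℝ) * Real.log x ≤ δ * x := by
  have h1 : 0 < Real.log x := Real.log_pos (by exact_mod_cast hx)
  have h2 : (N : ℝ) * Real.log x ≤ (δ * (x / Real.log x)) * Real.log x := by gcongr
  refine h2.trans (le_of_eq ?_)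
  field_simp

/-- lower density, effective -/
theorem lowerV1 (n d : ℕ) : ∃ δ : ℝ, 0 < δ ∧
    ∀ (R : Type) [CommRing R] (b : Module.Basis (Fin d) ℤ R) (k a : ℕ), ∃ K : ℕ,
      ∀ (W : Set ℕ), (Summable fun p : Nat.Primes => W.indicator (fun p : ℕ => Real.log p / p) p) →
        ∑' p : Nat.Primes, W.indicator (fun p : ℕ => Real.log p / p) p ≤
          Real.log 2 / 2 + Real.log 3 / 3 →
      ∀ (ρ : R →+* ℂ) (H : ℕ) (A : Matrix (Fin n) (Fin n) (Polynomial R)),
        (∀ i j, (A i j).natDegree ≤ a) →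
        (∀ i j l e, |b.repr ((A i j).coeff l) e| ≤ (H : ℤ)) →
        ∀ y : Fin n → ℂ⟦X⟧,
          PCurv.IsSolution ρ ⟨1 / 2, -(Real.sqrt 3 / 2)⟩
            ((Polynomial.X * (1 - Polynomial.X)) ^ k) A y →
          (∃ i, ∀ (M : ℕ) (P : Polynomial ℂ),
            PCurv.expand ρ ⟨1 / 2, -(Real.sqrt 3 / 2)⟩ (Polynomial.X * (1 - Polynomial.X)) ^ M *
              y i ≠ (P : ℂ⟦X⟧)) →
        ∀ x : ℕ, K * (H + 1) ≤ x →
        (∀ p ∈ badPrimes ((Polynomial.X * (1 - Polynomial.X)) ^ k) A (PCurv.outside W) x,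
          RadiusOne ((Polynomial.X * (1 - Polynomial.X)) ^ k) A p) →
        δ * (x / Real.log x) ≤
          (badPrimes ((Polynomial.X * (1 - Polynomial.X)) ^ k) A (PCurv.outside W) x).ncard := by
  rw [base_point]
  obtain ⟨δ, hδ, hmain⟩ := lowerR om_ne.1 om_ne.2 three_curve tau_nonneg tau_lt n d
    (Fintype.card (Fin n × Fin d) - 1)
  refine ⟨δ, hδ, fun R _ b k a => ?_⟩
  obtain ⟨K, hK⟩ := hmain R b k a
  have hq : (Rat.q₀.map (Int.castRingHom R) : Polynomial R) =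
      Polynomial.X * (1 - Polynomial.X) := by
    unfold Rat.q₀; simp
  refine ⟨K + 2, fun W hW hle ρ H A hAd hAH y hy hirr x hx hR => ?_⟩
  have hx1 : K * (H + 1) ≤ x := le_trans (Nat.mul_le_mul_right _ (by omega)) hx
  have hx2 : 2 ≤ x := by
    refine le_trans ?_ hx
    calc 2 = 2 * 1 := by norm_num
      _ ≤ (K + 2) * (H + 1) := Nat.mul_le_mul (by omega) (by omega)
  by_contra hcon
  push Not at hcon
  have hK' := hK ρ H A hAd hAH x hx1 (PCurv.outside W) (bud_outside W hW hle)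
  rw [hq] at hK'
  obtain ⟨M, hM⟩ := hK' (fun p hp => by
    refine DR.logGr_of_radOne hp.2.1 (not_dvd_q k hp.2.1) (Bl_rad b ?_)
    rw [Polynomial.map_pow, hq]
    exact hR p hp) (count_le hx2 hcon)
  obtain ⟨i, hi⟩ := hirr
  obtain ⟨P, hP⟩ := hM y hy i
  exact hi M P hP

/-- upper density, uniform in the rank and the ring -/
theorem upperV1 (r : ℕ) : ∃ δ : ℝ, 0 < δ ∧
    ∀ (R : Type) [CommRing R] [Module.Free ℤ R] [Module.Finite ℤ R] (n k : ℕ)
      (ρ : R →+* ℂ) (A : Matrix (Fin n) (Fin n) (Polynomial R)) (W : Set ℕ),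
        (Summable fun p : Nat.Primes => W.indicator (fun p : ℕ => Real.log p / p) p) →
        ∑' p : Nat.Primes, W.indicator (fun p : ℕ => Real.log p / p) p ≤
          Real.log 2 / 2 + Real.log 3 / 3 →
        (∀ x, ∀ p ∈ badPrimes ((Polynomial.X * (1 - Polynomial.X)) ^ k) A (PCurv.outside W) x,
          LogGrowth ((Polynomial.X * (1 - Polynomial.X)) ^ k) A p r) →
        ∀ y : Fin n → ℂ⟦X⟧,
          PCurv.IsSolution ρ ⟨1 / 2, -(Real.sqrt 3 / 2)⟩
            ((Polynomial.X * (1 - Polynomial.X)) ^ k) A y →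
          (∃ i, ∀ (M : ℕ) (P : Polynomial ℂ),
            PCurv.expand ρ ⟨1 / 2, -(Real.sqrt 3 / 2)⟩ (Polynomial.X * (1 - Polynomial.X)) ^ M *
              y i ≠ (P : ℂ⟦X⟧)) →
        ∀ x₀ : ℕ, ∃ x ≥ x₀, δ * (x / Real.log x) ≤
          (badPrimes ((Polynomial.X * (1 - Polynomial.X)) ^ k) A (PCurv.outside W) x).ncard := by
  rw [base_point]
  obtain ⟨δ, hδ, hmain⟩ := upperR om_ne.1 om_ne.2 three_curve tau_nonneg tau_lt r
  refine ⟨δ, hδ, fun R _ _ _ n k ρ A W hW hle hlog y hy hirr x₀ => ?_⟩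
  have hq : (Rat.q₀.map (Int.castRingHom R) : Polynomial R) =
      Polynomial.X * (1 - Polynomial.X) := by
    unfold Rat.q₀; simp
  by_contra hcon
  push Not at hcon
  have hK' := hmain R n k ρ A (PCurv.outside W) (bud_outside W hW hle)
  rw [hq] at hK'
  obtain ⟨M, hM⟩ := hK' (fun p hp hbad => hlog p p ⟨le_rfl, hp, hbad⟩) ⟨x₀ + 2, fun x hx => count_le (by omega) (hcon x (by omega))⟩
  obtain ⟨i, hi⟩ := hirr
  obtain ⟨P, hP⟩ := hM y hy i
  exact hi M P hP

end Pool.Agent.Run7.h143.PC
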