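import Mathlib
import Pool.Agent.N780.Final
import Pool.Agent.Run7.h143.PC.RDefs
import Pool.Agent.Run7.h143.PC.V1
import Pool.Agent.Run7.h143.PC.G5

set_option autoImplicit false

/-!
Passage to the rings with a basis over the integers, and the final form of the criterion with rates.
-/

namespace Pool.Agent.Run7.h143.PC

open PowerSeries Pool.Agent.N780
open scoped RatFunc

theorem lead_eq {R : Type*} [CommRing R] (q : Polynomial ℤ) (N₀ k : ℕ) :
    Rates.lead R q N₀ k = (((N₀ : Polynomial ℤ) * q ^ k).map (Int.castRingHom R)) := by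
  unfold Rates.lead
  rw [Polynomial.map_mul, Polynomial.map_natCast, Polynomial.map_pow]

section

variable {R : Type} [CommRing R] {β : Type} [Fintype β] [DecidableEq β] (b : Module.Basis β ℤ R)

/-- divisibility can be read off from the regular representation -/
theorem dvd_of_Th {N : ℕ} (P : Polynomial R) (h : ∀ a e, ((N : ℕ) : Polynomial ℤ) ∣ Th b P a e) :
    ((N : ℕ) : Polynomial R) ∣ P := by
  have e1 : ((N : ℕ) : Polynomial R) = Polynomial.C (N : R) := by simp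
  have e2 : ((N : ℕ) : Polynomial ℤ) = Polynomial.C (N : ℤ) := by simp
  rw [e1, Polynomial.C_dvd_iff_dvd_coeff]
  intro k
  have h1 : ∀ a e, (N : ℤ) ∣ Lam b (P.coeff k) a e := by
    intro a e
    have h2 := h a e
    rw [e2, Polynomial.C_dvd_iff_dvd_coeff] at h2
    have h3 := h2 k
    rwa [coeff_Th] at h3
  have h4 : ∀ a, (N : R) ∣ P.coeff k * b a := by
    intro a
    have h5 : P.coeff k * b a = ∑ e, (Lam b (P.coeff k) a e) • b e := by
      have h6 := b.sum_repr (P.coeff k * b a)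
      rw [← h6]
      refine Finset.sum_congr rfl fun e _ => ?_
      congr 1
      change _ = Algebra.leftMulMatrix b (P.coeff k) e a
      rw [Algebra.leftMulMatrix_eq_repr_mul]
    rw [h5]
    refine Finset.dvd_sum fun e _ => ?_
    obtain ⟨u, hu⟩ := h1 a e
    rw [hu]
    exact ⟨(u : R) * b e, by rw [zsmul_eq_mul]; push_cast; ring⟩
  have h5 : P.coeff k = ∑ a, (b.repr 1 a : R) * (P.coeff k * b a) := by
    calc P.coeff k = P.coeff k * 1 := (mul_one _).symm
      _ = P.coeff k * ∑ a, b.repr 1 a • b a := by rw [b.sum_repr 1]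
      _ = _ := by
          rw [Finset.mul_sum]
          refine Finset.sum_congr rfl fun a _ => ?_
          rw [zsmul_eq_mul]; ring
  rw [h5]
  exact Finset.dvd_sum fun a _ => Dvd.dvd.mul_left (h4 a) _

end

theorem not_dvd_lead {p : ℕ} (hp : p.Prime) {q : Polynomial ℤ} (hq : ¬ ((p : ℕ) : Polynomial ℤ) ∣ q)
    {N₀ : ℕ} (hN : ¬ p ∣ N₀) (k : ℕ) :
    ¬ ((p : ℕ) : Polynomial ℤ) ∣ ((N₀ : Polynomial ℤ) * q ^ k) := by
  have hf : Fact p.Prime := ⟨hp⟩
  have hpr := DR.prime_p p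
  intro h
  rcases hpr.dvd_or_dvd h with h1 | h1
  · have e1 : ((p : ℕ) : Polynomial ℤ) = Polynomial.C (p : ℤ) := by simp
    rw [e1, Polynomial.C_dvd_iff_dvd_coeff] at h1
    have h2 := h1 0
    have e2 : ((N₀ : ℕ) : Polynomial ℤ).coeff 0 = (N₀ : ℤ) := by
      have e3 : ((N₀ : ℕ) : Polynomial ℤ) = Polynomial.C (N₀ : ℤ) := by simp
      rw [e3, Polynomial.coeff_C_zero]
    rw [e2] at h2
    exact hN (by exact_mod_cast h2)
  · exact hq (hpr.dvd_of_dvd_pow h1)

/-- vanishing `p`-curvature over the ring -/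
theorem ring_curv {R : Type} [CommRing R] {d : ℕ} (b : Module.Basis (Fin d) ℤ R) {n p : ℕ}
    (hp : p.Prime) {Q : Polynomial ℤ} (hQ : ¬ ((p : ℕ) : Polynomial ℤ) ∣ Q)
    (A : Matrix (Fin n) (Fin n) (Polynomial R))
    (h : Rates.ZeroCurvature (Q.map (Int.castRingHom R)) A p) (s : ℕ) (x y : Fin n × Fin d) :
    ((p ^ (s / p) : ℕ) : Polynomial ℤ) ∣ N780.der Q (Bl b A) s x y := by
  refine DR.dvd_of_curv hp hQ _ ?_ s x y
  refine Bl_dvd b Q A fun i j => ?_
  have := h i j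
  rwa [pcder_eq] at this

theorem ring_curv' {R : Type} [CommRing R] {d : ℕ} (b : Module.Basis (Fin d) ℤ R) {n p : ℕ}
    (hp : p.Prime) {Q : Polynomial ℤ} (hQ : ¬ ((p : ℕ) : Polynomial ℤ) ∣ Q)
    (A : Matrix (Fin n) (Fin n) (Polynomial R))
    (h : Rates.ZeroCurvature (Q.map (Int.castRingHom R)) A p) (s : ℕ) (i j : Fin n) :
    ((p ^ (s / p) : ℕ) : Polynomial R) ∣ PCurv.der (Q.map (Int.castRingHom R)) A s i j := by
  rw [pcder_eq]
  refine dvd_of_Th b _ fun a e => ?_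
  have h1 := ring_curv b hp hQ A h s (i, a) (j, e)
  rw [Bl_der] at h1
  exact h1

/-- Legendre's bound -/
theorem legendre {p : ℕ} (hp : p.Prime) (s : ℕ) :
    (padicValNat p s.factorial : ℝ) ≤ 1 / ((p : ℝ) - 1) * s := by
  have hf : Fact p.Prime := ⟨hp⟩
  have h1 := sub_one_mul_padicValNat_factorial (p := p) s
  have h2 : (p - 1) * padicValNat p s.factorial ≤ s := by omega
  have hp1 : (0 : ℝ) < (p : ℝ) - 1 := by
    have : (1 : ℝ) < p := by exact_mod_cast hp.one_lt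
    linarith
  rw [div_mul_eq_mul_div, one_mul, le_div_iff₀ hp1]
  have h3 : (((p - 1) * padicValNat p s.factorial : ℕ) : ℝ) ≤ s := by exact_mod_cast h2
  push_cast [Nat.cast_sub hp.one_lt.le] at h3
  linarith

theorem legendre2 {p : ℕ} (hp : p.Prime) (s : ℕ) :
    (padicValNat p s.factorial : ℝ) ≤ (s / p : ℕ) + 1 / ((p : ℝ) * ((p : ℝ) - 1)) * s := by
  have hf : Fact p.Prime := ⟨hp⟩
  have hpp : (0 : ℝ) < p := by exact_mod_cast hp.pos
  have hp1 : (0 : ℝ) < (p : ℝ) - 1 := by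
    have : (1 : ℝ) < p := by exact_mod_cast hp.one_lt
    linarith
  have h1 : padicValNat p s.factorial = s / p + padicValNat p (s / p).factorial := by
    have h2 := padicValNat_mul_div_factorial (p := p) s
    have h3 := padicValNat_factorial_mul (p := p) (s / p)
    rw [← h2, h3, Nat.add_comm]
  have h2 := legendre hp (s / p)
  have h3 : ((s / p : ℕ) : ℝ) ≤ s / p := Nat.cast_div_le
  rw [h1]
  push_cast
  have h4 : 1 / ((p : ℝ) - 1) * ((s / p : ℕ) : ℝ) ≤ 1 / ((p : ℝ) - 1) * (s / p) := by gcongr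
  have h5 : 1 / ((p : ℝ) - 1) * ((s : ℝ) / p) = 1 / ((p : ℝ) * ((p : ℝ) - 1)) * s := by
    field_simp
  linarith

/-- the trivial radius -/
theorem radius_trivial {R : Type} [CommRing R] {n : ℕ} (Q : Polynomial R)
    (A : Matrix (Fin n) (Fin n) (Polynomial R)) {N₀ p : ℕ} (hp : p.Prime) (hN : ¬ p ∣ N₀) :
    Rates.RadiusGe Q A N₀ p (1 / ((p : ℝ) - 1)) := by
  have hf : Fact p.Prime := ⟨hp⟩
  have hN0 : N₀ ≠ 0 := by
    rintro rfl
    exact hN (dvd_zero p)
  intro ε hε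
  refine ⟨0, fun s i j => ?_⟩
  rw [padicValNat.mul s.factorial_ne_zero (pow_ne_zero _ hN0),
    padicValNat.eq_zero_of_not_dvd fun h => hN (hp.dvd_of_dvd_pow h), add_zero]
  have h1 : padicValNat p s.factorial ≤ ⌊(1 / ((p : ℝ) - 1) + ε) * (s : ℝ)⌋₊ := by
    refine Nat.le_floor ((legendre hp s).trans ?_)
    gcongr
    linarith
  rw [Nat.sub_eq_zero_of_le (by omega), pow_zero, Nat.cast_one]
  exact one_dvd _

/-- the radius if the `p`-curvature is zero -/
theorem radius_curv {R : Type} [CommRing R] [Module.Free ℤ R] [Module.Finite ℤ R] {n p : ℕ}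
    (hp : p.Prime) {q : Polynomial ℤ} (hq : ¬ ((p : ℕ) : Polynomial ℤ) ∣ q) {N₀ : ℕ}
    (hN : ¬ p ∣ N₀) (k : ℕ) (A : Matrix (Fin n) (Fin n) (Polynomial R))
    (h : Rates.ZeroCurvature (Rates.lead R q N₀ k) A p) :
    Rates.RadiusGe (Rates.lead R q N₀ k) A N₀ p (1 / ((p : ℝ) * ((p : ℝ) - 1))) := by
  have hf : Fact p.Prime := ⟨hp⟩
  have hN0 : N₀ ≠ 0 := by
    rintro rfl
    exact hN (dvd_zero p)
  rw [lead_eq] at h ⊢
  intro ε hε
  refine ⟨0, fun s i j => ?_⟩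
  rw [padicValNat.mul s.factorial_ne_zero (pow_ne_zero _ hN0),
    padicValNat.eq_zero_of_not_dvd fun h => hN (hp.dvd_of_dvd_pow h), add_zero]
  refine dvd_trans ?_ (ring_curv' (Module.finBasis ℤ R) hp (not_dvd_lead hp hq hN k) A h s i j)
  refine Nat.cast_dvd_cast (pow_dvd_pow p ?_)
  have h1 : padicValNat p s.factorial - s / p ≤
      ⌊(1 / ((p : ℝ) * ((p : ℝ) - 1)) + ε) * (s : ℝ)⌋₊ := by
    refine Nat.le_floor ?_
    have h2 := legendre2 hp s
    have h3 : ((padicValNat p s.factorial - s / p : ℕ) : ℝ) ≤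
        1 / ((p : ℝ) * ((p : ℝ) - 1)) * s := by
      rcases Nat.le_total (s / p) (padicValNat p s.factorial) with h4 | h4
      · rw [Nat.cast_sub h4]
        linarith
      · rw [Nat.sub_eq_zero_of_le h4, Nat.cast_zero]
        have hpp : (0 : ℝ) < p := by exact_mod_cast hp.pos
        have hp1 : (0 : ℝ) < (p : ℝ) - 1 := by
          have : (1 : ℝ) < p := by exact_mod_cast hp.one_lt
          linarith
        positivity
    refine h3.trans ?_
    gcongr
    linarith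
  generalize s / p = u at h1 ⊢
  omega

/-- the two families -/
theorem curve_of {c : ℂ} {q : Polynomial ℤ} {β : ℝ} (h : Rates.IsCurve c q β) :
    Curve c q β ∧ ∀ p : ℕ, p.Prime → ¬ ((p : ℕ) : Polynomial ℤ) ∣ q := by
  rcases h with _ | ⟨m, hm⟩
  · refine ⟨?_, fun p hp => ?_⟩
    · rw [base_point]
      exact three_curve
    · have := not_dvd_q 1 hp
      rwa [pow_one] at this
  · refine ⟨roots_curve hm, fun p hp hdvd => ?_⟩
    have e1 : ((p : ℕ) : Polynomial ℤ) = Polynomial.C (p : ℤ) := by simp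
    rw [e1, Polynomial.C_dvd_iff_dvd_coeff] at hdvd
    have h2 := hdvd 0
    have e2 : (1 - Polynomial.X ^ m : Polynomial ℤ).coeff 0 = 1 := by
      rw [Polynomial.coeff_sub, Polynomial.coeff_one_zero, Polynomial.coeff_X_pow,
        if_neg (Ne.symm hm), sub_zero]
    rw [e2] at h2
    exact hp.one_lt.ne' (by exact_mod_cast Int.eq_one_of_dvd_one (by positivity) h2)

theorem AlgI.ring {R : Type} [CommRing R] {d : ℕ} (b : Module.Basis (Fin d) ℤ R) (ρ : R →+* ℂ)
    {n : ℕ} {c : ℂ} {Q : Polynomial ℤ} {A : Matrix (Fin n) (Fin n) (Polynomial R)} {N : ℕ}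
    (h : AlgI N c Q (Bl b A)) : Rates.AlgebraicOfDegree ρ c (Q.map (Int.castRingHom R)) A N := by
  obtain ⟨a₀, ha₀⟩ := exists_rho b ρ
  obtain ⟨L, hL1, hL2, hL3⟩ := h
  refine ⟨L, hL1, hL2, fun y hy i => ?_⟩
  have hy' : ∀ i, sh c Q * d⁄dX ℂ (y i) = ∑ j, shR ρ c (A i j) * y j := by
    intro x
    have := hy x
    rw [expand_map] at this
    exact this
  have h1 := hL3 (fun x => C (ρ (b x.2)) * y x.1) (fun x => Bl_sol b ρ c Q A y hy' x) (i, a₀)
  have h2 := toL_C_mul_mem L (ρ (b a₀))⁻¹ h1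
  have e : C ((ρ (b a₀))⁻¹) * (C (ρ (b a₀)) * y i) = y i := by
    rw [← mul_assoc, ← map_mul, inv_mul_cancel₀ ha₀, map_one, one_mul]
  simp only at h2
  rw [e] at h2
  exact h2

theorem Hyp.ring {R : Type} [CommRing R] {d : ℕ} (b : Module.Basis (Fin d) ℤ R) {n : ℕ}
    {q : Polynomial ℤ} (hq : ∀ p : ℕ, p.Prime → ¬ ((p : ℕ) : Polynomial ℤ) ∣ q)
    {N₀ k : ℕ} (hN₀ : N₀ ≠ 0) {A : Matrix (Fin n) (Fin n) (Polynomial R)} {g : ℕ → ℝ} {τ : ℝ}
    (hg : Rates.TotalDefect g τ) {r : ℕ}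
    (hrad : ∀ p : ℕ, p.Prime → p ∣ N₀ → Rates.RadiusGe (Rates.lead R q N₀ k) A N₀ p (g p))
    (hgrow : ∀ p : ℕ, p.Prime → ¬ p ∣ N₀ →
      DR.Grow ((N₀ : Polynomial ℤ) * q ^ k) (Bl b A) p (g p) r) :
    Hyp ((N₀ : Polynomial ℤ) * q ^ k) (Bl b A) N₀ g τ r
      {p | ¬ p ∣ N₀ ∧ ¬ Rates.ZeroCurvature (Rates.lead R q N₀ k) A p} where
  N₀_ne := hN₀
  g_nonneg := hg.1
  total := hg.2
  rad p hp hpN := by
    intro ε hε
    obtain ⟨Cn, hC⟩ := hrad p hp hpN ε hε
    refine ⟨Cn, fun s => Bl_dvd b _ A fun i j => ?_⟩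
    have := hC s i j
    rwa [lead_eq, pcder_eq] at this
  grow := hgrow
  curv p hp hpN hpS s x y := by
    have h0 : Rates.ZeroCurvature (Rates.lead R q N₀ k) A p := by
      by_contra hcon
      exact hpS ⟨hpN, hcon⟩
    rw [lead_eq] at h0
    exact ring_curv b hp (not_dvd_lead hp (hq p hp) hpN k) A h0 s x y

theorem nonzero_cnt {R : Type} [CommRing R] {n : ℕ} (Q : Polynomial R)
    (A : Matrix (Fin n) (Fin n) (Polynomial R)) (N₀ x : ℕ) :
    (Rates.nonzeroPrimes Q A N₀ x).ncard = cnt {p | ¬ p ∣ N₀ ∧ ¬ Rates.ZeroCurvature Q A p} x := by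
  classical
  unfold cnt
  rw [← Set.ncard_coe_finset]
  congr 1
  ext p
  simp only [Rates.nonzeroPrimes, Set.mem_ofPred_eq, Finset.coe_filter, Finset.mem_range]
  exact ⟨fun h => ⟨by omega, h.2.1, h.2.2⟩, fun h => ⟨by omega, h.2.1, h.2.2⟩⟩

end Pool.Agent.Run7.h143.PC
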