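import Mathlib
import Pool.Agent.Run7.h143.PC.G6

set_option autoImplicit false

/-!
The final forms of the criterion with rates.
-/

namespace Pool.Agent.Run7.h143.PC

open PowerSeries Pool.Agent.N780
open scoped RatFunc

theorem Bl_radG {R : Type} [CommRing R] {d : ℕ} (b : Module.Basis (Fin d) ℤ R) {n N₀ k p : ℕ}
    {q : Polynomial ℤ} {A : Matrix (Fin n) (Fin n) (Polynomial R)} {g : ℝ}
    (h : Rates.RadiusGe (Rates.lead R q N₀ k) A N₀ p g) :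
    DR.RadG ((N₀ : Polynomial ℤ) * q ^ k) (Bl b A) N₀ p g := by
  intro ε hε
  obtain ⟨Cn, hC⟩ := h ε hε
  refine ⟨Cn, fun s => Bl_dvd b _ A fun i j => ?_⟩
  have := hC s i j
  rwa [lead_eq, pcder_eq] at this

theorem RadiusGe.mono {R : Type} [CommRing R] {n N₀ p : ℕ} {Q : Polynomial R}
    {A : Matrix (Fin n) (Fin n) (Polynomial R)} {g g' : ℝ} (hgg : g ≤ g')
    (h : Rates.RadiusGe Q A N₀ p g) : Rates.RadiusGe Q A N₀ p g' := by
  intro ε hε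
  obtain ⟨Cn, hC⟩ := h ε hε
  refine ⟨Cn, fun s i j => dvd_trans (Nat.cast_dvd_cast (pow_dvd_pow p ?_)) (hC s i j)⟩
  have h1 : ⌊(g + ε) * (s : ℝ)⌋₊ ≤ ⌊(g' + ε) * (s : ℝ)⌋₊ := by
    refine Nat.floor_le_floor ?_
    gcongr
  omega

theorem DefectLe.rad {R : Type} [CommRing R] [Module.Free ℤ R] [Module.Finite ℤ R] {n p : ℕ}
    (hp : p.Prime) {q : Polynomial ℤ} (hq : ¬ ((p : ℕ) : Polynomial ℤ) ∣ q) {N₀ k : ℕ}
    {A : Matrix (Fin n) (Fin n) (Polynomial R)} {g : ℝ}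
    (h : Rates.DefectLe (Rates.lead R q N₀ k) A N₀ p g) :
    Rates.RadiusGe (Rates.lead R q N₀ k) A N₀ p g := by
  rcases h with h | ⟨hN, h⟩ | ⟨hN, h0, h⟩
  · exact h
  · exact RadiusGe.mono h (radius_trivial _ A hp hN)
  · exact RadiusGe.mono h (radius_curv hp hq hN k A h0)

theorem GrowthLe.grow {R : Type} [CommRing R] {d : ℕ} (b : Module.Basis (Fin d) ℤ R) {n p : ℕ}
    (hp : p.Prime) {q : Polynomial ℤ} (hq : ¬ ((p : ℕ) : Polynomial ℤ) ∣ q) {N₀ k : ℕ}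
    (hN : ¬ p ∣ N₀) {A : Matrix (Fin n) (Fin n) (Polynomial R)} {g : ℝ} {r : ℕ}
    (h : Rates.GrowthLe (Rates.lead R q N₀ k) A p g r) :
    DR.Grow ((N₀ : Polynomial ℤ) * q ^ k) (Bl b A) p g r := by
  rcases h with h | h | ⟨h0, h⟩
  · intro s
    refine Bl_dvd b _ A fun i j => ?_
    have := h s i j
    rwa [lead_eq, pcder_eq] at this
  · intro s x y
    have h1 : padicValNat p s.factorial ≤ ⌊g * (s : ℝ)⌋₊ := by
      refine Nat.le_floor ((legendre hp s).trans ?_)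
      gcongr
    have e : padicValNat p s.factorial - (⌊g * (s : ℝ)⌋₊ + r * Nat.log p s) = 0 := by
      generalize r * Nat.log p s = u
      omega
    rw [e, pow_zero, Nat.cast_one]
    exact one_dvd _
  · intro s x y
    rw [lead_eq] at h0
    refine dvd_trans ?_ (ring_curv b hp (not_dvd_lead hp hq hN k) A h0 s x y)
    refine Nat.cast_dvd_cast (pow_dvd_pow p ?_)
    have h1 : padicValNat p s.factorial ≤ s / p + ⌊g * (s : ℝ)⌋₊ := by
      rcases Nat.le_total (padicValNat p s.factorial) (s / p) with h4 | h4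
      · exact h4.trans (Nat.le_add_right _ _)
      · have h2 := legendre2 hp s
        have h3 : padicValNat p s.factorial - s / p ≤ ⌊g * (s : ℝ)⌋₊ := by
          refine Nat.le_floor ?_
          rw [Nat.cast_sub h4]
          have h5 : 1 / ((p : ℝ) * ((p : ℝ) - 1)) * s ≤ g * s := by gcongr
          linarith
        generalize s / p = u at h3 ⊢
        omega
    generalize s / p = u at h1 ⊢
    generalize r * Nat.log p s = v
    omega

/-- lower density -/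
theorem lowerV3 {c : ℂ} {q : Polynomial ℤ} {β : ℝ} (h : Rates.IsCurve c q β) {τ : ℝ}
    (hτ0 : 0 ≤ τ) (hτ : τ < β) : ∃ N : ℕ,
    (∀ n d : ℕ, ∃ δ : ℝ, 0 < δ ∧ ∀ (R : Type) [CommRing R] (_b : Module.Basis (Fin d) ℤ R)
      (ρ : R →+* ℂ) (N₀ k : ℕ) (A : Matrix (Fin n) (Fin n) (Polynomial R)) (g : ℕ → ℝ), N₀ ≠ 0 →
      Rates.TotalDefect g τ →
      (∀ p : ℕ, p.Prime → Rates.DefectLe (Rates.lead R q N₀ k) A N₀ p (g p)) →
      Rates.AlgebraicOfDegree ρ c (Rates.lead R q N₀ k) A N ∨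
      ∃ x₀ : ℕ, ∀ x : ℕ, x₀ ≤ x → δ * (x / Real.log x) ≤
        (Rates.nonzeroPrimes (Rates.lead R q N₀ k) A N₀ x).ncard) := by
  classical
  obtain ⟨hC, hq⟩ := curve_of h
  obtain ⟨N, hN⟩ := lowerG hC hτ0 hτ
  refine ⟨N, fun n d => ?_⟩
  obtain ⟨δ, hδ, hmain⟩ := hN (Fintype.card (Fin n × Fin d) - 1) (n * d)
  refine ⟨δ, hδ, fun R _ b ρ N₀ k A g hN₀ hg hdef => ?_⟩
  have hfree : Module.Free ℤ R := Module.Free.of_basis b
  have hfin : Module.Finite ℤ R := Module.Finite.of_basis b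
  have hrad : ∀ p : ℕ, p.Prime → Rates.RadiusGe (Rates.lead R q N₀ k) A N₀ p (g p) :=
    fun p hp => DefectLe.rad hp (hq p hp) (hdef p hp)
  by_contra hcon
  push Not at hcon
  refine hcon.1 ?_
  have h1 := hmain (Fin n × Fin d) (by simp) k (Bl b A) N₀ g
    {p | ¬ p ∣ N₀ ∧ ¬ Rates.ZeroCurvature (Rates.lead R q N₀ k) A p}
    (Hyp.ring b hq hN₀ hg (fun p hp _ => hrad p hp) fun p hp hpN =>
      DR.grow_of_rad hp (not_dvd_lead hp (hq p hp) hpN k) hpN (hg.1 p) (Bl_radG b (hrad p hp)))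
    (fun x₀ => by
      obtain ⟨x, hx, hx2⟩ := hcon.2 (max x₀ 2)
      refine ⟨x, le_trans (le_max_left _ _) hx, ?_⟩
      rw [nonzero_cnt] at hx2
      exact count_le (le_trans (le_max_right _ _) hx) hx2)
  have h2 := h1.ring b ρ
  rwa [← lead_eq] at h2

/-- upper density -/
theorem upperV3 {c : ℂ} {q : Polynomial ℤ} {β : ℝ} (h : Rates.IsCurve c q β) {τ : ℝ}
    (hτ0 : 0 ≤ τ) (hτ : τ < β) : ∃ N : ℕ,
    (∀ r : ℕ, ∃ δ : ℝ, 0 < δ ∧ ∀ (R : Type) [CommRing R] [Module.Free ℤ R] [Module.Finite ℤ R]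
      (ρ : R →+* ℂ) (n N₀ k : ℕ) (A : Matrix (Fin n) (Fin n) (Polynomial R)) (g : ℕ → ℝ), N₀ ≠ 0 →
      Rates.TotalDefect g τ →
      (∀ p : ℕ, p.Prime → p ∣ N₀ → Rates.RadiusGe (Rates.lead R q N₀ k) A N₀ p (g p)) →
      (∀ p : ℕ, p.Prime → ¬ p ∣ N₀ → Rates.GrowthLe (Rates.lead R q N₀ k) A p (g p) r) →
      Rates.AlgebraicOfDegree ρ c (Rates.lead R q N₀ k) A N ∨
      ∀ x₀ : ℕ, ∃ x : ℕ, x₀ ≤ x ∧ δ * (x / Real.log x) ≤
        (Rates.nonzeroPrimes (Rates.lead R q N₀ k) A N₀ x).ncard) := by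
  classical
  obtain ⟨hC, hq⟩ := curve_of h
  obtain ⟨N, hN⟩ := upperG hC hτ0 hτ
  refine ⟨N, fun r => ?_⟩
  obtain ⟨δ, hδ, hmain⟩ := hN r
  refine ⟨δ, hδ, fun R _ _ _ ρ n N₀ k A g hN₀ hg hrad hgrow => ?_⟩
  by_contra hcon
  push Not at hcon
  refine hcon.1 ?_
  obtain ⟨x₀, hx₀⟩ := hcon.2
  have h1 := hmain (Fin n × Fin _) k (Bl (Module.finBasis ℤ R) A) N₀ g
    {p | ¬ p ∣ N₀ ∧ ¬ Rates.ZeroCurvature (Rates.lead R q N₀ k) A p}
    (Hyp.ring _ hq hN₀ hg hrad fun p hp hpN =>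
      GrowthLe.grow _ hp (hq p hp) hpN (hgrow p hp hpN))
    ⟨max x₀ 2, fun x hx => by
      have hx2 := hx₀ x (le_trans (le_max_left _ _) hx)
      rw [nonzero_cnt] at hx2
      exact count_le (le_trans (le_max_right _ _) hx) hx2⟩
  have h2 := h1.ring _ ρ
  rwa [← lead_eq] at h2

end Pool.Agent.Run7.h143.PC
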